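import Pool.Agent.P.MP_0ad50f_co.D8.Fischer

/-! The maximum cut and the variable edges. -/

namespace Pool.Agent.P.MP_0ad50f_co.D8

set_option linter.unusedSectionVars false

open Finset

variable {V : Type} [Fintype V] [DecidableEq V]

theorem al_swap_mem {D O : Finset (V × V)} (h : Ori D O) {a : V × V} (ha : a ∈ D) (hn : a ∉ O) :
    a.swap ∈ O := by
  by_contra hc
  exact hn ((h.one a ha).2 hc)

theorem al_ori_card {D O : Finset (V × V)} (hD : Sy D) (h : Ori D O) (p : V × V → Prop)
    [DecidablePred p] (hp : ∀ a, p a → p a.swap) :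
    (D.filter p).card = 2 * (O.filter p).card := by
  have e : D.filter p = O.filter p ∪ (O.filter p).image Prod.swap := by
    ext a
    simp only [mem_union, mem_filter, mem_image]
    constructor
    · rintro ⟨ha, hpa⟩
      by_cases hn : a ∈ O
      · exact Or.inl ⟨hn, hpa⟩
      · exact Or.inr ⟨a.swap, ⟨al_swap_mem h ha hn, hp a hpa⟩, Prod.swap_swap a⟩
    · rintro (⟨ha, hpa⟩ | ⟨b, ⟨hb, hpb⟩, rfl⟩)
      · exact ⟨h.sub ha, hpa⟩
      · exact ⟨hD b (h.sub hb), hp b hpb⟩
  have hd : Disjoint (O.filter p) ((O.filter p).image Prod.swap) := by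
    rw [disjoint_left]
    intro a ha hb
    rw [mem_image] at hb
    obtain ⟨b, hb, rfl⟩ := hb
    have hbO := (mem_filter.1 hb).1
    exact (h.one b (h.sub hbO)).1 hbO (mem_filter.1 ha).1
  rw [e, card_union_of_disjoint hd, card_image_of_injective _ Prod.swap_injective]
  omega

theorem al_ori_out (D : Finset (V × V)) (hD : Sy D) (W : Finset V) : Ori (cut D W) (out D W) := by
  constructor
  · intro a ha
    rw [mem_out] at ha
    rw [mem_cut]
    tauto
  · intro a ha
    rw [mem_cut] at ha
    have hs := hD a ha.1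
    rw [mem_out, mem_out]
    simp only [Prod.fst_swap, Prod.snd_swap]
    tauto

theorem al_cut_card {D : Finset (V × V)} (hD : Sy D) (W : Finset V) :
    (cut D W).card = 2 * (out D W).card := by
  have := al_ori_card (hD.cut W) (al_ori_out D hD W) (fun _ => True) (fun _ _ => trivial)
  simpa using this

theorem al_ori_sum {D O : Finset (V × V)} (hD : Sys D Prod.fst) (h : Ori D O) (f : V × V → ℤ)
    (v : V) : sm D (fun a => if a ∈ O then f a else f a.swap) v = ∑ e ∈ inc O v, f e := by
  unfold sm sg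
  refine sum_nbij' (fun a => if a ∈ O then a else a.swap)
    (fun e => if e.1 = v then e else e.swap) ?_ ?_ ?_ ?_ ?_
  · intro a ha
    simp only [mem_filter] at ha
    simp only [inc, mem_filter]
    by_cases hn : a ∈ O
    · rw [if_pos hn]; exact ⟨hn, Or.inl ha.2⟩
    · rw [if_neg hn]; exact ⟨al_swap_mem h ha.1 hn, Or.inr ha.2⟩
  · intro e he
    simp only [inc, mem_filter] at he
    simp only [mem_filter]
    by_cases hn : e.1 = v
    · rw [if_pos hn]; exact ⟨h.sub he.1, hn⟩
    · rw [if_neg hn]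
      exact ⟨hD.sy e (h.sub he.1), he.2.resolve_left hn⟩
  · intro a ha
    simp only [mem_filter] at ha
    by_cases hn : a ∈ O
    · simp only [if_pos hn, if_pos ha.2]
    · have h1 : ¬ a.swap.1 = v := fun e => hD.nl a ha.1 (e.trans ha.2.symm)
      simp only [if_neg hn, if_neg h1, Prod.swap_swap]
  · intro e he
    simp only [inc, mem_filter] at he
    by_cases hn : e.1 = v
    · simp only [if_pos hn, if_pos he.1]
    · have h1 : e.swap ∉ O := (h.one e (h.sub he.1)).1 he.1
      simp only [if_neg hn, if_neg h1, Prod.swap_swap]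
  · intro a _
    by_cases hn : a ∈ O
    · simp only [if_pos hn]
    · simp only [if_neg hn]

theorem al_ori_deg {D O : Finset (V × V)} (hD : Sys D Prod.fst) (h : Ori D O) (v : V) :
    deg D v = (inc O v).card := by
  have := al_ori_sum hD h (fun _ => 1) v
  simp only [sm, sg, ite_self, sum_const, nsmul_eq_mul, mul_one] at this
  exact_mod_cast this

theorem al_out_single {D : Finset (V × V)} (hD : Sys D Prod.fst) (v : V) :
    (out D {v}).card = deg D v := by
  unfold deg dg out
  congr 1
  refine filter_congr fun a ha => ?_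
  simp only [mem_singleton]
  exact ⟨fun h => h.1, fun h => ⟨h, fun e => hD.nl a ha (e.trans h.symm)⟩⟩

theorem al_flip (E : Finset (V × V)) (S W : Finset V) :
    (cut E (symmDiff S W)).card + (cut (cut E S) W).card =
      (cut E S).card + (cut (unc E S) W).card := by
  have h1 : (cut E S).card = (cut (cut E S) W).card + (unc (cut E S) W).card := by
    unfold cut unc
    rw [add_comm]
    exact (card_filter_add_card_filter_not _).symm
  have h2 : cut E (symmDiff S W) = unc (cut E S) W ∪ cut (unc E S) W := by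
    ext a
    simp only [mem_union, mem_cut, mem_unc, mem_symmDiff]
    tauto
  have h3 : Disjoint (unc (cut E S) W) (cut (unc E S) W) := by
    rw [disjoint_left]
    intro a ha hb
    simp only [mem_cut, mem_unc] at ha hb
    tauto
  rw [h2, card_union_of_disjoint h3]
  omega

theorem al_sys_cut {E : Finset (V × V)} (hE : Sys E Prod.fst) (S : Finset V) :
    Sys (cut E S) Prod.fst := hE.mono (filter_subset _ _) (hE.sy.cut S)

theorem al_sys_unc {E : Finset (V × V)} (hE : Sys E Prod.fst) (S : Finset V) :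
    Sys (unc E S) Prod.fst := hE.mono (filter_subset _ _) (hE.sy.unc S)

theorem maxcut {E : Finset (V × V)} (hE : Sys E Prod.fst) : ∃ S : Finset V,
    (∀ W, (out (unc E S) W).card ≤ (out (cut E S) W).card) ∧
      ∀ s ∈ S, deg (unc E S) s + 1 ≤ deg (cut E S) s := by
  obtain ⟨S0, -, h0⟩ := exists_max_image (univ : Finset (Finset V)) (fun S => (cut E S).card)
    univ_nonempty
  obtain ⟨S, hS, hmin⟩ := exists_min_image
    (univ.filter fun S : Finset V => (cut E S0).card ≤ (cut E S).card) (fun S => S.card)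
    ⟨S0, by simp⟩
  have hS' : (cut E S0).card ≤ (cut E S).card := (mem_filter.1 hS).2
  have key : ∀ W, (cut E (symmDiff S W)).card + 2 * (out (cut E S) W).card =
      (cut E S).card + 2 * (out (unc E S) W).card := by
    intro W
    rw [← al_cut_card (hE.sy.cut S) W, ← al_cut_card (hE.sy.unc S) W]
    exact al_flip E S W
  refine ⟨S, fun W => ?_, fun s hs => ?_⟩
  · have h1 := key W
    have h2 := h0 (symmDiff S W) (mem_univ _)
    omega
  · by_contra hc
    have h1 := key {s}
    rw [al_out_single (al_sys_cut hE S), al_out_single (al_sys_unc hE S)] at h1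
    have h2 := hmin (symmDiff S {s}) (mem_filter.2 ⟨mem_univ _, by omega⟩)
    have h3 : symmDiff S {s} = S.erase s := by
      ext x
      simp only [mem_symmDiff, mem_singleton, mem_erase]
      constructor
      · rintro (⟨h, h'⟩ | ⟨rfl, h'⟩)
        · exact ⟨h', h⟩
        · exact absurd hs h'
      · rintro ⟨h, h'⟩
        exact Or.inl ⟨h', h⟩
    rw [h3] at h2
    have h4 := card_erase_lt_of_mem hs
    omega

theorem al_exists_ori {D : Finset (V × V)} (hD : Sys D Prod.fst) : ∃ O, Ori D O := by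
  refine ⟨D.filter fun a => Fintype.equivFin V a.1 < Fintype.equivFin V a.2,
    filter_subset _ _, fun a ha => ?_⟩
  have hs := hD.sy a ha
  have hne : Fintype.equivFin V a.1 ≠ Fintype.equivFin V a.2 := fun e =>
    hD.nl a ha ((Fintype.equivFin V).injective e).symm
  simp only [mem_filter, Prod.fst_swap, Prod.snd_swap, ha, hs, true_and, not_lt]
  exact ⟨fun h => h.le, fun h => lt_of_le_of_ne h hne⟩

theorem al_touch {D : Finset (V × V)} (hD : Sy D) (W : Finset V) :
    (D.filter fun a => a.1 ∈ W ∨ a.2 ∈ W).card =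
      (D.filter fun a => a.1 ∈ W).card + (out D W).card := by
  have e : (D.filter fun a => a.1 ∈ W ∨ a.2 ∈ W) =
      (D.filter fun a => a.1 ∈ W) ∪ (out D W).image Prod.swap := by
    ext a
    simp only [mem_union, mem_filter, mem_image, mem_out]
    constructor
    · rintro ⟨ha, h⟩
      by_cases h1 : a.1 ∈ W
      · exact Or.inl ⟨ha, h1⟩
      · exact Or.inr ⟨a.swap, ⟨hD a ha, h.resolve_left h1, h1⟩, Prod.swap_swap a⟩
    · rintro (⟨ha, h⟩ | ⟨b, ⟨hb, h1, _⟩, rfl⟩)
      · exact ⟨ha, Or.inl h⟩
      · exact ⟨hD b hb, Or.inr h1⟩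
  have hd : Disjoint (D.filter fun a => a.1 ∈ W) ((out D W).image Prod.swap) := by
    rw [disjoint_left]
    intro a ha hb
    rw [mem_image] at hb
    obtain ⟨b, hb, rfl⟩ := hb
    exact (mem_out.1 hb).2.2 (mem_filter.1 ha).2
  rw [e, card_union_of_disjoint hd, card_image_of_injective _ Prod.swap_injective]

theorem algebra {E : Finset (V × V)} (hE : Sys E Prod.fst) (hmin : ∀ v, 8 ≤ deg E v) :
    ∃ S F, Setup E S F ∧ ∀ b : V → ℤ, ∃ l : V × V → ℤ, Sgn F l ∧
      ∀ a ∈ unc E S, b a.1 + 3 * sm F l a.1 ≠ b a.2 + 3 * sm F l a.2 := by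
  obtain ⟨S, hmax, hlt⟩ := maxcut hE
  have hc := al_sys_cut hE S
  have hu := al_sys_unc hE S
  obtain ⟨U, hU⟩ := al_exists_ori hu
  have hKo : Ori (cut E S) (out E S) := al_ori_out E hE.sy S
  have hK : ∀ a ∈ out E S, a.1 ≠ a.2 := fun a ha e => by
    rw [mem_out] at ha
    exact ha.2.2 (e ▸ ha.2.1)
  have hUl : ∀ a ∈ U, a.1 ≠ a.2 := fun a ha e => hu.nl a (hU.sub ha) e.symm
  have h1 := span_rank hE S hmax hU
  simp only [← and_assoc] at h1
  have h2 := span_drop (out E S) U hK (fun F => F ⊆ out E S ∧ ∀ v,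
    (deg (cut E S) v - deg (unc E S) v) / 2 + (inc F v).card ≤ deg (cut E S) v)
    (fun _ h => h.1) h1
  obtain ⟨P, ⟨⟨hPK, hP1⟩, hP2⟩, hco⟩ := exists_coeff (out E S) U hK hUl
    (fun F => (F ⊆ out E S ∧ ∀ v,
      (deg (cut E S) v - deg (unc E S) v) / 2 + (inc F v).card ≤ deg (cut E S) v) ∧
      ∀ v, (inc U v).card < (inc (out E S) v).card → ¬ inc (out E S) v ⊆ F)
    (fun _ h => h.1.1) (by simpa only [and_assoc] using h2)
  have hsy : Sy (P ∪ P.image Prod.swap) := by
    intro a ha
    rw [mem_union] at ha ⊢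
    rcases ha with ha | ha
    · exact Or.inr (mem_image_of_mem _ ha)
    · rw [mem_image] at ha
      obtain ⟨b, hb, rfl⟩ := ha
      exact Or.inl (by simpa using hb)
  have hsub : P ∪ P.image Prod.swap ⊆ cut E S := by
    intro a ha
    rw [mem_union] at ha
    rcases ha with ha | ha
    · exact hKo.sub (hPK ha)
    · rw [mem_image] at ha
      obtain ⟨b, hb, rfl⟩ := ha
      exact hc.sy b (hKo.sub (hPK hb))
  have hF : Sys (P ∪ P.image Prod.swap) Prod.fst := hc.mono hsub hsy
  have hP : Ori (P ∪ P.image Prod.swap) P := by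
    refine ⟨subset_union_left, fun a ha => ⟨fun h h' => ?_, fun h => ?_⟩⟩
    · exact (mem_out.1 (hPK h)).2.2 (mem_out.1 (hPK h')).2.1
    · rw [mem_union] at ha
      refine ha.resolve_right fun hb => ?_
      rw [mem_image] at hb
      obtain ⟨b, hb, rfl⟩ := hb
      exact h (by simpa using hb)
  refine ⟨S, P ∪ P.image Prod.swap, ⟨hE, hmin, fun v => ?_, hlt, hsub, hsy, fun v => ?_,
    fun v hv => ?_, fun W => ?_⟩, fun b => ?_⟩
  · have := hmax {v}
    rwa [al_out_single hc, al_out_single hu] at this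
  · rw [al_ori_deg hF hP]
    exact hP1 v
  · rw [al_ori_deg hu hU, al_ori_deg hc hKo] at hv
    rw [al_ori_deg hF hP, al_ori_deg hc hKo]
    have hs : inc P v ⊆ inc (out E S) v := filter_subset_filter _ hPK
    refine card_lt_card ⟨hs, fun h => hP2 v hv fun a ha => ?_⟩
    exact (mem_filter.1 (h ha)).1
  · rw [al_ori_card hsy hP _ (fun a h => ⟨h.2, h.1⟩), ← al_touch hu.sy,
      al_ori_card hu.sy hU _ (fun a h => h.symm)]
    have := coeff_inside (out E S) U P hco W
    omega
  · obtain ⟨l, hl1, hl2⟩ := coeff_cn (out E S) U P hPK hco b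
    refine ⟨fun a => if a ∈ P then l a else l a.swap, fun a ha => ?_, fun a ha => ?_⟩
    · by_cases hn : a ∈ P
      · have h3 : a.swap ∉ P := (hP.one a ha).1 hn
        simp only [if_pos hn, if_neg h3, Prod.swap_swap, true_and]
        exact hl1 a hn
      · have h3 : a.swap ∈ P := al_swap_mem hP ha hn
        simp only [if_neg hn, if_pos h3, true_and]
        exact hl1 _ h3
    · rw [al_ori_sum hF hP, al_ori_sum hF hP]
      by_cases hn : a ∈ U
      · exact hl2 a hn
      · exact (hl2 _ (al_swap_mem hU ha hn)).symm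

end Pool.Agent.P.MP_0ad50f_co.D8
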