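import Mathlib

/-! Minimum degree 8: common definitions. Graphs are symmetric loopless sets of darts `(v, w)`. -/

namespace Pool.Agent.P.MP_0ad50f_co.D8

set_option linter.unusedSectionVars false

open Finset

section darts
variable {V N : Type} [DecidableEq V] [DecidableEq N]

/-- closed under reversal -/
def Sy (D : Finset (V × V)) : Prop := ∀ a ∈ D, a.swap ∈ D

/-- number of darts at the node `x` -/
def dg (D : Finset (V × V)) (nd : V × V → N) (x : N) : ℕ := (D.filter fun a => nd a = x).card

/-- sum of a dart function at the node `x` -/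
def sg (D : Finset (V × V)) (nd : V × V → N) (f : V × V → ℤ) (x : N) : ℤ :=
  ∑ a ∈ D.filter fun a => nd a = x, f a

/-- vertex degree -/
abbrev deg (D : Finset (V × V)) (v : V) : ℕ := dg D Prod.fst v

/-- vertex sum -/
abbrev sm (D : Finset (V × V)) (f : V × V → ℤ) (v : V) : ℤ := sg D Prod.fst f v

/-- adjacency of nodes -/
def Step (D : Finset (V × V)) (nd : V × V → N) (x y : N) : Prop :=
  ∃ a ∈ D, nd a = x ∧ nd a.swap = y

/-- reachability of nodes -/
def Reach (D : Finset (V × V)) (nd : V × V → N) : N → N → Prop :=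
  Relation.ReflTransGen (Step D nd)

/-- a dart system: symmetric, and the two darts of an edge lie at different nodes -/
structure Sys (D : Finset (V × V)) (nd : V × V → N) : Prop where
  sy : Sy D
  nl : ∀ a ∈ D, nd a.swap ≠ nd a

/-- the node reaches a node of odd degree -/
def Good (D : Finset (V × V)) (nd : V × V → N) (x : N) : Prop :=
  ∃ z, Reach D nd x z ∧ Odd (dg D nd z)

/-- a symmetric sign function on `D` -/
def Sgn (D : Finset (V × V)) (f : V × V → ℤ) : Prop :=
  ∀ a ∈ D, f a.swap = f a ∧ (f a = 1 ∨ f a = -1)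

/-- delete an edge -/
def del (D : Finset (V × V)) (a : V × V) : Finset (V × V) := (D.erase a).erase a.swap

/-- add an edge -/
def add (D : Finset (V × V)) (a : V × V) : Finset (V × V) := insert a (insert a.swap D)

/-- darts that cross the cut -/
def cut (D : Finset (V × V)) (S : Finset V) : Finset (V × V) :=
  D.filter fun a => ¬ (a.1 ∈ S ↔ a.2 ∈ S)

/-- darts that do not cross the cut -/
def unc (D : Finset (V × V)) (S : Finset V) : Finset (V × V) :=
  D.filter fun a => (a.1 ∈ S ↔ a.2 ∈ S)

/-- darts that leave `W` -/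
def out (D : Finset (V × V)) (W : Finset V) : Finset (V × V) :=
  D.filter fun a => a.1 ∈ W ∧ a.2 ∉ W

/-- node types of the sign lemma: 0 sum zero, 1 sum plus or minus one, 2 sum plus or minus two,
3 sum zero or plus or minus two -/
def Ok (t : Fin 4) (R : ℤ) : Prop :=
  (t = 0 → R = 0) ∧ (t = 1 → R = 1 ∨ R = -1) ∧ (t = 2 → R = 2 ∨ R = -2) ∧
    (t = 3 → R = 0 ∨ R = 2 ∨ R = -2)

/-- the graph, the cut and the variable edges -/
structure Setup (E : Finset (V × V)) (S : Finset V) (F : Finset (V × V)) : Prop where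
  sys : Sys E Prod.fst
  mind : ∀ v, 8 ≤ deg E v
  le : ∀ v, deg (unc E S) v ≤ deg (cut E S) v
  lt : ∀ s ∈ S, deg (unc E S) s + 1 ≤ deg (cut E S) s
  sub : F ⊆ cut E S
  syF : Sy F
  f1 : ∀ v, (deg (cut E S) v - deg (unc E S) v) / 2 + deg F v ≤ deg (cut E S) v
  f2 : ∀ v, deg (unc E S) v < deg (cut E S) v → deg F v + 1 ≤ deg (cut E S) v
  f3 : ∀ W : Finset V, (F.filter fun a => a.1 ∈ W ∧ a.2 ∈ W).card ≤
    ((unc E S).filter fun a => a.1 ∈ W).card + (out (unc E S) W).card

/-- the edges of colour 3: static, right parity on `S`, at most half at every vertex -/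
structure Val (E : Finset (V × V)) (S : Finset V) (F M : Finset (V × V)) : Prop where
  sub : M ⊆ E \ F
  sy : Sy M
  par : ∀ s ∈ S, deg M s % 2 = deg E s % 2
  load : ∀ v, deg M v ≤ deg E v / 2

/-- vertices of the second side whose larger sign class is too large by one -/
def Needy (E : Finset (V × V)) (S : Finset V) (M : Finset (V × V)) (t : V) : Prop :=
  t ∉ S ∧ (deg M t = 0 ∨ (deg M t = 1 ∧ deg E t % 2 = 1))

theorem mem_del {D : Finset (V × V)} {a b : V × V} :
    b ∈ del D a ↔ b ∈ D ∧ b ≠ a ∧ b ≠ a.swap := by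
  simp only [del, mem_erase]; tauto

theorem mem_add {D : Finset (V × V)} {a b : V × V} :
    b ∈ add D a ↔ b = a ∨ b = a.swap ∨ b ∈ D := by
  simp only [add, mem_insert]

theorem mem_cut {D : Finset (V × V)} {S : Finset V} {a : V × V} :
    a ∈ cut D S ↔ a ∈ D ∧ ¬ (a.1 ∈ S ↔ a.2 ∈ S) := by simp only [cut, mem_filter]

theorem mem_unc {D : Finset (V × V)} {S : Finset V} {a : V × V} :
    a ∈ unc D S ↔ a ∈ D ∧ (a.1 ∈ S ↔ a.2 ∈ S) := by simp only [unc, mem_filter]

theorem mem_out {D : Finset (V × V)} {W : Finset V} {a : V × V} :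
    a ∈ out D W ↔ a ∈ D ∧ a.1 ∈ W ∧ a.2 ∉ W := by simp only [out, mem_filter]

theorem del_subset (D : Finset (V × V)) (a : V × V) : del D a ⊆ D :=
  fun _ h => (mem_del.1 h).1

theorem Sy.del {D : Finset (V × V)} (h : Sy D) (a : V × V) : Sy (del D a) := by
  intro b hb
  rw [mem_del] at hb ⊢
  refine ⟨h b hb.1, fun e => hb.2.2 ?_, fun e => hb.2.1 ?_⟩
  · rw [← e]; simp
  · exact Prod.swap_injective e

theorem Sy.add {D : Finset (V × V)} (h : Sy D) (a : V × V) : Sy (add D a) := by
  intro b hb
  rw [mem_add] at hb ⊢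
  rcases hb with rfl | rfl | hb
  · simp
  · simp
  · exact Or.inr (Or.inr (h b hb))

theorem Sy.sdiff {D M : Finset (V × V)} (h : Sy D) (hM : Sy M) : Sy (D \ M) := by
  intro b hb
  rw [mem_sdiff] at hb ⊢
  exact ⟨h b hb.1, fun e => hb.2 (by simpa using hM _ e)⟩

theorem Sy.cut {D : Finset (V × V)} (h : Sy D) (S : Finset V) : Sy (cut D S) := by
  intro b hb
  rw [mem_cut] at hb ⊢
  exact ⟨h b hb.1, fun e => hb.2 e.symm⟩

theorem Sy.unc {D : Finset (V × V)} (h : Sy D) (S : Finset V) : Sy (unc D S) := by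
  intro b hb
  rw [mem_unc] at hb ⊢
  exact ⟨h b hb.1, hb.2.symm⟩

theorem Sys.mono {D D' : Finset (V × V)} {nd : V × V → N} (h : Sys D nd) (hs : D' ⊆ D)
    (hy : Sy D') : Sys D' nd := ⟨hy, fun a ha => h.nl a (hs ha)⟩

theorem Sys.del {D : Finset (V × V)} {nd : V × V → N} (h : Sys D nd) (a : V × V) :
    Sys (del D a) nd := h.mono (del_subset D a) (h.sy.del a)

theorem Sys.ne_swap {D : Finset (V × V)} {nd : V × V → N} (h : Sys D nd) {a : V × V}
    (ha : a ∈ D) : a.swap ≠ a := fun e => h.nl a ha (by rw [e])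

theorem dg_mono {D D' : Finset (V × V)} (nd : V × V → N) (h : D ⊆ D') (x : N) :
    dg D nd x ≤ dg D' nd x := card_le_card (filter_subset_filter _ h)

theorem dg_pos {D : Finset (V × V)} {nd : V × V → N} {x : N} :
    0 < dg D nd x ↔ ∃ a ∈ D, nd a = x := by
  simp [dg, card_pos, filter_nonempty_iff]

theorem dg_insert {D : Finset (V × V)} (nd : V × V → N) {a : V × V} (ha : a ∉ D) (x : N) :
    dg (insert a D) nd x = dg D nd x + if nd a = x then 1 else 0 := by
  unfold dg
  rw [filter_insert]
  split_ifs with h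
  · rw [card_insert_of_notMem (by simp [ha])]
  · simp

theorem sg_insert {D : Finset (V × V)} (nd : V × V → N) (f : V × V → ℤ) {a : V × V} (ha : a ∉ D)
    (x : N) : sg (insert a D) nd f x = sg D nd f x + if nd a = x then f a else 0 := by
  unfold sg
  rw [filter_insert]
  split_ifs with h
  · rw [sum_insert (by simp [ha]), add_comm]
  · simp

theorem add_del {D : Finset (V × V)} (h : Sy D) {a : V × V} (ha : a ∈ D) :
    add (del D a) a = D := by
  ext b
  rw [mem_add, mem_del]
  constructor
  · rintro (rfl | rfl | hb)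
    · exact ha
    · exact h _ ha
    · exact hb.1
  · intro hb; tauto

theorem dg_add {D : Finset (V × V)} (nd : V × V → N) {a : V × V} (ha : a ∉ D) (ha' : a.swap ∉ D)
    (hne : a.swap ≠ a) (x : N) :
    dg (add D a) nd x =
      dg D nd x + (if nd a = x then 1 else 0) + (if nd a.swap = x then 1 else 0) := by
  unfold add
  rw [dg_insert nd (by simp [ha, hne.symm]), dg_insert nd ha']
  omega

theorem sg_add {D : Finset (V × V)} (nd : V × V → N) (f : V × V → ℤ) {a : V × V} (ha : a ∉ D)
    (ha' : a.swap ∉ D) (hne : a.swap ≠ a) (x : N) :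
    sg (add D a) nd f x =
      sg D nd f x + (if nd a = x then f a else 0) + (if nd a.swap = x then f a.swap else 0) := by
  unfold add
  rw [sg_insert nd f (by simp [ha, hne.symm]), sg_insert nd f ha']
  ring

theorem dg_del {D : Finset (V × V)} {nd : V × V → N} (h : Sys D nd) {a : V × V} (ha : a ∈ D)
    (x : N) : dg D nd x =
      dg (del D a) nd x + (if nd a = x then 1 else 0) + (if nd a.swap = x then 1 else 0) := by
  rw [← dg_add nd (by simp [mem_del]) (by simp [mem_del]) (h.ne_swap ha), add_del h.sy ha]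

theorem sg_del {D : Finset (V × V)} {nd : V × V → N} (h : Sys D nd) (f : V × V → ℤ) {a : V × V}
    (ha : a ∈ D) (x : N) : sg D nd f x = sg (del D a) nd f x +
      (if nd a = x then f a else 0) + (if nd a.swap = x then f a.swap else 0) := by
  rw [← sg_add nd f (by simp [mem_del]) (by simp [mem_del]) (h.ne_swap ha), add_del h.sy ha]

theorem card_del_lt {D : Finset (V × V)} {a : V × V} (ha : a ∈ D) : (del D a).card < D.card :=
  card_lt_card ⟨del_subset D a, fun h => (mem_del.1 (h ha)).2.1 rfl⟩

theorem dg_sdiff {D M : Finset (V × V)} (nd : V × V → N) (h : M ⊆ D) (x : N) :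
    dg (D \ M) nd x + dg M nd x = dg D nd x := by
  unfold dg
  rw [← card_union_of_disjoint (disjoint_filter_filter sdiff_disjoint), ← filter_union,
    sdiff_union_of_subset h]

theorem dg_cut_unc (D : Finset (V × V)) (S : Finset V) (nd : V × V → N) (x : N) :
    dg (cut D S) nd x + dg (unc D S) nd x = dg D nd x := by
  unfold dg cut unc
  rw [filter_comm, filter_comm _ (fun a => nd a = x), add_comm]
  exact card_filter_add_card_filter_not _

theorem sdiff_add {E M : Finset (V × V)} (a : V × V) : E \ add M a = del (E \ M) a := by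
  ext b; simp only [mem_sdiff, mem_add, mem_del]; tauto

theorem sdiff_del {E M : Finset (V × V)} (hE : Sy E) {a : V × V} (ha : a ∈ E) :
    E \ del M a = add (E \ M) a := by
  ext b
  simp only [mem_sdiff, mem_add, mem_del]
  constructor
  · tauto
  · rintro (rfl | rfl | h)
    · tauto
    · exact ⟨hE _ ha, by tauto⟩
    · tauto

theorem Reach.refl (D : Finset (V × V)) (nd : V × V → N) (x : N) : Reach D nd x x :=
  Relation.ReflTransGen.refl

theorem Reach.trans {D : Finset (V × V)} {nd : V × V → N} {x y z : N} (h : Reach D nd x y)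
    (h' : Reach D nd y z) : Reach D nd x z := Relation.ReflTransGen.trans h h'

theorem Reach.dart {D : Finset (V × V)} (nd : V × V → N) {a : V × V} (ha : a ∈ D) :
    Reach D nd (nd a) (nd a.swap) := Relation.ReflTransGen.single ⟨a, ha, rfl, rfl⟩

theorem Reach.mono {D D' : Finset (V × V)} {nd : V × V → N} (hs : D ⊆ D') {x y : N}
    (h : Reach D nd x y) : Reach D' nd x y := by
  induction h with
  | refl => exact Reach.refl _ _ _
  | tail _ h2 ih =>
    obtain ⟨a, ha, rfl, rfl⟩ := h2
    exact ih.trans (Reach.dart nd (hs ha))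

theorem Reach.symm {D : Finset (V × V)} {nd : V × V → N} (hy : Sy D) {x y : N}
    (h : Reach D nd x y) : Reach D nd y x := by
  induction h with
  | refl => exact Reach.refl _ _ _
  | tail _ hs ih =>
    obtain ⟨a, ha, rfl, rfl⟩ := hs
    have := Reach.dart nd (hy a ha)
    rw [Prod.swap_swap] at this
    exact this.trans ih

theorem Good.of_reach {D : Finset (V × V)} {nd : V × V → N} {x y : N} (h : Reach D nd x y)
    (hg : Good D nd y) : Good D nd x := by
  obtain ⟨z, hz, ho⟩ := hg
  exact ⟨z, h.trans hz, ho⟩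

/-- a walk in `D` is a walk without the edge `a`, or it reaches an end of `a` without it -/
theorem Reach.del_or {D : Finset (V × V)} {nd : V × V → N} (a : V × V) {x z : N}
    (h : Reach D nd x z) : Reach (del D a) nd x z ∨ Reach (del D a) nd x (nd a) ∨
      Reach (del D a) nd x (nd a.swap) := by
  induction h with
  | refl => exact Or.inl (Reach.refl _ _ _)
  | tail _ hs ih =>
    obtain ⟨b, hb, rfl, rfl⟩ := hs
    rcases ih with ih | ih
    · by_cases h1 : b = a
      · subst h1; exact Or.inr (Or.inl ih)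
      · by_cases h2 : b = a.swap
        · subst h2; exact Or.inr (Or.inr ih)
        · exact Or.inl (ih.trans (Reach.dart nd (mem_del.2 ⟨hb, h1, h2⟩)))
    · exact Or.inr ih

end darts

end Pool.Agent.P.MP_0ad50f_co.D8
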