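import Pool.Agent.P.MP_0ad50f_co.D8.Rank

/-! From the span to a nonzero coefficient, and the Nullstellensatz. -/

namespace Pool.Agent.P.MP_0ad50f_co.D8

set_option linter.unusedSectionVars false

open Finset MvPolynomial

variable {V : Type} [Fintype V] [DecidableEq V]

/-- the sum of the dart variables at `v` -/
noncomputable def ysum (K : Finset (V × V)) (v : V) : MvPolynomial (V × V) ℝ :=
  ∑ a ∈ inc K v, X a

/-- the squarefree exponent of `F` -/
noncomputable def expo (F : Finset (V × V)) : (V × V) →₀ ℕ := ∑ a ∈ F, Finsupp.single a 1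

/-- the factorial weight of an exponent -/
noncomputable def fi_w (al : V →₀ ℕ) : ℝ := ∏ v, ((al v).factorial : ℝ)

/-- the Fischer pairing, linear in the second argument -/
noncomputable def fi_B (q : MvPolynomial V ℝ) : MvPolynomial V ℝ →ₗ[ℝ] ℝ :=
  (basisMonomials V ℝ).constr ℝ fun al => fi_w al * coeff al q

theorem fi_w_pos (al : V →₀ ℕ) : 0 < fi_w al :=
  prod_pos fun v _ => by exact_mod_cast Nat.factorial_pos (al v)

theorem fi_w_zero : fi_w (0 : V →₀ ℕ) = 1 := by simp [fi_w]

theorem fi_w_add (al : V →₀ ℕ) (v : V) :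
    fi_w (al + Finsupp.single v 1) = fi_w al * (al v + 1) := by
  unfold fi_w
  rw [← mul_prod_erase univ _ (mem_univ v), ← mul_prod_erase univ _ (mem_univ v)]
  have h : ∏ x ∈ univ.erase v, (((al + Finsupp.single v 1 : V →₀ ℕ) x).factorial : ℝ) =
      ∏ x ∈ univ.erase v, ((al x).factorial : ℝ) := by
    refine prod_congr rfl fun x hx => ?_
    have hx' : v ≠ x := fun e => (mem_erase.1 hx).1 e.symm
    simp [hx']
  rw [h]
  simp only [Finsupp.coe_add, Pi.add_apply, Finsupp.single_eq_same, Nat.factorial_succ]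
  push_cast
  ring

theorem fi_B_monomial (q : MvPolynomial V ℝ) (al : V →₀ ℕ) (c : ℝ) :
    fi_B q (monomial al c) = c * (fi_w al * coeff al q) := by
  have h1 : (monomial al c : MvPolynomial V ℝ) = c • basisMonomials V ℝ al := by
    rw [coe_basisMonomials]
    simp [smul_monomial]
  rw [h1, map_smul, fi_B, Module.Basis.constr_basis, smul_eq_mul]

theorem fi_B_add (q r p : MvPolynomial V ℝ) : fi_B (q + r) p = fi_B q p + fi_B r p := by
  induction p using MvPolynomial.induction_on' with
  | monomial al c => simp only [fi_B_monomial, coeff_add]; ring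
  | add p p' hp hp' => simp only [map_add, hp, hp']; ring

theorem fi_B_X (q p : MvPolynomial V ℝ) (v : V) : fi_B q (X v * p) = fi_B (pderiv v q) p := by
  induction p using MvPolynomial.induction_on' with
  | monomial al c =>
    have h1 : (X v * monomial al c : MvPolynomial V ℝ) = monomial (al + Finsupp.single v 1) c := by
      rw [monomial_add_single, pow_one, mul_comm]
    rw [h1, fi_B_monomial, fi_B_monomial, coeff_pderiv, fi_w_add]
    ring
  | add p p' hp hp' => simp only [mul_add, map_add, hp, hp']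

theorem fi_B_self {q : MvPolynomial V ℝ} (hq : q ≠ 0) : fi_B q q ≠ 0 := by
  have h1 : fi_B q q = ∑ al ∈ q.support, coeff al q * (fi_w al * coeff al q) := by
    have h2 : fi_B q (∑ al ∈ q.support, monomial al (coeff al q)) =
        ∑ al ∈ q.support, coeff al q * (fi_w al * coeff al q) := by
      rw [map_sum]
      exact sum_congr rfl fun al _ => fi_B_monomial q al _
    rwa [← as_sum] at h2
  rw [h1]
  refine ne_of_gt (sum_pos (fun al hal => ?_) (support_nonempty.2 hq))
  have h3 : coeff al q ≠ 0 := mem_support_iff.1 hal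
  have h4 : coeff al q * (fi_w al * coeff al q) = fi_w al * (coeff al q) ^ 2 := by ring
  rw [h4]
  exact mul_pos (fi_w_pos al) (by positivity)

theorem fi_pderiv_ysum {K : Finset (V × V)} {e : V × V} (he : e ∈ K) (hne : e.1 ≠ e.2) (v : V) :
    pderiv e (ysum K v) = (if v = e.1 then 1 else 0) + (if v = e.2 then 1 else 0) := by
  unfold ysum
  rw [map_sum]
  by_cases h : e ∈ inc K v
  · rw [sum_eq_single e (fun b _ hb => pderiv_X_of_ne hb) (fun h' => absurd h h'), pderiv_X_self]
    rcases (mem_filter.1 h).2 with h1 | h1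
    · rw [if_pos h1.symm, if_neg (fun h2 => hne (h1.trans h2))]; simp
    · rw [if_pos h1.symm, if_neg (fun h2 => hne (h1.trans h2).symm)]; simp
  · have h0 : ∀ b ∈ inc K v, pderiv e (X b : MvPolynomial (V × V) ℝ) = 0 :=
      fun b hb => pderiv_X_of_ne fun e' : b = e => h (e' ▸ hb)
    rw [sum_eq_zero h0]
    have h1 : ¬ (e.1 = v ∨ e.2 = v) := fun h2 => h (mem_filter.2 ⟨he, h2⟩)
    rw [if_neg (fun h2 => h1 (Or.inl h2.symm)), if_neg (fun h2 => h1 (Or.inr h2.symm))]
    simp

theorem fi_pderiv_X (u v : V) :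
    pderiv u (X v : MvPolynomial V ℝ) = if v = u then 1 else 0 := by
  split_ifs with h
  · rw [h, pderiv_X_self]
  · exact pderiv_X_of_ne h

theorem fi_pderiv_psi {K : Finset (V × V)} {e : V × V} (he : e ∈ K) (hne : e.1 ≠ e.2)
    (p : MvPolynomial V ℝ) :
    pderiv e (aeval (ysum K) p) = aeval (ysum K) (pderiv e.1 p + pderiv e.2 p) := by
  induction p using MvPolynomial.induction_on with
  | C c => simp
  | add p q hp hq =>
    rw [map_add, map_add, hp, hq, ← map_add]
    simp only [map_add]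
    ring
  | mul_X p v hp =>
    rw [map_mul, aeval_X, pderiv_mul, hp, fi_pderiv_ysum he hne, pderiv_mul, pderiv_mul,
      fi_pderiv_X, fi_pderiv_X]
    simp only [map_add, map_mul, aeval_X]
    split_ifs <;> simp only [map_one, map_zero] <;> ring

theorem fi_coeff_zero_psi (K : Finset (V × V)) (p : MvPolynomial V ℝ) :
    coeff 0 (aeval (ysum K) p) = coeff 0 p := by
  rw [← constantCoeff_eq, ← constantCoeff_eq]
  induction p using MvPolynomial.induction_on with
  | C c => simp
  | add p q hp hq => simp only [map_add, hp, hq]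
  | mul_X p v _ => simp [ysum, map_sum]

theorem fi_expo_apply (F : Finset (V × V)) (e : V × V) : expo F e = if e ∈ F then 1 else 0 := by
  unfold expo
  rw [Finsupp.finsetSum_apply]
  simp only [Finsupp.single_apply]
  rw [sum_ite_eq']

theorem fi_B_pr {K : Finset (V × V)} (hK : ∀ a ∈ K, a.1 ≠ a.2) (F : Finset (V × V))
    (hF : F ⊆ K) (q : MvPolynomial V ℝ) :
    fi_B q (pr F) = coeff (expo F) (aeval (ysum K) q) := by
  induction F using Finset.induction_on generalizing q with
  | empty =>
    have h1 : (pr (∅ : Finset (V × V)) : MvPolynomial V ℝ) = monomial 0 1 := by simp [pr]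
    have h2 : expo (∅ : Finset (V × V)) = 0 := by simp [expo]
    rw [h1, h2, fi_B_monomial, fi_w_zero, fi_coeff_zero_psi]
    ring
  | insert e F he ih =>
    have heK : e ∈ K := hF (mem_insert_self _ _)
    have h1 : (pr (insert e F) : MvPolynomial V ℝ) = X e.1 * pr F + X e.2 * pr F := by
      unfold pr
      rw [prod_insert he, add_mul]
    have h2 : expo (insert e F) = expo F + Finsupp.single e 1 := by
      unfold expo
      rw [sum_insert he, add_comm]
    rw [h1, map_add, fi_B_X, fi_B_X, ← fi_B_add, ih (fun a ha => hF (mem_insert_of_mem ha)),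
      ← fi_pderiv_psi heK (hK e heK), coeff_pderiv, h2, fi_expo_apply, if_neg he]
    simp

theorem exists_coeff (K U : Finset (V × V)) (hK : ∀ a ∈ K, a.1 ≠ a.2) (hU : ∀ a ∈ U, a.1 ≠ a.2)
    (I : Finset (V × V) → Prop) (hI : ∀ F, I F → F ⊆ K)
    (h : conf U ∈ Submodule.span ℝ {g | ∃ F, I F ∧ g = pr F}) :
    ∃ F, I F ∧ coeff (expo F) (∏ a ∈ U, (ysum K a.1 - ysum K a.2)) ≠ 0 := by
  by_contra hc
  have hne : (conf U : MvPolynomial V ℝ) ≠ 0 := by
    unfold conf
    refine prod_ne_zero_iff.2 fun a ha => sub_ne_zero.2 fun e => hU a ha ?_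
    exact X_injective e
  have hpsi : aeval (ysum K) (conf U : MvPolynomial V ℝ) = ∏ a ∈ U, (ysum K a.1 - ysum K a.2) := by
    unfold conf
    rw [map_prod]
    simp only [map_sub, aeval_X]
  apply fi_B_self hne
  have hker : Submodule.span ℝ {g | ∃ F, I F ∧ g = pr F} ≤ LinearMap.ker (fi_B (conf U)) := by
    refine Submodule.span_le.2 ?_
    rintro g ⟨F, hF, rfl⟩
    have h1 : fi_B (conf U) (pr F) = 0 := by
      rw [fi_B_pr hK F (hI F hF), hpsi]
      by_contra h2
      exact hc ⟨F, hF, h2⟩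
    exact LinearMap.mem_ker.2 h1
  exact LinearMap.mem_ker.1 (hker h)

theorem fi_supp_ysum {K : Finset (V × V)} {v : V} {t : (V × V) →₀ ℕ}
    (h : coeff t (ysum K v) ≠ 0) : ∃ e : V × V, (e.1 = v ∨ e.2 = v) ∧ t = Finsupp.single e 1 := by
  unfold ysum at h
  rw [coeff_sum] at h
  obtain ⟨e, he, h1⟩ := exists_ne_zero_of_sum_ne_zero h
  rw [coeff_X] at h1
  refine ⟨e, (mem_filter.1 he).2, ?_⟩
  by_contra h2
  exact h1 (if_neg fun h3 => h2 h3.symm)

theorem fi_supp_diff {K : Finset (V × V)} {v w : V} {t : (V × V) →₀ ℕ}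
    (h : coeff t (ysum K v - ysum K w) ≠ 0) :
    ∃ e : V × V, ((e.1 = v ∨ e.2 = v) ∨ (e.1 = w ∨ e.2 = w)) ∧ t = Finsupp.single e 1 := by
  rw [coeff_sub] at h
  by_cases h1 : coeff t (ysum K v) = 0
  · have h2 : coeff t (ysum K w) ≠ 0 := fun h3 => h (by rw [h1, h3, sub_zero])
    obtain ⟨e, he, h4⟩ := fi_supp_ysum h2
    exact ⟨e, Or.inr he, h4⟩
  · obtain ⟨e, he, h4⟩ := fi_supp_ysum h1
    exact ⟨e, Or.inl he, h4⟩

theorem fi_inside (K : Finset (V × V)) (W : Finset V) (U : Finset (V × V)) (t : (V × V) →₀ ℕ)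
    (h : coeff t (∏ a ∈ U, (ysum K a.1 - ysum K a.2)) ≠ 0) :
    ∑ e ∈ univ.filter (fun a : V × V => a.1 ∈ W ∧ a.2 ∈ W), t e ≤
      (U.filter fun a => a.1 ∈ W ∨ a.2 ∈ W).card := by
  induction U using Finset.induction_on generalizing t with
  | empty =>
    rw [prod_empty, coeff_one] at h
    have h1 : t = 0 := by
      by_contra h2
      exact h (if_neg fun h3 => h2 h3.symm)
    simp [h1]
  | insert a U ha ih =>
    rw [prod_insert ha, coeff_mul] at h
    obtain ⟨x, hx, h1⟩ := exists_ne_zero_of_sum_ne_zero h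
    obtain ⟨e, he, h2⟩ := fi_supp_diff (left_ne_zero_of_mul h1)
    have h3 := ih x.2 (right_ne_zero_of_mul h1)
    rw [← mem_antidiagonal.1 hx, h2]
    simp only [Finsupp.coe_add, Pi.add_apply, sum_add_distrib, Finsupp.single_apply]
    rw [sum_ite_eq, filter_insert]
    by_cases h4 : e ∈ univ.filter (fun a : V × V => a.1 ∈ W ∧ a.2 ∈ W)
    · have h5 := (mem_filter.1 h4).2
      have h6 : a.1 ∈ W ∨ a.2 ∈ W := by
        rcases he with (h7 | h7) | (h7 | h7)
        · exact Or.inl (h7 ▸ h5.1)
        · exact Or.inl (h7 ▸ h5.2)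
        · exact Or.inr (h7 ▸ h5.1)
        · exact Or.inr (h7 ▸ h5.2)
      rw [if_pos h4, if_pos h6, card_insert_of_notMem (fun h8 => ha (mem_filter.1 h8).1)]
      omega
    · rw [if_neg h4]
      split_ifs with h6
      · rw [card_insert_of_notMem (fun h8 => ha (mem_filter.1 h8).1)]
        omega
      · omega

theorem coeff_inside (K U F : Finset (V × V))
    (h : coeff (expo F) (∏ a ∈ U, (ysum K a.1 - ysum K a.2)) ≠ 0) (W : Finset V) :
    (F.filter fun a => a.1 ∈ W ∧ a.2 ∈ W).card ≤ (U.filter fun a => a.1 ∈ W ∨ a.2 ∈ W).card := by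
  refine le_trans (le_of_eq ?_) (fi_inside K W U _ h)
  simp only [fi_expo_apply]
  rw [← card_filter, filter_comm]
  congr 1
  ext a
  simp

theorem fi_degree (K U : Finset (V × V)) (t : (V × V) →₀ ℕ)
    (h : coeff t (∏ a ∈ U, (ysum K a.1 - ysum K a.2)) ≠ 0) : t.degree = U.card := by
  induction U using Finset.induction_on generalizing t with
  | empty =>
    rw [prod_empty, coeff_one] at h
    have h1 : t = 0 := by
      by_contra h2
      exact h (if_neg fun h3 => h2 h3.symm)
    simp [h1]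
  | insert a U ha ih =>
    rw [prod_insert ha, coeff_mul] at h
    obtain ⟨x, hx, h1⟩ := exists_ne_zero_of_sum_ne_zero h
    obtain ⟨e, _, h2⟩ := fi_supp_diff (left_ne_zero_of_mul h1)
    have h3 := ih x.2 (right_ne_zero_of_mul h1)
    rw [← mem_antidiagonal.1 hx, h2, map_add, Finsupp.degree_single, h3, card_insert_of_notMem ha,
      add_comm]

theorem fi_top (K : Finset (V × V)) (c : V × V → ℝ) (U : Finset (V × V)) (t : (V × V) →₀ ℕ)
    (ht : U.card ≤ t.degree) :
    coeff t (∏ a ∈ U, (C (c a) + C 3 * (ysum K a.1 - ysum K a.2))) =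
      3 ^ U.card * coeff t (∏ a ∈ U, (ysum K a.1 - ysum K a.2)) := by
  induction U using Finset.induction_on generalizing t with
  | empty => simp
  | insert a U ha ih =>
    rw [card_insert_of_notMem ha] at ht ⊢
    have h0 : coeff t (∏ a ∈ U, (ysum K a.1 - ysum K a.2)) = 0 := by
      by_contra h1
      have := fi_degree K U t h1
      omega
    rw [prod_insert ha, prod_insert ha, add_mul, coeff_add, coeff_C_mul, ih t (by omega), h0,
      mul_assoc, coeff_C_mul, coeff_mul, coeff_mul, mul_sum, mul_sum]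
    simp only [mul_zero, zero_add]
    refine sum_congr rfl fun x hx => ?_
    by_cases h1 : coeff x.1 (ysum K a.1 - ysum K a.2) = 0
    · simp [h1]
    · obtain ⟨e, _, h2⟩ := fi_supp_diff h1
      have h3 : t.degree = 1 + x.2.degree := by
        rw [← mem_antidiagonal.1 hx, h2, map_add, Finsupp.degree_single]
      rw [ih x.2 (by omega)]
      ring

theorem coeff_cn (K U F : Finset (V × V)) (hF : F ⊆ K)
    (h : coeff (expo F) (∏ a ∈ U, (ysum K a.1 - ysum K a.2)) ≠ 0) (b : V → ℤ) :
    ∃ l : V × V → ℤ, (∀ a ∈ F, l a = 1 ∨ l a = -1) ∧ ∀ a ∈ U,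
      b a.1 + 3 * ∑ e ∈ inc F a.1, l e ≠ b a.2 + 3 * ∑ e ∈ inc F a.2, l e := by
  have hd := fi_degree K U _ h
  set Phi : MvPolynomial (V × V) ℝ :=
    ∏ a ∈ U, (C ((b a.1 : ℝ) - b a.2) + C 3 * (ysum K a.1 - ysum K a.2)) with hPhi
  have hc : coeff (expo F) Phi ≠ 0 := by
    rw [hPhi, fi_top K (fun a => (b a.1 : ℝ) - b a.2) U _ hd.ge]
    exact mul_ne_zero (by positivity) h
  have hdeg : Phi.totalDegree = (expo F).degree := by
    refine le_antisymm ?_ (le_totalDegree (mem_support_iff.2 hc))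
    refine Finset.sup_le fun t ht => ?_
    by_contra h1
    have h2 : U.card < t.degree := by
      rw [← hd]
      exact not_le.1 h1
    apply mem_support_iff.1 ht
    rw [hPhi, fi_top K (fun a => (b a.1 : ℝ) - b a.2) U _ h2.le]
    by_contra h3
    have := fi_degree K U t (right_ne_zero_of_mul h3)
    omega
  obtain ⟨x, hx, hev⟩ := combinatorial_nullstellensatz_exists_eval_nonzero Phi (expo F) hc hdeg
    (fun e => if e ∈ F then {1, -1} else {0}) (by
      intro e
      rw [fi_expo_apply]
      split_ifs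
      · rw [card_pair (by norm_num)]; omega
      · simp)
  have hx0 : ∀ e, e ∉ F → x e = 0 := fun e he => by simpa [he] using hx e
  have hx1 : ∀ e ∈ F, (((if x e = 1 then 1 else -1 : ℤ)) : ℝ) = x e := by
    intro e he
    have h1 : x e = 1 ∨ x e = -1 := by simpa [he] using hx e
    split_ifs with h2
    · simp [h2]
    · rcases h1 with h1 | h1
      · exact absurd h1 h2
      · simp [h1]
  have hy : ∀ v, eval x (ysum K v) = ((∑ e ∈ inc F v, (if x e = 1 then 1 else -1 : ℤ) : ℤ) : ℝ) := by
    intro v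
    unfold ysum
    rw [map_sum, Int.cast_sum]
    simp only [eval_X]
    have h1 : ∑ e ∈ inc F v, (((if x e = 1 then 1 else -1 : ℤ)) : ℝ) = ∑ e ∈ inc F v, x e :=
      sum_congr rfl fun e he => hx1 e (mem_filter.1 he).1
    have h2 : inc F v ⊆ inc K v := filter_subset_filter _ hF
    rw [h1]
    refine (sum_subset h2 fun e he he' => hx0 e fun h3 => he' ?_).symm
    exact mem_filter.2 ⟨h3, (mem_filter.1 he).2⟩
  refine ⟨fun e => if x e = 1 then 1 else -1, fun a _ => ?_, fun a ha heq => ?_⟩
  · by_cases h1 : x a = 1 <;> simp [h1]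
  · apply hev
    rw [hPhi, map_prod]
    refine prod_eq_zero ha ?_
    simp only [map_add, map_mul, map_sub, eval_C, hy]
    have h2 := congrArg (fun z : ℤ => (z : ℝ)) heq
    simp only [Int.cast_add, Int.cast_mul, Int.cast_ofNat] at h2
    linarith

end Pool.Agent.P.MP_0ad50f_co.D8
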