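import Pool.Agent.P.MP_0ad50f_co.D8.Red

/-! The first set of edges of colour 3. -/

namespace Pool.Agent.P.MP_0ad50f_co.D8

set_option linter.unusedSectionVars false

open Finset

variable {V : Type} [Fintype V] [DecidableEq V]

/-- one dart for every group, at most `cap t` of them ending at `t` -/
theorem in_hall (G : Finset V) (B : Finset (V × V)) (lab : V × V → V) (cap : V → ℕ)
    (h3 : ∀ g ∈ G, 3 ≤ (B.filter fun a => lab a = g).card)
    (hc : ∀ t, (B.filter fun a => a.2 = t).card ≤ 3 * cap t) :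
    ∃ k : V → V × V, (∀ g ∈ G, k g ∈ B ∧ lab (k g) = g) ∧
      ∀ t, (G.filter fun g => (k g).2 = t).card ≤ cap t := by
  classical
  let N : G → Finset (V × ℕ) := fun g =>
    (B.filter fun a => lab a = g.1).biUnion fun a => {a.2} ×ˢ range (cap a.2)
  have hall : ∀ s : Finset G, s.card ≤ (s.biUnion N).card := by
    intro s
    set U := B.filter fun a => lab a ∈ s.image Subtype.val with hU
    set T := U.image Prod.snd with hT
    have h1 : 3 * s.card ≤ U.card := by
      rw [card_eq_sum_card_fiberwise (s := U) (t := s.image Subtype.val) (f := lab)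
        (fun a ha => (mem_filter.1 ha).2), ← card_image_of_injective s Subtype.val_injective,
        mul_comm, ← smul_eq_mul, ← sum_const]
      refine sum_le_sum fun g hg => ?_
      obtain ⟨g', -, rfl⟩ := mem_image.1 (id hg)
      refine (h3 _ g'.2).trans (card_le_card fun a ha => ?_)
      rw [mem_filter] at ha
      exact mem_filter.2 ⟨mem_filter.2 ⟨ha.1, ha.2 ▸ hg⟩, ha.2⟩
    have h2 : U.card ≤ 3 * ∑ t ∈ T, cap t := by
      rw [card_eq_sum_card_fiberwise (s := U) (t := T) (f := Prod.snd)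
        (fun a ha => mem_image_of_mem _ ha), mul_sum]
      exact sum_le_sum fun t _ =>
        (card_le_card (filter_subset_filter _ (filter_subset _ _))).trans (hc t)
    have h4 : (T.biUnion fun t => ({t} : Finset V) ×ˢ range (cap t)).card = ∑ t ∈ T, cap t := by
      rw [card_biUnion]
      · simp
      · intro x _ y _ hxy
        refine disjoint_left.2 fun p h1 h2 => hxy ?_
        simp only [mem_product, mem_singleton] at h1 h2
        exact h1.1.symm.trans h2.1
    have h5 : (T.biUnion fun t => ({t} : Finset V) ×ˢ range (cap t)) ⊆ s.biUnion N := by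
      intro p hp
      obtain ⟨t, ht, hp⟩ := mem_biUnion.1 hp
      obtain ⟨a, ha, rfl⟩ := mem_image.1 ht
      obtain ⟨ha1, ha2⟩ := mem_filter.1 ha
      obtain ⟨g, hg, e⟩ := mem_image.1 ha2
      exact mem_biUnion.2 ⟨g, hg, mem_biUnion.2 ⟨a, mem_filter.2 ⟨ha1, e.symm⟩, hp⟩⟩
    have := card_le_card h5
    omega
  obtain ⟨f, hf, hfN⟩ := (all_card_le_biUnion_card_iff_exists_injective N).1 hall
  have hex : ∀ g : G, ∃ a, (a ∈ B ∧ lab a = g.1) ∧ (f g).1 = a.2 ∧ (f g).2 < cap a.2 := by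
    intro g
    obtain ⟨a, ha, hp⟩ := mem_biUnion.1 (hfN g)
    simp only [mem_product, mem_singleton, mem_range] at hp
    exact ⟨a, mem_filter.1 ha, hp⟩
  choose k hk using hex
  refine ⟨fun g => if h : g ∈ G then k ⟨g, h⟩ else (g, g), fun g hg => ?_, fun t => ?_⟩
  · simp only [dif_pos hg]
    exact (hk ⟨g, hg⟩).1
  · rw [← card_range (cap t)]
    refine card_le_card_of_injOn (fun g => if h : g ∈ G then (f ⟨g, h⟩).2 else 0) ?_ ?_
    · intro g hg
      obtain ⟨h1, h2⟩ := mem_filter.1 (mem_coe.1 hg)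
      simp only [dif_pos h1] at h2
      simp only [dif_pos h1, coe_range, Set.mem_Iio]
      exact h2 ▸ (hk ⟨g, h1⟩).2.2
    · intro g hg g' hg' e
      obtain ⟨h1, h2⟩ := mem_filter.1 (mem_coe.1 hg)
      obtain ⟨h1', h2'⟩ := mem_filter.1 (mem_coe.1 hg')
      simp only [dif_pos h1] at h2
      simp only [dif_pos h1'] at h2'
      simp only [dif_pos h1, dif_pos h1'] at e
      have : f ⟨g, h1⟩ = f ⟨g', h1'⟩ :=
        Prod.ext (by rw [(hk _).2.1, (hk _).2.1, h2, h2']) e
      exact congrArg Subtype.val (hf this)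

/-- parity vectors of subgraphs of `R` -/
def in_Par (R : Finset (V × V)) (z : V → ZMod 2) : Prop :=
  ∃ j : V × V → ZMod 2, (∀ a, j a.swap = j a) ∧ ∀ v, z v = ∑ a ∈ R.filter fun a => a.1 = v, j a

theorem in_zero (R : Finset (V × V)) : in_Par R 0 := ⟨0, fun _ => rfl, fun _ => by simp⟩

theorem in_add {R : Finset (V × V)} {z z' : V → ZMod 2} (h : in_Par R z) (h' : in_Par R z') :
    in_Par R (z + z') := by
  obtain ⟨j, h1, h2⟩ := h
  obtain ⟨j', h1', h2'⟩ := h'
  exact ⟨j + j', fun a => by simp [h1, h1'], fun v => by simp [h2, h2', sum_add_distrib]⟩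

theorem in_smul {R : Finset (V × V)} {z : V → ZMod 2} (c : ZMod 2) (h : in_Par R z) :
    in_Par R (c • z) := by
  obtain ⟨j, h1, h2⟩ := h
  exact ⟨c • j, fun a => by simp [h1], fun v => by simp [h2, mul_sum]⟩

theorem in_reach {R : Finset (V × V)} (hR : Sy R) {x y : V} (h : Reach R Prod.fst x y) :
    in_Par R (Pi.single x 1 + Pi.single y 1) := by
  have two : ∀ u : V → ZMod 2, u + u = 0 := fun u => funext fun v => CharTwo.add_self_eq_zero _
  induction h with
  | refl => rw [two]; exact in_zero R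
  | tail _ hs ih =>
    obtain ⟨b, hb, rfl, rfl⟩ := hs
    have h1 : in_Par R (Pi.single b.1 1 + Pi.single b.swap.1 1) := by
      refine ⟨fun a => (if a = b then 1 else 0) + (if a = b.swap then 1 else 0), fun a => ?_,
        fun v => ?_⟩
      · have e1 : a.swap = b ↔ a = b.swap := Prod.swap_eq_iff_eq_swap
        have e2 : a.swap = b.swap ↔ a = b := Prod.swap_inj
        simp only [e1, e2]
        exact add_comm _ _
      · rw [sum_add_distrib, sum_ite_eq', sum_ite_eq']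
        simp only [mem_filter, hb, hR b hb, true_and, Pi.add_apply, Pi.single_apply, eq_comm]
    have := in_add ih h1
    rwa [add_assoc, ← add_assoc (Pi.single b.1 1), two, zero_add] at this

theorem in_join {R : Finset (V × V)} (hR : Sy R) {z : V → ZMod 2} (h : in_Par R z) :
    ∃ J ⊆ R, Sy J ∧ ∀ v, (deg J v : ZMod 2) = z v := by
  obtain ⟨j, h1, h2⟩ := h
  refine ⟨R.filter fun a => j a = 1, filter_subset _ _, fun a ha => ?_, fun v => ?_⟩
  · rw [mem_filter] at ha ⊢
    exact ⟨hR a ha.1, (h1 a).trans ha.2⟩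
  · have : ∀ x : ZMod 2, (if x = 1 then 1 else 0) = x := by decide
    rw [h2, deg, dg, filter_comm, ← sum_boole]
    exact sum_congr rfl fun a _ => this _

theorem in_second {R : Finset (V × V)} {a : V × V} (h : 2 ≤ deg R a.1) :
    ∃ b ∈ R, b.1 = a.1 ∧ b.2 ≠ a.2 := by
  have h' : 1 < (R.filter fun b : V × V => b.1 = a.1).card := h
  obtain ⟨b, hb, hne⟩ := exists_mem_ne h' a
  rw [mem_filter] at hb
  exact ⟨b, hb.1, hb.2, fun e => hne (Prod.ext hb.2 e)⟩

theorem in_only {R : Finset (V × V)} {a b : V × V} (h : deg R a.1 ≤ 1) (ha : a ∈ R) (hb : b ∈ R)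
    (e : b.1 = a.1) : b = a :=
  card_le_one.1 h b (mem_filter.2 ⟨hb, e⟩) a (mem_filter.2 ⟨ha, rfl⟩)

theorem in_stat {E F : Finset (V × V)} {S : Finset V} (h : Setup E S F) {s : V} (hs : s ∈ S) :
    deg (out E S \ F) s + deg F s = deg (cut E S) s := by
  unfold deg
  rw [← dg_sdiff Prod.fst h.sub s]
  congr 1
  unfold dg
  congr 1
  ext a
  simp only [mem_filter, mem_sdiff, mem_out, mem_cut]
  constructor
  · rintro ⟨⟨⟨h1, h2, h3⟩, h4⟩, h5⟩
    exact ⟨⟨⟨h1, fun e => h3 (e.1 h2)⟩, h4⟩, h5⟩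
  · rintro ⟨⟨⟨h1, h2⟩, h4⟩, h5⟩
    have h6 : a.1 ∈ S := h5 ▸ hs
    exact ⟨⟨⟨h1, h6, fun e => h2 ⟨fun _ => e, fun _ => h6⟩⟩, h4⟩, h5⟩

theorem in_odd {n : ℕ} : (n : ZMod 2) = 1 ↔ n % 2 = 1 :=
  ZMod.natCast_eq_natCast_iff' n 1 2

theorem in_even {n : ℕ} : (n : ZMod 2) = 0 ↔ n % 2 = 0 :=
  ZMod.natCast_eq_natCast_iff' n 0 2

/-- every odd group has three static darts -/
theorem in_three {E F R : Finset (V × V)} {S : Finset V} (h : Setup E S F) (hRE : R ⊆ unc E S)
    (hR : Sy R) (hRS : ∀ a ∈ R, a.1 ∈ S)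
    (r2 : ∀ s ∈ S, deg E s % 2 = 1 → deg (cut E S) s ≤ deg (unc E S) s + 5 → 1 ≤ deg R s)
    (r3 : ∀ a ∈ R, deg E a.1 % 2 = 1 → deg (cut E S) a.1 ≤ deg (unc E S) a.1 + 3 →
      deg (cut E S) a.2 = deg (unc E S) a.2 + 2 → 2 ≤ deg R a.1 ∨ 2 ≤ deg R a.2)
    (rep : V → V) (hrep : ∀ x y, rep x = rep y ↔ Reach R Prod.fst x y) {g : V}
    (hg : ∑ x ∈ S.filter fun x => rep x = g, (deg E x : ZMod 2) = 1) :
    3 ≤ ((out E S \ F).filter fun a => rep a.1 = g).card := by
  have hsum : ∀ A : Finset V, (∀ x ∈ A, rep x = g) →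
      ∑ x ∈ A, deg (out E S \ F) x ≤ ((out E S \ F).filter fun a => rep a.1 = g).card := by
    intro A hA
    have : ∑ x ∈ A, deg (out E S \ F) x = ((out E S \ F).filter fun a => a.1 ∈ A).card := by
      rw [card_eq_sum_card_fiberwise (s := (out E S \ F).filter fun a => a.1 ∈ A) (t := A)
        (f := Prod.fst) (fun a ha => (mem_filter.1 ha).2)]
      refine sum_congr rfl fun x hx => ?_
      unfold deg dg
      congr 1
      ext a
      simp only [mem_filter]
      exact ⟨fun e => ⟨⟨e.1, e.2 ▸ hx⟩, e.2⟩, fun e => ⟨e.1.1, e.2⟩⟩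
    rw [this]
    exact card_le_card fun a ha =>
      mem_filter.2 ⟨(mem_filter.1 ha).1, hA _ (mem_filter.1 ha).2⟩
  have hst : ∀ s ∈ S, 1 ≤ deg (out E S \ F) s ∧
      (deg (cut E S) s - deg (unc E S) s) / 2 ≤ deg (out E S \ F) s := by
    intro s hs
    have := in_stat h hs
    have := h.f1 s
    have := h.f2 s (h.lt s hs)
    omega
  have hnl : ∀ a ∈ R, a.2 ≠ a.1 := fun a ha => h.sys.nl a (mem_unc.1 (hRE ha)).1
  have hS2 : ∀ a ∈ R, a.2 ∈ S := fun a ha => hRS _ (hR a ha)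
  have hr2 : ∀ a ∈ R, rep a.2 = rep a.1 := fun a ha =>
    ((hrep _ _).2 (Reach.dart Prod.fst ha)).symm
  have three : ∀ x y z, x ∈ S → y ∈ S → z ∈ S → x ≠ y → x ≠ z → y ≠ z → rep x = g → rep y = g →
      rep z = g → 3 ≤ ((out E S \ F).filter fun a => rep a.1 = g).card := by
    intro x y z hx hy hz hxy hxz hyz e1 e2 e3
    have := hsum {x, y, z} (by simp [e1, e2, e3])
    rw [sum_insert (by simp [hxy, hxz]), sum_pair hyz] at this
    have := (hst x hx).1
    have := (hst y hy).1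
    have := (hst z hz).1
    omega
  obtain ⟨x, hx, hx0⟩ := exists_ne_zero_of_sum_ne_zero (hg ▸ one_ne_zero)
  obtain ⟨hxS, hxg⟩ := mem_filter.1 hx
  have hxo : deg E x % 2 = 1 := by
    have := mt in_even.2 hx0
    omega
  have hdx := dg_cut_unc E S Prod.fst x
  by_cases h0 : deg R x = 0
  · have h1 := hsum {x} (by simp [hxg])
    rw [sum_singleton] at h1
    have h2 := (hst x hxS).2
    have h3 := r2 x hxS hxo
    omega
  obtain ⟨a, ha, rfl⟩ := dg_pos.1 (Nat.pos_of_ne_zero h0)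
  have hwg : rep a.2 = g := (hr2 a ha).trans hxg
  by_cases h1 : 2 ≤ deg R a.1
  · obtain ⟨b, hb, e1, e2⟩ := in_second h1
    exact three a.1 a.2 b.2 hxS (hS2 a ha) (hS2 b hb) (hnl a ha).symm (e1 ▸ (hnl b hb).symm)
      e2.symm hxg hwg ((hr2 b hb).trans (e1 ▸ hxg))
  by_cases h2 : 2 ≤ deg R a.2
  · obtain ⟨b, hb, e1, e2⟩ := in_second (a := a.swap) h2
    have e3 : b.1 = a.2 := e1
    exact three a.1 a.2 b.2 hxS (hS2 a ha) (hS2 b hb) (hnl a ha).symm e2.symm
      (e3 ▸ (hnl b hb).symm) hxg hwg ((hr2 b hb).trans (e3 ▸ hwg))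
  have hcl : ∀ y, Reach R Prod.fst a.1 y → y = a.1 ∨ y = a.2 := by
    intro y hy
    induction hy with
    | refl => exact Or.inl rfl
    | tail _ hs ih =>
      obtain ⟨b, hb, rfl, rfl⟩ := hs
      rcases ih with e | e
      · rw [in_only (by omega) ha hb e]
        exact Or.inr rfl
      · rw [in_only (a := a.swap) (by change deg R a.2 ≤ 1; omega) (hR a ha) hb e]
        exact Or.inl rfl
  have hpair : (S.filter fun x => rep x = g) = {a.1, a.2} := by
    ext y
    simp only [mem_filter, mem_insert, mem_singleton]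
    constructor
    · exact fun hy => hcl y ((hrep _ _).1 (hxg.trans hy.2.symm))
    · rintro (rfl | rfl)
      · exact ⟨hxS, hxg⟩
      · exact ⟨hS2 a ha, hwg⟩
  rw [hpair, sum_pair (hnl a ha).symm, in_odd.2 hxo, add_eq_left] at hg
  have hwe := in_even.1 hg
  have h3 := hsum {a.1, a.2} (by simp [hxg, hwg])
  rw [sum_pair (hnl a ha).symm] at h3
  have h4 := hst _ hxS
  have h5 := hst _ (hS2 a ha)
  have h6 := r3 a ha hxo
  have h7 := dg_cut_unc E S Prod.fst a.2
  have h8 := h.lt _ (hS2 a ha)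
  have h9 := h.lt _ hxS
  unfold deg at *
  omega

theorem init {E F : Finset (V × V)} {S : Finset V} (h : Setup E S F) :
    ∃ M, Val E S F M ∧ (∀ t ∉ S, deg M t + 1 ≤ deg E t / 2) ∧
      ∀ s ∈ S, deg (cut M S) s ≤ 1 ∧ (deg (cut M S) s = 0 → deg M s + 2 ≤ deg E s / 2) := by
  classical
  obtain ⟨R, hRE, hR, hRS, r1, r2, r3⟩ := red h
  let sR : Setoid V := ⟨Reach R Prod.fst, ⟨Reach.refl _ _, Reach.symm hR, Reach.trans⟩⟩
  let rep : V → V := fun v => (Quotient.mk sR v).out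
  have hrep : ∀ x y, rep x = rep y ↔ Reach R Prod.fst x y := fun x y =>
    Quotient.out_inj.trans Quotient.eq
  have hre : ∀ x, Reach R Prod.fst x (rep x) := fun x =>
    Reach.symm hR (Quotient.mk_out (s := sR) x)
  set G := univ.filter fun g => ∑ x ∈ S.filter fun x => rep x = g, (deg E x : ZMod 2) = 1 with hG
  obtain ⟨k, hk, hcap⟩ := in_hall G (out E S \ F) (fun a => rep a.1) (fun t => deg E t / 2 - 1)
    (fun g hg => in_three h hRE hR hRS r2 r3 rep hrep (mem_filter.1 hg).2) (fun t => by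
      have h1 : ((out E S \ F).filter fun a => a.2 = t).card ≤ deg E t := by
        refine card_le_card_of_injOn Prod.swap (fun a ha => ?_) Prod.swap_injective.injOn
        obtain ⟨h1, h2⟩ := mem_filter.1 (mem_coe.1 ha)
        exact mem_coe.2 (mem_filter.2 ⟨h.sys.sy a (mem_out.1 (mem_sdiff.1 h1).1).1, h2⟩)
      have := h.mind t
      omega)
  have hz : in_Par R (∑ x ∈ S, (deg E x : ZMod 2) • (Pi.single x 1 + Pi.single (rep x) 1) +
      ∑ g ∈ G, (Pi.single (k g).1 1 + Pi.single g 1)) := by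
    refine in_add (sum_induction _ (in_Par R) (fun _ _ => in_add) (in_zero R) fun x _ =>
      in_smul _ (in_reach hR (hre x))) (sum_induction _ (in_Par R) (fun _ _ => in_add)
      (in_zero R) fun g hg => ?_)
    have := in_reach hR (hre (k g).1)
    rwa [show rep (k g).1 = g from (hk g hg).2] at this
  obtain ⟨J, hJR, hJ, hJz⟩ := in_join hR hz
  have hko : ∀ g ∈ G, k g ∈ E ∧ (k g).1 ∈ S ∧ (k g).2 ∉ S := fun g hg =>
    mem_out.1 (mem_sdiff.1 (hk g hg).1).1
  have hinj : Set.InjOn k G := fun g hg g' hg' e => by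
    rw [← (hk g hg).2, ← (hk g' hg').2, e]
  have hpar : ∀ s ∈ S, (deg J s + (G.filter fun g => (k g).1 = s).card) % 2 = deg E s % 2 := by
    intro s hs
    rw [← ZMod.natCast_eq_natCast_iff', Nat.cast_add, hJz]
    have e1 : ∑ x ∈ S, (deg E x : ZMod 2) * (if s = x then 1 else 0) = deg E s := by
      simp [hs]
    have e2 : ∑ x ∈ S, (deg E x : ZMod 2) * (if s = rep x then 1 else 0) =
        ∑ g ∈ G, if s = g then 1 else 0 := by
      have : ∀ x : ZMod 2, x = if x = 1 then 1 else 0 := by decide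
      rw [sum_ite_eq]
      simp only [hG, mem_filter, mem_univ, true_and]
      rw [← this, sum_filter]
      exact sum_congr rfl fun x _ => by simp [eq_comm]
    have e3 : ∑ g ∈ G, (if s = (k g).1 then (1 : ZMod 2) else 0) =
        (G.filter fun g => (k g).1 = s).card := by
      rw [← sum_boole]
      exact sum_congr rfl fun x _ => by simp [eq_comm]
    simp only [Pi.add_apply, Finset.sum_apply, Pi.smul_apply, Pi.single_apply, smul_eq_mul,
      mul_add, sum_add_distrib]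
    rw [e1, e2, e3]
    have two : ∀ x y z : ZMod 2, x + y + (z + y) + z = x := by decide
    exact two _ _ _
  have hone : ∀ s, (G.filter fun g => (k g).1 = s).card ≤ 1 := fun s =>
    card_le_one.2 fun g hg g' hg' => by
      rw [mem_filter] at hg hg'
      rw [← (hk g hg.1).2, ← (hk g' hg'.1).2, hg.2, hg'.2]
  set M := J ∪ (G.image k ∪ (G.image k).image Prod.swap) with hM
  have hmem : ∀ a, a ∈ M ↔ a ∈ J ∨ (∃ g ∈ G, k g = a) ∨ ∃ g ∈ G, (k g).swap = a := by
    intro a
    simp only [hM, mem_union, image_image, mem_image, Function.comp_apply]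
  have hJS : ∀ a ∈ J, a.1 ∈ S ∧ a.2 ∈ S := fun a ha =>
    ⟨hRS a (hJR ha), hRS _ (hR a (hJR ha))⟩
  have hunc : unc M S = J := by
    ext a
    rw [mem_unc, hmem]
    constructor
    · rintro ⟨h1 | ⟨g, hg, rfl⟩ | ⟨g, hg, rfl⟩, h2⟩
      · exact h1
      · exact absurd (h2.1 (hko g hg).2.1) (hko g hg).2.2
      · exact absurd (h2.2 (hko g hg).2.1) (hko g hg).2.2
    · exact fun ha => ⟨Or.inl ha, iff_of_true (hJS a ha).1 (hJS a ha).2⟩
  have hcS : ∀ s ∈ S, deg (cut M S) s = (G.filter fun g => (k g).1 = s).card := by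
    intro s hs
    rw [← card_image_of_injOn (hinj.mono (coe_subset.2 (filter_subset _ _)))]
    unfold deg dg
    congr 1
    ext a
    simp only [mem_filter, mem_cut, hmem, mem_image]
    constructor
    · rintro ⟨⟨h1 | ⟨g, hg, rfl⟩ | ⟨g, hg, rfl⟩, h2⟩, h3⟩
      · exact absurd (iff_of_true (hJS a h1).1 (hJS a h1).2) h2
      · exact ⟨g, ⟨hg, h3⟩, rfl⟩
      · exact absurd (h3 ▸ hs : (k g).swap.1 ∈ S) (hko g hg).2.2
    · rintro ⟨g, ⟨hg, h3⟩, rfl⟩
      exact ⟨⟨Or.inr (Or.inl ⟨g, hg, rfl⟩), fun e => (hko g hg).2.2 (e.1 (hko g hg).2.1)⟩, h3⟩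
  have hoff : ∀ t ∉ S, deg M t + 1 ≤ deg E t / 2 := by
    intro t ht
    have h1 : deg M t ≤ (G.filter fun g => (k g).2 = t).card := by
      refine le_trans (card_le_card fun a ha => ?_)
        (card_image_le (f := fun g => (k g).swap))
      obtain ⟨h1, h3⟩ := mem_filter.1 ha
      rcases (hmem a).1 h1 with h1 | ⟨g, hg, rfl⟩ | ⟨g, hg, rfl⟩
      · exact absurd (h3 ▸ (hJS a h1).1) ht
      · exact absurd (h3 ▸ (hko g hg).2.1) ht
      · exact mem_image.2 ⟨g, mem_filter.2 ⟨hg, h3⟩, rfl⟩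
    have := hcap t
    have := h.mind t
    omega
  have hon : ∀ s ∈ S, deg M s % 2 = deg E s % 2 ∧ deg M s ≤ deg E s / 2 ∧ deg (cut M S) s ≤ 1 ∧
      (deg (cut M S) s = 0 → deg M s + 2 ≤ deg E s / 2) := by
    intro s hs
    have h1 := dg_cut_unc M S Prod.fst s
    rw [hunc] at h1
    have h2 := hcS s hs
    have h3 := hpar s hs
    have h4 := hone s
    have h5 := dg_mono Prod.fst hJR s
    have h6 := dg_mono Prod.fst hRE s
    have h7 := dg_cut_unc E S Prod.fst s
    have h8 := h.lt s hs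
    have h9 := h.mind s
    have h10 := r1 s hs
    unfold deg at *
    omega
  refine ⟨M, ⟨fun a ha => ?_, fun a ha => ?_, fun s hs => (hon s hs).1, fun v => ?_⟩, hoff,
    fun s hs => (hon s hs).2.2⟩
  · rcases (hmem a).1 ha with h1 | ⟨g, hg, rfl⟩ | ⟨g, hg, rfl⟩
    · have := mem_unc.1 (hRE (hJR h1))
      exact mem_sdiff.2 ⟨this.1, fun e => (mem_cut.1 (h.sub e)).2 this.2⟩
    · exact mem_sdiff.2 ⟨(hko g hg).1, (mem_sdiff.1 (hk g hg).1).2⟩
    · exact mem_sdiff.2 ⟨h.sys.sy _ (hko g hg).1, fun e =>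
        (mem_sdiff.1 (hk g hg).1).2 (by simpa using h.syF _ e)⟩
  · rw [hmem] at ha ⊢
    rcases ha with h1 | ⟨g, hg, rfl⟩ | ⟨g, hg, rfl⟩
    · exact Or.inl (hJ a h1)
    · exact Or.inr (Or.inr ⟨g, hg, rfl⟩)
    · exact Or.inr (Or.inl ⟨g, hg, rfl⟩)
  · by_cases hv : v ∈ S
    · exact (hon v hv).2.1
    · have := hoff v hv
      omega

end Pool.Agent.P.MP_0ad50f_co.D8
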