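import Mathlib

/-! A span lemma for products of linear forms over the independent sets of a matroid. -/

namespace Pool.Agent.P.MP_0ad50f_co.D8

set_option linter.unusedSectionVars false

open Finset MvPolynomial

variable {V ι : Type} [Fintype V] [DecidableEq V] [Fintype ι] [DecidableEq ι]

/-- the linear form with coefficients `b` -/
noncomputable def lin (b : V → ℝ) : MvPolynomial V ℝ := ∑ v, C (b v) * X v

/-- the polynomial `T ↦ f (x + T h)` -/
noncomputable def along (f : MvPolynomial V ℝ) (x h : V → ℝ) : Polynomial ℝ :=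
  aeval (fun v => Polynomial.C (x v) + Polynomial.C (h v) * Polynomial.X) f

/-- degree at most `k` in the direction `h` -/
def DegLe (f : MvPolynomial V ℝ) (h : V → ℝ) (k : ℤ) : Prop :=
  ∀ (x : V → ℝ) (j : ℕ), k < j → (along f x h).coeff j = 0

/-- rank function of a matroid -/
structure IsRank (r : Finset ι → ℤ) : Prop where
  empty : r ∅ = 0
  mono : ∀ A B, A ⊆ B → r A ≤ r B
  unit : ∀ A e, r (insert e A) ≤ r A + 1
  sub : ∀ A B, r (A ∪ B) + r (A ∩ B) ≤ r A + r B

open Classical in
/-- the forms that do not vanish at `h` -/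
noncomputable def act (β : ι → V → ℝ) (h : V → ℝ) : Finset ι :=
  univ.filter fun e => ∑ v, β e v * h v ≠ 0

/-- value of a linear form -/
def mz_dot (b x : V → ℝ) : ℝ := ∑ v, b v * x v

theorem mz_mem_act {β : ι → V → ℝ} {h : V → ℝ} {e : ι} : e ∈ act β h ↔ mz_dot (β e) h ≠ 0 := by
  simp [act, mz_dot]

theorem mz_along_lin (b x h : V → ℝ) :
    along (lin b) x h = Polynomial.C (mz_dot b x) + Polynomial.C (mz_dot b h) * Polynomial.X := by
  simp only [along, lin, mz_dot, map_sum, map_mul, aeval_C, aeval_X, Polynomial.algebraMap_eq,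
    sum_mul, ← sum_add_distrib]
  exact sum_congr rfl fun v _ => by ring

theorem mz_along_mul (f g : MvPolynomial V ℝ) (x h : V → ℝ) :
    along (f * g) x h = along f x h * along g x h := by simp [along]

theorem mz_eval_along (f : MvPolynomial V ℝ) (x h : V → ℝ) (t : ℝ) :
    (along f x h).eval t = eval (fun v => x v + h v * t) f := by
  induction f using MvPolynomial.induction_on with
  | C a => simp [along]
  | add p q hp hq => simp only [along, map_add, Polynomial.eval_add] at *; rw [hp, hq]
  | mul_X p v hp =>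
    simp only [along, map_mul, Polynomial.eval_mul, aeval_X, eval_X] at *
    rw [hp]; simp

theorem mz_eval_lin (b x : V → ℝ) : eval x (lin b) = mz_dot b x := by simp [lin, mz_dot]

theorem mz_cont (f : MvPolynomial V ℝ) (x x' h h' : V → ℝ) (j : ℕ) :
    Continuous fun t : ℝ => (along f (fun v => x v + t * x' v) (fun v => h v + t * h' v)).coeff j := by
  induction f using MvPolynomial.induction_on generalizing j with
  | C a => simp only [along, aeval_C]; exact continuous_const
  | add p q hp hq =>
    simp only [along, map_add, Polynomial.coeff_add] at *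
    exact (hp j).add (hq j)
  | mul_X p v hp =>
    simp only [along, map_mul, aeval_X] at *
    cases j with
    | zero =>
      simp only [mul_add, ← mul_assoc, Polynomial.coeff_add, Polynomial.coeff_mul_C,
        Polynomial.coeff_mul_X_zero, add_zero]
      have h0 := hp 0
      fun_prop
    | succ j =>
      simp only [mul_add, ← mul_assoc, Polynomial.coeff_add, Polynomial.coeff_mul_C,
        Polynomial.coeff_mul_X]
      have h0 := hp j
      have h1 := hp (j + 1)
      fun_prop

theorem mz_limit (f : MvPolynomial V ℝ) (x x' h h' : V → ℝ) (j : ℕ)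
    (H : ∀ t : ℝ, t ≠ 0 →
      (along f (fun v => x v + t * x' v) (fun v => h v + t * h' v)).coeff j = 0) :
    (along f x h).coeff j = 0 := by
  have := Continuous.ext_on (dense_compl_singleton (0 : ℝ)) (mz_cont f x x' h h' j)
    (continuous_const (y := (0 : ℝ))) (fun t ht => H t (by simpa using ht))
  simpa using congrFun this 0

theorem mz_dot_add (b x x' : V → ℝ) (t : ℝ) :
    mz_dot b (fun v => x v + t * x' v) = mz_dot b x + t * mz_dot b x' := by
  simp only [mz_dot, mul_sum, ← sum_add_distrib]
  exact sum_congr rfl fun v _ => by ring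

/-- division by a linear form that does not vanish at the direction -/
theorem mz_div1 (L : V → ℝ) (f : MvPolynomial V ℝ) (h : V → ℝ) (k : ℤ) (hL : mz_dot L h ≠ 0)
    (H : DegLe (lin L * f) h k) : DegLe f h (k - 1) := by
  intro x j hj
  by_contra hne
  have hp : along f x h ≠ 0 := fun e => hne (by simp [e])
  have hd : j ≤ (along f x h).natDegree := Polynomial.le_natDegree_of_ne_zero hne
  have := H x ((along f x h).natDegree + 1) (by push_cast; omega)
  rw [mz_along_mul, mz_along_lin, add_mul, mul_assoc, Polynomial.coeff_add, Polynomial.coeff_C_mul,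
    Polynomial.coeff_C_mul, Polynomial.coeff_X_mul, Polynomial.coeff_natDegree_succ_eq_zero,
    mul_zero, zero_add] at this
  rcases mul_eq_zero.1 this with h1 | h1
  · exact hL h1
  · exact hp (Polynomial.leadingCoeff_eq_zero.1 h1)

/-- division by a linear form that vanishes at the direction -/
theorem mz_div0 (L : V → ℝ) (f : MvPolynomial V ℝ) (h x' : V → ℝ) (k : ℤ) (hL : mz_dot L h = 0)
    (hx : mz_dot L x' ≠ 0) (H : DegLe (lin L * f) h k) : DegLe f h k := by
  have key : ∀ (x : V → ℝ) (j : ℕ), k < j → mz_dot L x ≠ 0 → (along f x h).coeff j = 0 := by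
    intro x j hj hx
    have := H x j hj
    rw [mz_along_mul, mz_along_lin, hL] at this
    simpa [hx] using this
  intro x j hj
  by_cases h0 : mz_dot L x = 0
  · refine mz_limit f x x' h (fun _ => 0) j fun t ht => ?_
    simp only [mul_zero, add_zero]
    refine key _ j hj ?_
    rw [mz_dot_add, h0, zero_add]
    exact mul_ne_zero ht hx
  · exact key x j hj h0

theorem DegLe.mz_mono {f : MvPolynomial V ℝ} {h : V → ℝ} {k k' : ℤ} (H : DegLe f h k)
    (hk : k ≤ k') : DegLe f h k' := fun x j hj => H x j (by omega)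

theorem mz_deg_prod (β : ι → V → ℝ) (F : Finset ι) (h : V → ℝ) :
    DegLe (∏ e ∈ F, lin (β e)) h (F ∩ act β h).card := by
  intro x j hj
  apply Polynomial.coeff_eq_zero_of_natDegree_lt
  have h1 : along (∏ e ∈ F, lin (β e)) x h = ∏ e ∈ F, along (lin (β e)) x h := by simp [along]
  rw [h1]
  refine lt_of_le_of_lt (Polynomial.natDegree_prod_le _ _) (lt_of_le_of_lt ?_ (by exact_mod_cast hj))
  rw [← filter_mem_eq_inter, card_filter]
  refine sum_le_sum fun e _ => ?_
  rw [mz_along_lin]
  split_ifs with he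
  · compute_degree
  · rw [mz_mem_act, not_not] at he
    simp [he]

section rank
variable {r : Finset ι → ℤ}

theorem IsRank.mz_nonneg (hr : IsRank r) (A : Finset ι) : 0 ≤ r A :=
  hr.empty ▸ hr.mono _ _ (empty_subset A)

theorem IsRank.mz_union_le (hr : IsRank r) (A B : Finset ι) : r (A ∪ B) ≤ r A + B.card := by
  induction B using Finset.induction_on with
  | empty => simp
  | insert e B he ih =>
    rw [union_insert, card_insert_of_notMem he]
    have := hr.unit (A ∪ B) e
    push_cast; omega

theorem IsRank.mz_le_card (hr : IsRank r) (A : Finset ι) : r A ≤ A.card := by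
  have := hr.mz_union_le ∅ A
  rwa [hr.empty, empty_union, zero_add] at this

theorem IsRank.mz_indep (hr : IsRank r) {F : Finset ι} (hF : r F = F.card) (A : Finset ι) :
    ((F ∩ A).card : ℤ) ≤ r A := by
  have h1 := hr.mz_union_le (F ∩ A) (F \ A)
  have h2 : F ∩ A ∪ F \ A = F := by ext; simp; tauto
  have h3 := card_sdiff_add_card_inter F A
  have h4 := hr.mono (F ∩ A) A inter_subset_right
  rw [h2] at h1
  omega

theorem IsRank.mz_loops (hr : IsRank r) (A B : Finset ι) (hB : ∀ e ∈ B, r {e} = 0) :
    r (A ∪ B) ≤ r A := by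
  induction B using Finset.induction_on with
  | empty => simp
  | insert e B he ih =>
    have h1 := hr.sub (A ∪ B) {e}
    have h2 := hr.mz_nonneg ((A ∪ B) ∩ {e})
    have h3 := hB e (mem_insert_self _ _)
    have h4 := ih fun x hx => hB x (mem_insert_of_mem hx)
    have h5 : A ∪ insert e B = A ∪ B ∪ {e} := by ext; simp
    rw [h5]; omega

theorem IsRank.mz_le_of (hr : IsRank r) {A B : Finset ι} (h : ∀ e ∈ B, r {e} ≠ 0 → e ∈ A) :
    r B ≤ r A := by
  refine le_trans (hr.mono _ _ ?_) (hr.mz_loops A (B.filter fun e => r {e} = 0) (by simp))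
  intro e he
  by_cases h0 : r {e} = 0
  · simp [he, h0]
  · simp [h e he h0]

theorem IsRank.mz_one (hr : IsRank r) {e : ι} (he : r {e} ≠ 0) : r {e} = 1 := by
  have h1 := hr.mz_le_card {e}
  have h2 := hr.mz_nonneg {e}
  simp at h1; omega

theorem IsRank.mz_contract (hr : IsRank r) {e : ι} (he : r {e} ≠ 0) :
    IsRank fun A => r (insert e A) - 1 where
  empty := by simpa [sub_eq_zero] using hr.mz_one he
  mono A B h := by have := hr.mono _ _ (insert_subset_insert e h); omega
  unit A x := by have := hr.unit (insert e A) x; rw [insert_comm] at this; omega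
  sub A B := by
    have := hr.sub (insert e A) (insert e B)
    rw [← insert_union_distrib, ← insert_inter_distrib] at this
    omega

end rank

/-- the span of the products over independent sets -/
noncomputable def mz_sp (β : ι → V → ℝ) (r : Finset ι → ℤ) : Submodule ℝ (MvPolynomial V ℝ) :=
  Submodule.span ℝ {g | ∃ F : Finset ι, r F = F.card ∧ g = ∏ e ∈ F, lin (β e)}

theorem mz_sp_deg {β : ι → V → ℝ} {r : Finset ι → ℤ} (hr : IsRank r) {g : MvPolynomial V ℝ}
    (hg : g ∈ mz_sp β r) (h : V → ℝ) : DegLe g h (r (act β h)) := by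
  induction hg using Submodule.span_induction with
  | mem g hg =>
    obtain ⟨F, hF, rfl⟩ := hg
    exact (mz_deg_prod β F h).mz_mono (hr.mz_indep hF _)
  | zero => intro x j _; simp [along]
  | add p q _ _ hp hq =>
    intro x j hj
    have := hp x j hj
    have := hq x j hj
    simp_all [along]
  | smul a p _ hp =>
    intro x j hj
    have := hp x j hj
    simp_all [along]

theorem mz_mul_mem {β : ι → V → ℝ} {r : Finset ι → ℤ} (hr : IsRank r) {e : ι}
    {g : MvPolynomial V ℝ} (hg : g ∈ mz_sp β fun A => r (insert e A) - 1) :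
    lin (β e) * g ∈ mz_sp β r := by
  induction hg using Submodule.span_induction with
  | mem g hg =>
    obtain ⟨F, hF, rfl⟩ := hg
    have hF : r (insert e F) - 1 = F.card := hF
    have he : e ∉ F := fun he => by
      rw [insert_eq_of_mem he] at hF
      have := hr.mz_le_card F
      omega
    refine Submodule.subset_span ⟨insert e F, ?_, by rw [prod_insert he]⟩
    rw [card_insert_of_notMem he]; push_cast; omega
  | zero => simp
  | add p q _ _ hp hq => rw [mul_add]; exact add_mem hp hq
  | smul a p _ hp => rw [mul_smul_comm]; exact Submodule.smul_mem _ a hp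

theorem mz_base {β : ι → V → ℝ} {r : Finset ι → ℤ} (hr : IsRank r)
    (h0 : ∀ e, r {e} ≠ 0 → ∀ v, β e v = 0) {f : MvPolynomial V ℝ}
    (hf : ∀ h, DegLe f h (r (act β h))) : f ∈ mz_sp β r := by
  have h1 : f = (eval (fun _ => 0) f) • (1 : MvPolynomial V ℝ) := by
    apply MvPolynomial.funext
    intro x
    have h2 : r (act β x) ≤ r ∅ := hr.mz_le_of fun e he hne => by
      rw [mz_mem_act] at he
      exact absurd (by simp [mz_dot, h0 e hne]) he
    rw [hr.empty] at h2
    have h3 : along f (fun _ => 0) x = Polynomial.C ((along f (fun _ => 0) x).coeff 0) := by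
      apply Polynomial.eq_C_of_natDegree_le_zero
      rw [Polynomial.natDegree_le_iff_coeff_eq_zero]
      intro j hj
      exact hf x _ j (by omega)
    have h4 := mz_eval_along f (fun _ => 0) x 1
    have h5 := mz_eval_along f (fun _ => 0) x 0
    rw [h3, Polynomial.eval_C] at h4 h5
    simp only [mul_one, zero_add, mul_zero, add_zero] at h4 h5
    rw [smul_eval, map_one, mul_one, ← h5, h4]
  rw [h1]
  exact Submodule.smul_mem _ _ (Submodule.subset_span ⟨∅, by simp [hr.empty], by simp⟩)

theorem mz_generic {κ : Type} [Fintype κ] (w : κ → ι → ℝ) :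
    ∃ c : ι → ℝ, ∀ k, (∃ e, w k e ≠ 0) → mz_dot (w k) c ≠ 0 := by
  classical
  have h1 : (∏ k ∈ univ.filter (fun k => ∃ e, w k e ≠ 0), lin (w k)) ≠ 0 := by
    rw [prod_ne_zero_iff]
    intro k hk h0
    obtain ⟨e, he⟩ := (mem_filter.1 hk).2
    have := mz_eval_lin (w k) (Pi.single e 1)
    rw [h0, map_zero] at this
    apply he
    simpa [mz_dot, Pi.single_apply] using this.symm
  by_contra hc
  push Not at hc
  apply h1
  apply MvPolynomial.funext
  intro c
  obtain ⟨k, hk, h0⟩ := hc c
  rw [map_prod, map_zero]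
  exact prod_eq_zero (mem_filter.2 ⟨mem_univ k, hk⟩) (by rw [mz_eval_lin, h0])

/-- substitution that projects onto the kernel of `L` along the coordinate `u` -/
noncomputable def mz_sub (L : V → ℝ) (u : V) : MvPolynomial V ℝ →ₐ[ℝ] MvPolynomial V ℝ :=
  aeval fun v => X v - if v = u then C (L u)⁻¹ * lin L else 0

/-- the projection -/
noncomputable def mz_pi (L : V → ℝ) (u : V) (x : V → ℝ) : V → ℝ :=
  fun v => x v - if v = u then (L u)⁻¹ * mz_dot L x else 0

theorem mz_along_sub (L : V → ℝ) (u : V) (f : MvPolynomial V ℝ) (x h : V → ℝ) :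
    along (mz_sub L u f) x h = along f (mz_pi L u x) (mz_pi L u h) := by
  induction f using MvPolynomial.induction_on with
  | C a => simp [along, mz_sub]
  | add p q hp hq => simp only [along, map_add] at *; rw [hp, hq]
  | mul_X p v hp =>
    rw [map_mul, mz_along_mul, mz_along_mul, hp]
    congr 1
    have h1 := mz_along_lin L x h
    simp only [along] at h1
    by_cases hv : v = u
    · simp only [mz_sub, mz_pi, along, aeval_X, hv, if_true, map_sub, map_mul, h1, aeval_C,
        Polynomial.algebraMap_eq]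
      ring
    · simp [mz_sub, mz_pi, along, hv]

theorem mz_dvd_sub (L : V → ℝ) (u : V) (f : MvPolynomial V ℝ) : lin L ∣ f - mz_sub L u f := by
  induction f using MvPolynomial.induction_on with
  | C a => simp [mz_sub]
  | add p q hp hq =>
    have := dvd_add hp hq
    rwa [show p - mz_sub L u p + (q - mz_sub L u q) = p + q - mz_sub L u (p + q) by
      rw [map_add]; ring] at this
  | mul_X p v hp =>
    have h1 : lin L ∣ X v - mz_sub L u (X v) := by
      by_cases hv : v = u <;> simp [mz_sub, hv]
    have := dvd_add (hp.mul_right (X v)) (h1.mul_left (mz_sub L u p))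
    rwa [show (p - mz_sub L u p) * X v + mz_sub L u p * (X v - mz_sub L u (X v)) =
      p * X v - mz_sub L u (p * X v) by rw [map_mul]; ring] at this

theorem mz_sub_lin (L : V → ℝ) (u : V) (b : V → ℝ) :
    mz_sub L u (lin b) = lin fun v => b v - b u * (L u)⁻¹ * L v := by
  apply MvPolynomial.funext
  intro x
  have h1 := mz_eval_along (mz_sub L u (lin b)) x (fun _ => 0) 0
  simp only [mul_zero, add_zero] at h1
  rw [← h1, mz_along_sub, mz_along_lin, mz_eval_lin]
  simp only [mz_dot, mz_pi, Polynomial.eval_add, Polynomial.eval_C, Polynomial.eval_mul,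
    Polynomial.eval_X, mul_zero, add_zero, mul_sub, sub_mul, sum_sub_distrib, mul_ite, mul_zero,
    sum_ite_eq', mem_univ, if_true, mul_sum, mul_assoc]

theorem mz_dot_pi (L : V → ℝ) (u : V) (b h : V → ℝ) :
    mz_dot b (mz_pi L u h) = mz_dot (fun v => b v - b u * (L u)⁻¹ * L v) h := by
  simp only [mz_dot, mz_pi, mul_sub, sub_mul, sum_sub_distrib, mul_ite, mul_zero,
    sum_ite_eq', mem_univ, if_true, mul_sum, mul_assoc]

theorem mz_lift {β : ι → V → ℝ} {r : Finset ι → ℤ} (L : V → ℝ) (u : V) {g : MvPolynomial V ℝ}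
    (hg : g ∈ mz_sp (fun e v => β e v - β e u * (L u)⁻¹ * L v) r) :
    ∃ g' ∈ mz_sp β r, mz_sub L u g' = g := by
  induction hg using Submodule.span_induction with
  | mem g hg =>
    obtain ⟨F, hF, rfl⟩ := hg
    exact ⟨_, Submodule.subset_span ⟨F, hF, rfl⟩, by simp only [map_prod, mz_sub_lin]⟩
  | zero => exact ⟨0, zero_mem _, map_zero _⟩
  | add p q _ _ hp hq =>
    obtain ⟨p', hp', rfl⟩ := hp
    obtain ⟨q', hq', rfl⟩ := hq
    exact ⟨p' + q', add_mem hp' hq', map_add _ _ _⟩
  | smul a p _ hp =>
    obtain ⟨p', hp', rfl⟩ := hp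
    exact ⟨a • p', Submodule.smul_mem _ a hp', map_smul _ _ _⟩

open Classical in
/-- the variables that occur in the forms that are not loops -/
noncomputable def mz_supp (β : ι → V → ℝ) (r : Finset ι → ℤ) : Finset V :=
  univ.filter fun v => ∃ e, r {e} ≠ 0 ∧ β e v ≠ 0

theorem mz_step {β : ι → V → ℝ} {r : Finset ι → ℤ} (hr : IsRank r)
    (hne : ∃ e v, r {e} ≠ 0 ∧ β e v ≠ 0)
    (ih1 : ∀ e, r {e} ≠ 0 → ∀ f, (∀ h, DegLe f h (r (insert e (act β h)) - 1)) →
      f ∈ mz_sp β fun A => r (insert e A) - 1)
    (ih2 : ∀ β' : ι → V → ℝ, mz_supp β' r ⊂ mz_supp β r → ∀ f, (∀ h, DegLe f h (r (act β' h))) →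
      f ∈ mz_sp β' r)
    {f : MvPolynomial V ℝ} (hf : ∀ h, DegLe f h (r (act β h))) : f ∈ mz_sp β r := by
  classical
  have hch : ∀ A : Finset ι, ∃ h : V → ℝ, (∀ e, r {e} ≠ 0 → mz_dot (β e) h ≠ 0 → e ∈ A) ∧
      ((∃ h' : V → ℝ, (∀ e, r {e} ≠ 0 → mz_dot (β e) h' ≠ 0 → e ∈ A) ∧
        ∃ e, r {e} ≠ 0 ∧ mz_dot (β e) h' ≠ 0) → ∃ e, r {e} ≠ 0 ∧ mz_dot (β e) h ≠ 0) := by
    intro A
    by_cases hA : ∃ h' : V → ℝ, (∀ e, r {e} ≠ 0 → mz_dot (β e) h' ≠ 0 → e ∈ A) ∧
        ∃ e, r {e} ≠ 0 ∧ mz_dot (β e) h' ≠ 0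
    · obtain ⟨h', h1, h2⟩ := hA
      exact ⟨h', h1, fun _ => h2⟩
    · exact ⟨fun _ => 0, fun e _ h => absurd (by simp [mz_dot]) h, fun h => absurd h hA⟩
  choose hh hh1 hh2 using hch
  obtain ⟨c, hc⟩ := mz_generic (fun (A : Finset ι) e => if r {e} ≠ 0 then mz_dot (β e) (hh A) else 0)
  set L : V → ℝ := fun v => ∑ e ∈ univ.filter (fun e => r {e} ≠ 0), c e * β e v with hL
  have hdot : ∀ h, mz_dot L h = ∑ e ∈ univ.filter (fun e => r {e} ≠ 0), c e * mz_dot (β e) h := by
    intro h
    simp only [mz_dot, hL, sum_mul, mul_sum, mul_assoc]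
    exact sum_comm
  have hgen : ∀ h : V → ℝ, (∃ e, r {e} ≠ 0 ∧ mz_dot (β e) h ≠ 0) →
      mz_dot L (hh (act β h)) ≠ 0 := by
    intro h he
    obtain ⟨e, he1, he2⟩ := hh2 (act β h) ⟨h, fun e _ h2 => mz_mem_act.2 h2, he⟩
    have := hc (act β h) ⟨e, by simpa [he1] using he2⟩
    rw [hdot, sum_filter]
    intro h0
    apply this
    refine Eq.trans ?_ h0
    exact sum_congr rfl fun e _ => by beta_reduce; split_ifs <;> ring
  obtain ⟨x', hx'⟩ : ∃ x', mz_dot L x' ≠ 0 := by
    obtain ⟨e, v, he, hv⟩ := hne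
    exact ⟨_, hgen (Pi.single v 1) ⟨e, he, by simpa [mz_dot, Pi.single_apply] using hv⟩⟩
  obtain ⟨u, hu⟩ : ∃ u, L u ≠ 0 := by
    by_contra h0
    push Not at h0
    exact hx' (by simp [mz_dot, h0])
  have hLs : ∀ v, L v ≠ 0 → v ∈ mz_supp β r := by
    intro v hv
    obtain ⟨e, he, h2⟩ := exists_ne_zero_of_sum_ne_zero hv
    exact mem_filter.2 ⟨mem_univ _, e, (mem_filter.1 he).2, right_ne_zero_of_mul h2⟩
  have hg : mz_sub L u f ∈ mz_sp (fun e v => β e v - β e u * (L u)⁻¹ * L v) r := by
    apply ih2
    · refine ⟨fun v hv => ?_, fun hs => ?_⟩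
      · obtain ⟨e, he, h2⟩ := (mem_filter.1 hv).2
        by_cases h3 : L v = 0
        · exact mem_filter.2 ⟨mem_univ _, e, he, by simpa [h3] using h2⟩
        · exact hLs v h3
      · obtain ⟨e, _, h2⟩ := (mem_filter.1 (hs (hLs u hu))).2
        apply h2
        field_simp
        ring
    · intro h x j hj
      rw [mz_along_sub]
      refine hf _ _ j ?_
      have : act β (mz_pi L u h) = act (fun e v => β e v - β e u * (L u)⁻¹ * L v) h := by
        ext e; rw [mz_mem_act, mz_mem_act, mz_dot_pi]
      rwa [this]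
  obtain ⟨g, hg1, hg2⟩ := mz_lift L u hg
  obtain ⟨f', hf'⟩ : lin L ∣ f - g := by
    have := mz_dvd_sub L u (f - g)
    rwa [map_sub, hg2, sub_self, sub_zero] at this
  have hd : ∀ h, DegLe (lin L * f') h (r (act β h)) := by
    intro h x j hj
    have h1 := hf h x j hj
    have h2 := mz_sp_deg hr hg1 h x j hj
    rw [← hf']
    simp only [along, map_sub, Polynomial.coeff_sub] at h1 h2 ⊢
    rw [h1, h2, sub_zero]
  have hd' : ∀ e, r {e} ≠ 0 → ∀ h, DegLe f' h (r (insert e (act β h)) - 1) := by
    intro e he h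
    have hm := hr.mono _ _ (subset_insert e (act β h))
    by_cases h1 : mz_dot L h = 0
    · by_cases h2 : ∃ e, r {e} ≠ 0 ∧ mz_dot (β e) h ≠ 0
      · intro x j hj
        refine mz_limit f' x (fun _ => 0) h (hh (act β h)) j fun t ht => ?_
        refine mz_div1 L f' _ _ ?_ (hd _) _ j ?_
        · rw [mz_dot_add, h1, zero_add]
          exact mul_ne_zero ht (hgen h h2)
        · have : r (act β fun v => h v + t * hh (act β h) v) ≤ r (act β h) :=
            hr.mz_le_of fun a ha ha0 => by
              by_contra hn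
              rw [mz_mem_act, mz_dot_add] at ha
              apply ha
              have h3 : mz_dot (β a) (hh (act β h)) = 0 := by
                by_contra h4
                exact hn (hh1 _ a ha0 h4)
              rw [mz_mem_act, not_not] at hn
              rw [hn, h3]; ring
          omega
      · refine (mz_div0 L f' h x' _ h1 hx' (hd h)).mz_mono ?_
        have h3 : r (act β h) ≤ r ∅ := hr.mz_le_of fun a ha ha0 =>
          absurd ⟨a, ha0, mz_mem_act.1 ha⟩ h2
        have h4 := hr.mono {e} (insert e (act β h)) (by simp)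
        have h5 := hr.mz_one he
        have h6 := hr.empty
        omega
    · exact (mz_div1 L f' h _ h1 (hd h)).mz_mono (by omega)
  have hlin : lin L = ∑ e ∈ univ.filter (fun e => r {e} ≠ 0), c e • lin (β e) := by
    apply MvPolynomial.funext
    intro x
    simp only [mz_eval_lin, hdot, map_sum, smul_eval]
  have hfin : f = g + lin L * f' := by rw [← hf']; ring
  rw [hfin, hlin, sum_mul]
  refine add_mem hg1 (Submodule.sum_mem _ fun e he => ?_)
  rw [smul_mul_assoc]
  exact Submodule.smul_mem _ _ (mz_mul_mem hr (ih1 e (mem_filter.1 he).2 f' (hd' e (mem_filter.1 he).2)))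

theorem mz_ind (n : ℕ) : ∀ (r : Finset ι → ℤ), IsRank r → r univ ≤ n → ∀ (k : ℕ) (β : ι → V → ℝ),
    (mz_supp β r).card ≤ k → ∀ f : MvPolynomial V ℝ, (∀ h, DegLe f h (r (act β h))) →
      f ∈ mz_sp β r := by
  induction n with
  | zero =>
    intro r hr hn k β _ f hf
    refine mz_base hr (fun e he => ?_) hf
    have h1 := hr.mono {e} univ (subset_univ _)
    have h2 := hr.mz_one he
    omega
  | succ n ihn =>
    intro r hr hn k
    induction k with
    | zero =>
      intro β hk f hf
      refine mz_base hr (fun e he v => ?_) hf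
      by_contra hv
      have : v ∈ mz_supp β r := by
        unfold mz_supp
        exact mem_filter.2 ⟨mem_univ _, e, he, hv⟩
      rw [Nat.le_zero, card_eq_zero] at hk
      simp [hk] at this
    | succ k ihk =>
      intro β hk f hf
      by_cases hne : ∃ e v, r {e} ≠ 0 ∧ β e v ≠ 0
      · refine mz_step hr hne (fun e he f' hf' => ?_) (fun β' hβ f' hf' => ?_) hf
        · refine ihn _ (hr.mz_contract he) ?_ _ β le_rfl f' hf'
          rw [insert_eq_of_mem (mem_univ e)]
          push_cast at hn; omega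
        · exact ihk β' (by have := card_lt_card hβ; omega) f' hf'
      · push Not at hne
        exact mz_base hr (fun e he v => hne e v he) hf

theorem mz (β : ι → V → ℝ) (r : Finset ι → ℤ) (hr : IsRank r) (f : MvPolynomial V ℝ)
    (hf : ∀ h, DegLe f h (r (act β h))) :
    f ∈ Submodule.span ℝ {g | ∃ F : Finset ι, r F = F.card ∧ g = ∏ e ∈ F, lin (β e)} :=
  mz_ind (univ : Finset ι).card r hr (hr.mz_le_card _) _ β le_rfl f hf

end Pool.Agent.P.MP_0ad50f_co.D8
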