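import Pool.Agent.P.MP_0ad50f_co.D8.Rho

/-! Every component of the remaining graph gets a vertex of odd degree. -/

namespace Pool.Agent.P.MP_0ad50f_co.D8

set_option linter.unusedSectionVars false

open Finset

variable {V : Type} [Fintype V] [DecidableEq V]

theorem op_keep {D D' : Finset (V × V)} (hs : D' ⊆ D)
    (h : ∀ a ∈ D, Good D Prod.fst a.1 → a ∈ D') {v : V} (hv : Good D Prod.fst v) :
    Good D' Prod.fst v := by
  obtain ⟨z, hz, ho⟩ := hv
  refine ⟨z, ?_, ?_⟩
  · induction hz using Relation.ReflTransGen.head_induction_on with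
    | refl => exact Reach.refl _ _ _
    | head hs hr ih =>
      obtain ⟨a, ha, rfl, rfl⟩ := hs
      exact (Reach.dart Prod.fst (h a ha ⟨z, (Reach.dart Prod.fst ha).trans hr, ho⟩)).trans ih
  · have : dg D' Prod.fst z = dg D Prod.fst z := by
      unfold dg
      congr 1
      ext a
      simp only [mem_filter]
      exact ⟨fun e => ⟨hs e.1, e.2⟩, fun e => ⟨h a e.1 ⟨z, e.2 ▸ Reach.refl _ _ _, ho⟩, e.2⟩⟩
    rwa [this]

theorem op_grow {D : Finset (V × V)} {x y : V} (h1 : (x, y) ∉ D) (h2 : (x, y).swap ∉ D)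
    (hne : y ≠ x) (hx : Good (add D (x, y)) Prod.fst x) (hy : Good (add D (x, y)) Prod.fst y)
    {v : V} (hv : Good D Prod.fst v) : Good (add D (x, y)) Prod.fst v := by
  obtain ⟨z, hz, ho⟩ := hv
  have hr : Reach (add D (x, y)) Prod.fst v z :=
    hz.mono fun b hb => mem_add.2 (Or.inr (Or.inr hb))
  by_cases e1 : x = z
  · exact Good.of_reach hr (e1 ▸ hx)
  by_cases e2 : y = z
  · exact Good.of_reach hr (e2 ▸ hy)
  refine ⟨z, hr, ?_⟩
  rw [dg_add Prod.fst h1 h2 (fun e => hne (congrArg Prod.fst e))]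
  simpa [e1, e2] using ho

theorem op_even {D : Finset (V × V)} {v : V} (h : ¬ Good D Prod.fst v) : deg D v % 2 = 0 := by
  by_contra hn
  exact h ⟨v, Reach.refl _ _ _, Nat.odd_iff.2 (by change deg D v % 2 = 1; omega)⟩

theorem op_odd {D : Finset (V × V)} {v : V} (h : deg D v % 2 = 1) : Good D Prod.fst v :=
  ⟨v, Reach.refl _ _ _, Nat.odd_iff.2 h⟩

theorem op_nb {D : Finset (V × V)} {x y : V} (ha : (x, y) ∈ D) (h : ¬ Good D Prod.fst x) :
    ¬ Good D Prod.fst y := fun g => h (Good.of_reach (Reach.dart Prod.fst ha) g)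

theorem op_same {M M' : Finset (V × V)} {v : V} (h : ∀ w, (v, w) ∈ M' ↔ (v, w) ∈ M) :
    deg M' v = deg M v := by
  unfold deg dg
  congr 1
  ext ⟨x, w⟩
  simp only [mem_filter]
  constructor
  · rintro ⟨h1, rfl⟩; exact ⟨(h w).1 h1, rfl⟩
  · rintro ⟨h1, rfl⟩; exact ⟨(h w).2 h1, rfl⟩

theorem op_add {D : Finset (V × V)} {x y : V} (h1 : (x, y) ∉ D) (h2 : (x, y).swap ∉ D)
    (hne : y ≠ x) (v : V) :
    deg (add D (x, y)) v = deg D v + (if x = v then 1 else 0) + (if y = v then 1 else 0) :=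
  dg_add Prod.fst h1 h2 (fun e => hne (congrArg Prod.fst e)) v

theorem op_del {D : Finset (V × V)} (h : Sys D Prod.fst) {x y : V} (ha : (x, y) ∈ D) (v : V) :
    deg D v = deg (del D (x, y)) v + (if x = v then 1 else 0) + (if y = v then 1 else 0) :=
  dg_del h ha v

theorem op_ex {D X : Finset (V × V)} {v : V} (h : deg X v < deg D v) :
    ∃ w, (v, w) ∈ D ∧ (v, w) ∉ X := by
  by_contra hn
  push Not at hn
  refine absurd h (not_lt.2 (card_le_card fun a ha => ?_))
  obtain ⟨x, w⟩ := a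
  obtain ⟨h1, rfl⟩ := mem_filter.1 ha
  exact mem_filter.2 ⟨hn w h1, rfl⟩

theorem op_union (X Y : Finset (V × V)) (v : V) : deg (X ∪ Y) v ≤ deg X v + deg Y v := by
  unfold deg dg
  rw [filter_union]
  exact card_union_le _ _

theorem op_fib (D : Finset (V × V)) (A : Finset V) :
    (D.filter fun a => a.1 ∈ A).card = ∑ v ∈ A, deg D v := by
  rw [card_eq_sum_card_fiberwise (f := Prod.fst) (s := D.filter fun a => a.1 ∈ A) (t := A)
    (fun a ha => (mem_filter.1 ha).2)]
  refine sum_congr rfl fun v hv => ?_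
  unfold deg dg
  congr 1
  ext a
  simp only [mem_filter]
  exact ⟨fun e => ⟨e.1.1, e.2⟩, fun e => ⟨⟨e.1, e.2 ▸ hv⟩, e.2⟩⟩

/-- the invariant -/
structure op_Inv (E : Finset (V × V)) (S : Finset V) (F M : Finset (V × V)) : Prop where
  val : Val E S F M
  ht : ∀ t ∉ S, ¬ Good (E \ M) Prod.fst t → deg M t + 1 ≤ deg E t / 2
  hs : ∀ s ∈ S, ¬ Good (E \ M) Prod.fst s →
    deg (cut M S) s ≤ 2 ∧ (deg (cut M S) s = 0 → deg M s + 2 ≤ deg E s / 2)

/-- an improvement -/
def op_Better (E : Finset (V × V)) (S : Finset V) (F M : Finset (V × V)) : Prop :=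
  ∃ M', op_Inv E S F M' ∧ (∀ v, Good (E \ M) Prod.fst v → Good (E \ M') Prod.fst v) ∧
    ∃ v, ¬ Good (E \ M) Prod.fst v ∧ Good (E \ M') Prod.fst v

section ops
variable {E F M : Finset (V × V)} {S : Finset V}

theorem op_build (hM : op_Inv E S F M) {M' : Finset (V × V)} (hv : Val E S F M')
    (hk : ∀ v, Good (E \ M) Prod.fst v → Good (E \ M') Prod.fst v) {x : V}
    (hx : ¬ Good (E \ M) Prod.fst x) (hx' : Good (E \ M') Prod.fst x)
    (hr : ∀ v, ¬ Good (E \ M') Prod.fst v → (∀ w, (v, w) ∈ M' ↔ (v, w) ∈ M) ∨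
      (v ∈ S ∧ deg (cut M' S) v = 2)) : op_Better E S F M := by
  refine ⟨M', ⟨hv, fun t ht hg => ?_, fun s hs hg => ?_⟩, hk, x, hx, hx'⟩
  · rcases hr t hg with e | e
    · rw [op_same e]
      exact hM.ht t ht fun g => hg (hk t g)
    · exact absurd e.1 ht
  · rcases hr s hg with e | e
    · rw [op_same e, op_same (M := cut M S) (M' := cut M' S) fun w => by simp only [mem_cut, e w]]
      exact hM.hs s hs fun g => hg (hk s g)
    · omega

theorem op_sysN (h : Setup E S F) (hM : Val E S F M) : Sys (E \ M) Prod.fst :=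
  h.sys.mono sdiff_subset (h.sys.sy.sdiff hM.sy)

theorem op_sysM (h : Setup E S F) (hM : Val E S F M) : Sys M Prod.fst :=
  h.sys.mono (hM.sub.trans sdiff_subset) hM.sy

theorem op_T1 (h : Setup E S F) (hM : op_Inv E S F M) {t u : V} (ht : t ∉ S) (hu : u ∉ S)
    (ha : (t, u) ∈ E \ M) (hg : ¬ Good (E \ M) Prod.fst t) : op_Better E S F M := by
  obtain ⟨hE, hn⟩ := mem_sdiff.1 ha
  have hn' : (t, u).swap ∉ M := fun e => hn (by simpa using hM.val.sy _ e)
  have hne : u ≠ t := h.sys.nl _ hE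
  have hg' := op_nb ha hg
  have hd := op_add hn hn' hne
  have hN := op_del (op_sysN h hM.val) ha
  have g1 : Good (E \ add M (t, u)) Prod.fst t := by
    rw [sdiff_add]
    have := hN t
    have := op_even hg
    apply op_odd
    simp only [if_true, if_neg hne] at *
    omega
  have g2 : Good (E \ add M (t, u)) Prod.fst u := by
    rw [sdiff_add]
    have := hN u
    have := op_even hg'
    apply op_odd
    simp only [if_true, if_neg hne.symm] at *
    omega
  refine op_build hM (M' := add M (t, u)) ⟨fun b hb => ?_, hM.val.sy.add _, fun s hs => ?_,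
    fun v => ?_⟩ (fun v hv => ?_) hg g1 fun v hv => Or.inl fun w => ?_
  · rcases mem_add.1 hb with rfl | rfl | hb
    · exact mem_sdiff.2 ⟨hE, fun e => (mem_cut.1 (h.sub e)).2 (iff_of_false ht hu)⟩
    · exact mem_sdiff.2 ⟨h.sys.sy _ hE, fun e => (mem_cut.1 (h.sub e)).2 (iff_of_false hu ht)⟩
    · exact hM.val.sub hb
  · rw [hd, if_neg fun e : t = s => ht (e ▸ hs), if_neg fun e : u = s => hu (e ▸ hs)]
    exact hM.val.par s hs
  · rw [hd]
    have h1 := hM.val.load v
    have h2 := hM.ht t ht hg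
    have h3 := hM.ht u hu hg'
    split_ifs with e1 e2 e2
    · exact absurd (e2.trans e1.symm) hne
    · subst e1; omega
    · subst e2; omega
    · omega
  · rw [sdiff_add]
    refine op_keep (del_subset _ _) (fun a ha1 ha2 => mem_del.2 ⟨ha1, ?_, ?_⟩) hv
    · rintro rfl; exact hg ha2
    · rintro rfl; exact hg' ha2
  · have e1 : v ≠ t := fun e => hv (e ▸ g1)
    have e2 : v ≠ u := fun e => hv (e ▸ g2)
    simp [mem_add, e1, e2]

theorem op_T0 (h : Setup E S F) (hM : op_Inv E S F M) {t u : V} (ht : t ∉ S) (hu : u ∉ S)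
    (ha : (t, u) ∈ M) (hg : ¬ Good (E \ M) Prod.fst t) : op_Better E S F M := by
  have hE : (t, u) ∈ E := (mem_sdiff.1 (hM.val.sub ha)).1
  have hne : u ≠ t := h.sys.nl _ hE
  have n1 : (t, u) ∉ E \ M := fun e => (mem_sdiff.1 e).2 ha
  have n2 : (t, u).swap ∉ E \ M := fun e => (mem_sdiff.1 e).2 (hM.val.sy _ ha)
  have hd := op_del (op_sysM h hM.val) ha
  have g1 : Good (add (E \ M) (t, u)) Prod.fst t := by
    have := op_even hg
    apply op_odd
    rw [op_add n1 n2 hne, if_pos rfl, if_neg hne]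
    omega
  have g2 : Good (add (E \ M) (t, u)) Prod.fst u :=
    Good.of_reach (Reach.dart Prod.fst (a := (u, t)) (mem_add.2 (Or.inr (Or.inl rfl)))) g1
  refine op_build hM (M' := del M (t, u)) ⟨(del_subset _ _).trans hM.val.sub, hM.val.sy.del _,
    fun s hs => ?_, fun v => (dg_mono _ (del_subset _ _) v).trans (hM.val.load v)⟩
    (fun v hv => ?_) hg (by rwa [sdiff_del h.sys.sy hE]) fun v hv => Or.inl fun w => ?_
  · have := hd s
    rw [if_neg fun e : t = s => ht (e ▸ hs), if_neg fun e : u = s => hu (e ▸ hs)] at this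
    have := hM.val.par s hs
    omega
  · rw [sdiff_del h.sys.sy hE]
    exact op_grow n1 n2 hne g1 g2 hv
  · rw [sdiff_del h.sys.sy hE] at hv
    have e1 : v ≠ t := fun e => hv (e ▸ g1)
    have e2 : v ≠ u := fun e => hv (e ▸ g2)
    simp [mem_del, e1, e2]

theorem op_T2 (h : Setup E S F) (hM : op_Inv E S F M) {s t u : V} (hs : s ∈ S) (ht : t ∉ S)
    (hu : u ∉ S) (htu : t ≠ u) (ha : (s, t) ∈ E \ M) (hb : (s, u) ∈ E \ M) (fa : (s, t) ∉ F)
    (fb : (s, u) ∉ F) (hk : deg (cut M S) s = 0) (hg : ¬ Good (E \ M) Prod.fst s) :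
    op_Better E S F M := by
  obtain ⟨hE, hn⟩ := mem_sdiff.1 ha
  obtain ⟨hE', hm⟩ := mem_sdiff.1 hb
  have hn' : (s, t).swap ∉ M := fun e => hn (by simpa using hM.val.sy _ e)
  have hm' : (s, u).swap ∉ M := fun e => hm (by simpa using hM.val.sy _ e)
  have hne : t ≠ s := h.sys.nl _ hE
  have hne' : u ≠ s := h.sys.nl _ hE'
  have gt := op_nb ha hg
  have gu := op_nb hb hg
  have m1 : (s, u) ∉ add M (s, t) := by simp [mem_add, hm, htu.symm, hne']
  have m2 : (s, u).swap ∉ add M (s, t) := by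
    simp only [Prod.swap_prod_mk] at hm'
    simp [mem_add, hm', htu.symm, hne']
  have hd : ∀ v, deg (add (add M (s, t)) (s, u)) v = deg M v + (if s = v then 2 else 0) +
      (if t = v then 1 else 0) + (if u = v then 1 else 0) := by
    intro v
    rw [op_add m1 m2 hne', op_add hn hn' hne]
    split_ifs <;> omega
  have hb' : (s, u) ∈ del (E \ M) (s, t) := by
    rw [mem_del]
    exact ⟨hb, by simp [htu.symm], by simp [hne']⟩
  have hN := op_del (op_sysN h hM.val) ha
  have hN' := op_del ((op_sysN h hM.val).del _) hb'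
  have g1 : Good (E \ add (add M (s, t)) (s, u)) Prod.fst t := by
    rw [sdiff_add, sdiff_add]
    have h1 := hN t
    have h2 := hN' t
    have := op_even gt
    apply op_odd
    simp only [if_true, if_neg hne.symm, if_neg htu.symm] at h1 h2
    omega
  have g2 : Good (E \ add (add M (s, t)) (s, u)) Prod.fst u := by
    rw [sdiff_add, sdiff_add]
    have h1 := hN u
    have h2 := hN' u
    have := op_even gu
    apply op_odd
    simp only [if_true, if_neg hne'.symm, if_neg htu] at h1 h2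
    omega
  refine op_build hM (M' := add (add M (s, t)) (s, u)) ⟨fun b hb => ?_, (hM.val.sy.add _).add _,
    fun v hv => ?_, fun v => ?_⟩ (fun v hv => ?_) gt g1 fun v hv => ?_
  · rcases mem_add.1 hb with rfl | rfl | hb
    · exact mem_sdiff.2 ⟨hE', fb⟩
    · exact mem_sdiff.2 ⟨h.sys.sy _ hE', fun e => fb (by simpa using h.syF _ e)⟩
    rcases mem_add.1 hb with rfl | rfl | hb
    · exact mem_sdiff.2 ⟨hE, fa⟩
    · exact mem_sdiff.2 ⟨h.sys.sy _ hE, fun e => fa (by simpa using h.syF _ e)⟩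
    · exact hM.val.sub hb
  · rw [hd, if_neg fun e : t = v => ht (e ▸ hv), if_neg fun e : u = v => hu (e ▸ hv)]
    have := hM.val.par v hv
    split_ifs <;> omega
  · rw [hd]
    have h1 := hM.val.load v
    have h2 := hM.ht t ht gt
    have h3 := hM.ht u hu gu
    have h4 := (hM.hs s hs hg).2 hk
    by_cases e1 : s = v
    · subst e1
      rw [if_pos rfl, if_neg hne, if_neg hne']; omega
    by_cases e2 : t = v
    · subst e2
      rw [if_neg e1, if_pos rfl, if_neg htu.symm]; omega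
    by_cases e3 : u = v
    · subst e3
      rw [if_neg e1, if_neg e2, if_pos rfl]; omega
    rw [if_neg e1, if_neg e2, if_neg e3]; omega
  · rw [sdiff_add, sdiff_add]
    refine op_keep ((del_subset _ _).trans (del_subset _ _))
      (fun a ha1 ha2 => mem_del.2 ⟨mem_del.2 ⟨ha1, ?_, ?_⟩, ?_, ?_⟩) hv
    · rintro rfl; exact hg ha2
    · rintro rfl; exact gt ha2
    · rintro rfl; exact hg ha2
    · rintro rfl; exact gu ha2
  · have e1 : v ≠ t := fun e => hv (e ▸ g1)
    have e2 : v ≠ u := fun e => hv (e ▸ g2)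
    by_cases e3 : v = s
    · subst e3
      refine Or.inr ⟨hs, ?_⟩
      have h0 : ∀ w, (v, w) ∉ cut M S := fun w hw => by
        have : 0 < deg (cut M S) v := dg_pos.2 ⟨_, hw, rfl⟩
        omega
      refine card_eq_two.2 ⟨(v, t), (v, u), by simp [htu], ?_⟩
      ext ⟨x, w⟩
      simp only [mem_filter, mem_cut, mem_add, mem_insert, mem_singleton, Prod.mk.injEq,
        Prod.swap_prod_mk]
      constructor
      · rintro ⟨⟨h1, h2⟩, rfl⟩
        have h3 := h0 w
        rw [mem_cut] at h3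
        tauto
      · rintro (⟨rfl, rfl⟩ | ⟨rfl, rfl⟩) <;> simp [hs, ht, hu]
    · exact Or.inl fun w => by simp [mem_add, e1, e2, e3]

theorem op_T3 (h : Setup E S F) (hM : op_Inv E S F M) {s t u : V} (_hs : s ∈ S) (ht : t ∉ S)
    (hu : u ∉ S) (ha : (s, t) ∈ E \ M) (hb : (s, u) ∈ M) (fa : (s, t) ∉ F)
    (hg : ¬ Good (E \ M) Prod.fst s) : op_Better E S F M := by
  obtain ⟨hE, hn⟩ := mem_sdiff.1 ha
  have hE' : (s, u) ∈ E := (mem_sdiff.1 (hM.val.sub hb)).1
  have hn' : (s, t).swap ∉ M := fun e => hn (by simpa using hM.val.sy _ e)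
  have hne : t ≠ s := h.sys.nl _ hE
  have hne' : u ≠ s := h.sys.nl _ hE'
  have htu : t ≠ u := fun e => hn (e ▸ hb)
  have gt := op_nb ha hg
  have hsub : add M (s, t) ⊆ E \ F := by
    intro b hb
    rcases mem_add.1 hb with rfl | rfl | hb
    · exact mem_sdiff.2 ⟨hE, fa⟩
    · exact mem_sdiff.2 ⟨h.sys.sy _ hE, fun e => fa (by simpa using h.syF _ e)⟩
    · exact hM.val.sub hb
  have hsys : Sys (add M (s, t)) Prod.fst :=
    h.sys.mono (hsub.trans sdiff_subset) (hM.val.sy.add _)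
  have hd := fun v => (op_add hn hn' hne v).symm.trans
    (op_del hsys (mem_add.2 (Or.inr (Or.inr hb))) v)
  have n1 : (s, u) ∉ del (E \ M) (s, t) := fun e => (mem_sdiff.1 (mem_del.1 e).1).2 hb
  have n2 : (s, u).swap ∉ del (E \ M) (s, t) :=
    fun e => (mem_sdiff.1 (mem_del.1 e).1).2 (hM.val.sy _ hb)
  have heq : E \ del (add M (s, t)) (s, u) = add (del (E \ M) (s, t)) (s, u) := by
    rw [sdiff_del h.sys.sy hE', sdiff_add]
  have g1 : Good (add (del (E \ M) (s, t)) (s, u)) Prod.fst t := by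
    have h1 := op_del (op_sysN h hM.val) ha t
    have := op_even gt
    apply op_odd
    rw [op_add n1 n2 hne']
    simp only [if_true, if_neg hne.symm, if_neg htu.symm] at h1 ⊢
    omega
  have g2 : Good (add (del (E \ M) (s, t)) (s, u)) Prod.fst s :=
    Good.of_reach (((bridge (op_sysN h hM.val) ha hg).symm ((op_sysN h hM.val).del _).sy).mono
      fun b hb => mem_add.2 (Or.inr (Or.inr hb))) g1
  have g3 : Good (add (del (E \ M) (s, t)) (s, u)) Prod.fst u :=
    Good.of_reach (Reach.dart Prod.fst (a := (u, s)) (mem_add.2 (Or.inr (Or.inl rfl)))) g2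
  refine op_build hM (M' := del (add M (s, t)) (s, u)) ⟨(del_subset _ _).trans hsub,
    (hM.val.sy.add _).del _, fun v hv => ?_, fun v => ?_⟩ (fun v hv => ?_) gt (heq ▸ g1)
    fun v hv => Or.inl fun w => ?_
  · have h1 := hd v
    rw [if_neg fun e : t = v => ht (e ▸ hv), if_neg fun e : u = v => hu (e ▸ hv)] at h1
    have := hM.val.par v hv
    omega
  · have h1 := hd v
    have h2 := hM.val.load v
    have h3 := hM.ht t ht gt
    by_cases e2 : t = v
    · subst e2
      rw [if_pos rfl] at h1; omega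
    · rw [if_neg e2] at h1; omega
  · rw [heq]
    refine op_grow n1 n2 hne' g2 g3
      (op_keep (del_subset _ _) (fun a ha1 ha2 => mem_del.2 ⟨ha1, ?_, ?_⟩) hv)
    · rintro rfl; exact hg ha2
    · rintro rfl; exact gt ha2
  · rw [heq] at hv
    have e1 : v ≠ t := fun e => hv (e ▸ g1)
    have e2 : v ≠ s := fun e => hv (e ▸ g2)
    have e3 : v ≠ u := fun e => hv (e ▸ g3)
    simp [mem_del, mem_add, e1, e2, e3]

theorem op_stuck (h : Setup E S F) (hM : op_Inv E S F M) (hb : ¬ op_Better E S F M) (v : V) :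
    Good (E \ M) Prod.fst v := by
  classical
  by_contra hv
  have pure : ∀ t ∉ S, ¬ Good (E \ M) Prod.fst t → ∀ u, (t, u) ∈ E → u ∈ S := by
    intro t ht hg u hu
    by_contra hn
    by_cases hm : (t, u) ∈ M
    · exact hb (op_T0 h hM ht hn hm hg)
    · exact hb (op_T1 h hM ht hn (mem_sdiff.2 ⟨hu, hm⟩) hg)
  have k0 : ∀ s ∈ S, ¬ Good (E \ M) Prod.fst s → ∀ t ∉ S, (s, t) ∈ E \ M → (s, t) ∉ F →
      deg (cut M S) s = 0 := by
    intro s hs hg t ht ha fa
    by_contra hn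
    obtain ⟨⟨x, u⟩, hu, rfl⟩ := dg_pos.1 (Nat.pos_of_ne_zero hn)
    rw [mem_cut] at hu
    exact hb (op_T3 h hM hs ht (fun e => hu.2 (iff_of_true hs e)) ha hu.1 fa hg)
  have key : ∀ s ∈ S, ¬ Good (E \ M) Prod.fst s →
      deg (unc E S) s + deg (unc M S) s + (if deg (cut M S) s = 0 then 1 else 0) ≤ 2 * deg F s := by
    intro s hs hg
    have h1 := h.lt s hs
    have h2 : deg (cut E S) s + deg (unc E S) s = deg E s := dg_cut_unc E S _ s
    have h3 : deg (cut M S) s + deg (unc M S) s = deg M s := dg_cut_unc M S _ s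
    have h4 := hM.val.load s
    obtain ⟨h5, h6⟩ := hM.hs s hs hg
    have hex : ∀ X : Finset (V × V), deg (F ∪ cut M S ∪ X) s < deg (cut E S) s →
        ∃ t, t ∉ S ∧ (s, t) ∈ E \ M ∧ (s, t) ∉ F ∧ (s, t) ∉ X := by
      intro X hX
      obtain ⟨t, ht1, ht2⟩ := op_ex hX
      simp only [mem_union, mem_cut, not_or] at ht1 ht2
      exact ⟨t, fun e => ht1.2 (iff_of_true hs e),
        mem_sdiff.2 ⟨ht1.1, fun e => ht2.1.2 ⟨e, ht1.2⟩⟩, ht2.1.1, ht2.2⟩
    have h7 := op_union F (cut M S) s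
    split_ifs with hk
    · have h8 : deg (cut E S) s ≤ deg F s + 1 := by
        by_contra hn
        obtain ⟨t, a1, a2, a3, -⟩ := hex ∅ (by rw [union_empty]; omega)
        have h9 := op_union (F ∪ cut M S) {(s, t)} s
        have h10 : deg {(s, t)} s ≤ 1 := (card_filter_le _ _).trans (by simp)
        obtain ⟨u, b1, b2, b3, b4⟩ := hex {(s, t)} (by omega)
        exact hb (op_T2 h hM hs a1 b1 (fun e => b4 (by simp [e])) a2 b2 a3 b3 hk hg)
      have := h6 hk
      omega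
    · have h8 : deg (cut E S) s ≤ deg F s + deg (cut M S) s := by
        by_contra hn
        obtain ⟨t, a1, a2, a3, -⟩ := hex ∅ (by rw [union_empty]; omega)
        exact hk (k0 s hs hg t a1 a2 a3)
      omega
  obtain ⟨t, ht, gt⟩ : ∃ t, t ∉ S ∧ ¬ Good (E \ M) Prod.fst t := by
    by_cases hs : v ∈ S
    · have h1 := h.lt v hs
      have h2 : deg (cut E S) v + deg (unc E S) v = deg E v := dg_cut_unc E S _ v
      have h4 := hM.val.load v
      obtain ⟨t, ht1, ht2⟩ := op_ex (D := cut E S) (X := M) (v := v) (by omega)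
      rw [mem_cut] at ht1
      exact ⟨t, fun e => ht1.2 (iff_of_true hs e), op_nb (mem_sdiff.2 ⟨ht1.1, ht2⟩) hv⟩
    · exact ⟨v, hs, hv⟩
  obtain ⟨s, hs, gs, hk⟩ : ∃ s ∈ S, ¬ Good (E \ M) Prod.fst s ∧ deg (cut M S) s = 0 := by
    have h1 : deg (unc E S) t = 0 := by
      by_contra hn
      obtain ⟨⟨x, u⟩, hu, rfl⟩ := dg_pos.1 (Nat.pos_of_ne_zero hn)
      rw [mem_unc] at hu
      exact ht (hu.2.2 (pure _ ht gt u hu.1))
    have h2 : deg (cut E S) t + deg (unc E S) t = deg E t := dg_cut_unc E S _ t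
    have h3 := h.f1 t
    have h4 := hM.ht t ht gt
    have h5 := op_union F M t
    obtain ⟨s, a1, a2⟩ := op_ex (D := E) (X := F ∪ M) (v := t) (by omega)
    rw [mem_union, not_or] at a2
    have a3 : (t, s) ∈ E \ M := mem_sdiff.2 ⟨a1, a2.2⟩
    have hs := pure t ht gt s a1
    exact ⟨s, hs, op_nb a3 gt, k0 s hs (op_nb a3 gt) t ht ((op_sysN h hM.val).sy _ a3)
      fun e => a2.1 (h.syF _ e)⟩
  set W : Finset V := univ.filter fun x => ¬ Good (E \ M) Prod.fst x with hW
  have mW : ∀ x, x ∈ W ↔ ¬ Good (E \ M) Prod.fst x := fun x => by simp [hW]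
  set A : Finset V := W ∩ S with hA
  have f3 := h.f3 W
  have c1 : ((unc E S).filter fun a => a.1 ∈ W).card ≤ ∑ x ∈ A, deg (unc E S) x := by
    rw [← op_fib]
    refine card_le_card fun a ha => ?_
    simp only [mem_filter, mem_unc, hA, mem_inter] at ha ⊢
    refine ⟨ha.1, ha.2, ?_⟩
    by_contra hn
    exact hn (ha.1.2.2 (pure _ hn ((mW _).1 ha.2) a.2 ha.1.1))
  have c2 : (out (unc E S) W).card ≤ ∑ x ∈ A, deg (unc M S) x := by
    rw [← op_fib]
    refine card_le_card fun a ha => ?_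
    simp only [mem_filter, mem_unc, mem_out, hA, mem_inter] at ha ⊢
    refine ⟨⟨?_, ha.1.2⟩, ha.2.1, ?_⟩
    · by_contra hn
      exact ha.2.2 ((mW _).2 (op_nb (mem_sdiff.2 ⟨ha.1.1, hn⟩) ((mW _).1 ha.2.1)))
    · by_contra hn
      exact hn (ha.1.2.2 (pure _ hn ((mW _).1 ha.2.1) a.2 ha.1.1))
  have c3 : 2 * ∑ x ∈ A, deg F x ≤ (F.filter fun a => a.1 ∈ W ∧ a.2 ∈ W).card := by
    have hin : ∀ a ∈ F, a.1 ∈ A → a.1 ∈ W ∧ a.2 ∈ W ∧ a.2 ∉ S := by
      intro a ha h1
      obtain ⟨h2, h3⟩ := mem_inter.1 h1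
      have h4 := mem_cut.1 (h.sub ha)
      refine ⟨h2, (mW _).2 (op_nb (x := a.1) (mem_sdiff.2 ⟨h4.1, fun e => ?_⟩) ((mW _).1 h2)),
        fun e => h4.2 (iff_of_true h3 e)⟩
      exact (mem_sdiff.1 (hM.val.sub e)).2 ha
    rw [← op_fib, two_mul]
    nth_rewrite 2 [← card_image_of_injective _ Prod.swap_injective]
    rw [← card_union_of_disjoint]
    · refine card_le_card fun a ha => ?_
      rcases mem_union.1 ha with ha | ha
      · obtain ⟨h1, h2⟩ := mem_filter.1 ha
        exact mem_filter.2 ⟨h1, (hin a h1 h2).1, (hin a h1 h2).2.1⟩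
      · obtain ⟨b, hb', rfl⟩ := mem_image.1 ha
        obtain ⟨h1, h2⟩ := mem_filter.1 hb'
        exact mem_filter.2 ⟨h.syF _ h1, (hin b h1 h2).2.1, (hin b h1 h2).1⟩
    · rw [disjoint_left]
      intro a ha hc
      obtain ⟨b, hb', rfl⟩ := mem_image.1 hc
      obtain ⟨h1, h2⟩ := mem_filter.1 hb'
      exact (hin b h1 h2).2.2 (mem_inter.1 (mem_filter.1 ha).2).2
  have c4 : ∑ x ∈ A, (deg (unc E S) x + deg (unc M S) x) < ∑ x ∈ A, 2 * deg F x := by
    refine sum_lt_sum (fun x hx => ?_) ⟨s, mem_inter.2 ⟨(mW _).2 gs, hs⟩, ?_⟩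
    · have := key x (mem_inter.1 hx).2 ((mW _).1 (mem_inter.1 hx).1)
      omega
    · have := key s hs gs
      rw [if_pos hk] at this
      omega
  rw [sum_add_distrib, ← mul_sum] at c4
  omega

end ops

theorem opening {E F M₀ : Finset (V × V)} {S : Finset V} (h : Setup E S F) (h0 : Val E S F M₀)
    (hT : ∀ t ∉ S, deg M₀ t + 1 ≤ deg E t / 2)
    (hS : ∀ s ∈ S, deg (cut M₀ S) s ≤ 1 ∧ (deg (cut M₀ S) s = 0 → deg M₀ s + 2 ≤ deg E s / 2)) :
    ∃ M, Val E S F M ∧ ∀ v, Good (E \ M) Prod.fst v := by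
  classical
  have hI : op_Inv E S F M₀ :=
    ⟨h0, fun t ht _ => hT t ht, fun s hs _ => ⟨(hS s hs).1.trans (by norm_num), (hS s hs).2⟩⟩
  obtain ⟨M, hM, hmin⟩ := exists_min_image (univ.filter fun M => op_Inv E S F M)
    (fun M => (univ.filter fun x => ¬ Good (E \ M) Prod.fst x).card)
    ⟨M₀, mem_filter.2 ⟨mem_univ _, hI⟩⟩
  have hM := (mem_filter.1 hM).2
  refine ⟨M, hM.val, op_stuck h hM ?_⟩
  rintro ⟨M', h1, h2, x, h3, h4⟩
  refine absurd (hmin M' (mem_filter.2 ⟨mem_univ _, h1⟩)) (not_le.2 (card_lt_card ⟨?_, ?_⟩))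
  · intro v hv
    exact mem_filter.2 ⟨mem_univ _, fun g => (mem_filter.1 hv).2 (h2 v g)⟩
  · intro hs
    exact (mem_filter.1 (hs (mem_filter.2 ⟨mem_univ x, h3⟩))).2 h4

end Pool.Agent.P.MP_0ad50f_co.D8
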