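import Pool.Agent.P.MP_0ad50f_co.D8.Rho

/-! Saturation: the needy vertices span a forest in the remaining graph. -/

namespace Pool.Agent.P.MP_0ad50f_co.D8

set_option linter.unusedSectionVars false

open Finset

variable {V : Type} [Fintype V] [DecidableEq V]

theorem sa_val {E F M : Finset (V × V)} {S : Finset V} (h : Setup E S F) (hM : Val E S F M)
    {t u : V} (ha : (t, u) ∈ E \ M) (ht : Needy E S M t) (hu : Needy E S M u) :
    Val E S F (add M (t, u)) ∧ M.card < (add M (t, u)).card := by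
  obtain ⟨hE, hn⟩ := mem_sdiff.1 ha
  have hn' : (t, u).swap ∉ M := fun e => hn (by simpa using hM.sy _ e)
  have hne : u ≠ t := h.sys.nl _ hE
  have hd : ∀ v, deg (add M (t, u)) v =
      deg M v + (if t = v then 1 else 0) + (if u = v then 1 else 0) := fun v =>
    dg_add Prod.fst hn hn' (h.sys.ne_swap hE) v
  refine ⟨⟨fun b hb => ?_, hM.sy.add _, fun s hs => ?_, fun v => ?_⟩, ?_⟩
  · rcases mem_add.1 hb with rfl | rfl | hb
    · exact mem_sdiff.2 ⟨hE, fun e => (mem_cut.1 (h.sub e)).2 (iff_of_false ht.1 hu.1)⟩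
    · exact mem_sdiff.2 ⟨h.sys.sy _ hE, fun e => (mem_cut.1 (h.sub e)).2 (iff_of_false hu.1 ht.1)⟩
    · exact hM.sub hb
  · rw [hd, if_neg fun e : t = s => ht.1 (e ▸ hs), if_neg fun e : u = s => hu.1 (e ▸ hs)]
    exact hM.par s hs
  · rw [hd]
    have h1 := hM.load v
    have h2 := h.mind v
    split_ifs with e1 e2 e2
    · exact absurd (e2.trans e1.symm) hne
    · have := ht.2
      rw [e1] at this
      omega
    · have := hu.2
      rw [e2] at this
      omega
    · omega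
  · exact card_lt_card ⟨fun b hb => mem_add.2 (Or.inr (Or.inr hb)),
      fun e => hn (e (mem_add.2 (Or.inl rfl)))⟩

theorem sa_deg {D : Finset (V × V)} (h : Sys D Prod.fst) {t u : V} (ha : (t, u) ∈ D) (v : V) :
    deg D v = deg (del D (t, u)) v + (if t = v then 1 else 0) + (if u = v then 1 else 0) :=
  dg_del h ha v

theorem sa_same {D : Finset (V × V)} (h : Sys D Prod.fst) {t u v : V} (ha : (t, u) ∈ D)
    (h1 : t ≠ v) (h2 : u ≠ v) : deg (del D (t, u)) v = deg D v := by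
  rw [sa_deg h ha v, if_neg h1, if_neg h2]
  rfl

theorem sa_left {D : Finset (V × V)} (h : Sys D Prod.fst) {t u : V} (ha : (t, u) ∈ D)
    (he : ¬ Odd (deg D t)) : Good (del D (t, u)) Prod.fst t := by
  refine ⟨t, Reach.refl _ _ _, ?_⟩
  have hne : u ≠ t := h.nl _ ha
  rw [sa_deg h ha t, if_pos rfl, if_neg hne, Nat.odd_iff] at he
  change Odd (deg (del D (t, u)) t)
  rw [Nat.odd_iff]
  omega

theorem sa_right {D : Finset (V × V)} (h : Sys D Prod.fst) {t u : V} (ha : (t, u) ∈ D)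
    (he : ¬ Odd (deg D u)) : Good (del D (t, u)) Prod.fst u := by
  refine ⟨u, Reach.refl _ _ _, ?_⟩
  have hne : u ≠ t := h.nl _ ha
  rw [sa_deg h ha u, if_pos rfl, if_neg hne.symm, Nat.odd_iff] at he
  change Odd (deg (del D (t, u)) u)
  rw [Nat.odd_iff]
  omega

theorem sa_good {D : Finset (V × V)} (h : Sys D Prod.fst) (hg : ∀ v, Good D Prod.fst v) {t u : V}
    (ha : (t, u) ∈ D) (ht : Good (del D (t, u)) Prod.fst t) (hu : Good (del D (t, u)) Prod.fst u)
    (v : V) : Good (del D (t, u)) Prod.fst v := by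
  obtain ⟨z, hz, ho⟩ := hg v
  rcases hz.del_or (t, u) with r | r | r
  · by_cases e1 : t = z
    · exact Good.of_reach r (e1 ▸ ht)
    · by_cases e2 : u = z
      · exact Good.of_reach r (e2 ▸ hu)
      · exact ⟨z, r, by
          change Odd (deg (del D (t, u)) z)
          rw [sa_same h ha e1 e2]
          exact ho⟩
  · exact Good.of_reach r ht
  · exact Good.of_reach r hu

theorem sa_core {D : Finset (V × V)} (h : Sys D Prod.fst) (A : Finset V) (hA : A.Nonempty)
    (hmax : ∀ t ∈ A, ∀ u ∈ A, (t, u) ∈ D → Good (del D (t, u)) Prod.fst t →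
      Good (del D (t, u)) Prod.fst u → False) :
    ∃ t ∈ A, ∀ x ∈ A, ∀ y ∈ A, (t, x) ∈ D → (t, y) ∈ D → x = y := by
  by_contra hc
  have two : ∀ t ∈ A, ∀ w, ∃ x ∈ A, x ≠ w ∧ (t, x) ∈ D := fun t ht w => by
    by_contra hn
    refine hc ⟨t, ht, fun x hx y hy h1 h2 => ?_⟩
    have k : ∀ z ∈ A, (t, z) ∈ D → z = w := fun z hz e => by
      by_contra e'
      exact hn ⟨z, hz, e', e⟩
    rw [k x hx h1, k y hy h2]
  have mem : ∀ {t u x : V}, (t, x) ∈ D → x ≠ u → (t, u) ∈ D → (t, x) ∈ del D (t, u) := by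
    intro t u x h1 h2 h3
    have hne : u ≠ t := h.nl _ h3
    exact mem_del.2 ⟨h1, fun e => h2 (congrArg Prod.snd e), fun e => hne (congrArg Prod.fst e).symm⟩
  have odd : ∀ u ∈ A, Odd (deg D u) := fun u hu => by
    by_contra he
    obtain ⟨t, ht, -, h1⟩ := two u hu u
    have h1' : (t, u) ∈ D := h.sy _ h1
    obtain ⟨x, hx, hxu, h2⟩ := two t ht u
    have hxt : x ≠ t := h.nl _ h2
    have hb : ¬ Good (del D (t, u)) Prod.fst t := fun g => hmax t ht u hu h1' g (sa_right h h1' he)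
    have h3 := mem h2 hxu h1'
    have hr : Reach (del (del D (t, u)) (t, x)) Prod.fst x t := bridge (h.del _) h3 hb
    have hx0 : ¬ Odd (deg D x) := fun ho => hb ⟨x, Reach.dart Prod.fst h3, by
      change Odd (deg (del D (t, u)) x)
      rw [sa_same h h1' hxt.symm hxu.symm]
      exact ho⟩
    have g := sa_right h h2 hx0
    have hs : del (del D (t, u)) (t, x) ⊆ del D (t, x) := fun b hb => by
      rw [mem_del] at hb ⊢
      exact ⟨(mem_del.1 hb.1).1, hb.2⟩
    exact hmax t ht x hx h2 (Good.of_reach ((hr.mono hs).symm (h.sy.del _)) g) g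
  obtain ⟨t, ht⟩ := hA
  obtain ⟨x, hx, -, h1⟩ := two t ht t
  obtain ⟨y, hy, hyx, h2⟩ := two t ht x
  obtain ⟨z, hz, hzt, h3⟩ := two x hx t
  have hyt : y ≠ t := h.nl _ h2
  have hzx : z ≠ x := h.nl _ h3
  have hxt : x ≠ t := h.nl _ h1
  refine hmax t ht x hx h1 ⟨y, Reach.dart Prod.fst (mem h2 hyx h1), ?_⟩
    ⟨z, Reach.dart Prod.fst (a := (x, z)) (mem_del.2 ⟨h3, fun e => hxt (congrArg Prod.fst e),
      fun e => hzt (congrArg Prod.snd e)⟩), ?_⟩
  · change Odd (deg (del D (t, x)) y)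
    rw [sa_same h h1 hyt.symm hyx.symm]
    exact odd y hy
  · change Odd (deg (del D (t, x)) z)
    rw [sa_same h h1 hzt.symm hzx.symm]
    exact odd z hz

theorem saturate {E F M₀ : Finset (V × V)} {S : Finset V} (h : Setup E S F) (h0 : Val E S F M₀)
    (hg : ∀ v, Good (E \ M₀) Prod.fst v) :
    ∃ M, Val E S F M ∧ (∀ v, Good (E \ M) Prod.fst v) ∧
      ∀ A : Finset V, A.Nonempty → (∀ t ∈ A, Needy E S M t) →
        ∃ t ∈ A, ∀ x ∈ A, ∀ y ∈ A, (t, x) ∈ E \ M → (t, y) ∈ E \ M → x = y := by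
  obtain ⟨M, ⟨hM, hG⟩, hmax⟩ := Set.exists_max_image
    {M : Finset (V × V) | Val E S F M ∧ ∀ v, Good (E \ M) Prod.fst v} Finset.card
    (Set.toFinite _) ⟨M₀, h0, hg⟩
  have hs : Sys (E \ M) Prod.fst := h.sys.mono sdiff_subset (h.sys.sy.sdiff hM.sy)
  refine ⟨M, hM, hG, fun A hA hn => sa_core hs A hA fun t ht u hu ha g1 g2 => ?_⟩
  obtain ⟨h1, h2⟩ := sa_val h hM ha (hn t ht) (hn u hu)
  refine absurd (hmax _ ⟨h1, fun v => ?_⟩) (not_le.2 h2)
  rw [sdiff_add]
  exact sa_good hs hG ha g1 g2 v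

end Pool.Agent.P.MP_0ad50f_co.D8
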