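import Pool.Agent.P.MP_0ad50f_co.D8.Split

/-! The two sign functions on the remaining graph. -/

namespace Pool.Agent.P.MP_0ad50f_co.D8

set_option linter.unusedSectionVars false

open Finset

variable {V : Type} [Fintype V] [DecidableEq V]

theorem si_two {T : Finset (V × V)} {f : V × V → ℤ} (hf : ∀ a ∈ T, f a = 1 ∨ f a = -1)
    (h : (T.card = 2 ∧ (∑ a ∈ T, f a = 2 ∨ ∑ a ∈ T, f a = -2)) ∨
      (T.card = 3 ∧ (∑ a ∈ T, f a = 1 ∨ ∑ a ∈ T, f a = -1))) :
    ∃ a ∈ T, ∃ b ∈ T, a ≠ b ∧ f a = f b ∧ 0 < f a * ∑ a ∈ T, f a := by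
  rcases h with ⟨h, hs⟩ | ⟨h, hs⟩
  · obtain ⟨a, b, hab, rfl⟩ := card_eq_two.1 h
    have ha := hf a (by simp)
    have hb := hf b (by simp)
    rw [sum_pair hab] at hs ⊢
    refine ⟨a, by simp, b, by simp, hab, by omega, ?_⟩
    rcases ha with ha | ha <;> rw [ha] at hs ⊢ <;> omega
  · obtain ⟨a, b, c, hab, hac, hbc, rfl⟩ := card_eq_three.1 h
    have ha := hf a (by simp)
    have hb := hf b (by simp)
    have hc := hf c (by simp)
    rw [sum_insert (by simp [hab, hac]), sum_pair hbc] at hs ⊢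
    by_cases h1 : f a = f b
    · refine ⟨a, by simp, b, by simp, hab, h1, ?_⟩
      rcases ha with ha | ha <;> rw [ha] at hs h1 ⊢ <;> omega
    · by_cases h2 : f a = f c
      · refine ⟨a, by simp, c, by simp, hac, h2, ?_⟩
        rcases ha with ha | ha <;> rw [ha] at hs h1 h2 ⊢ <;> omega
      · refine ⟨b, by simp, c, by simp, hbc, by omega, ?_⟩
        rcases hb with hb | hb <;> rw [hb] at hs h1 ⊢ <;> omega

theorem si_true {D P : Finset (V × V)} (h : P ⊆ D) (v : V) :
    (D.filter fun a => (a.1, decide (a ∈ P)) = (v, true)) = P.filter fun a => a.1 = v := by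
  ext a
  simp only [mem_filter, Prod.mk.injEq, decide_eq_true_eq]
  exact ⟨fun k => ⟨k.2.2, k.2.1⟩, fun k => ⟨h k.1, k.2, k.1⟩⟩

theorem si_false (D P : Finset (V × V)) (v : V) :
    (D.filter fun a => (a.1, decide (a ∈ P)) = (v, false)) = (D \ P).filter fun a => a.1 = v := by
  ext a
  simp only [mem_filter, Prod.mk.injEq, decide_eq_false_iff_not, mem_sdiff]
  tauto

theorem si_sum {D P : Finset (V × V)} (h : P ⊆ D) (f : V × V → ℤ) (v : V) :
    sm D f v = sg D (fun a => (a.1, decide (a ∈ P))) f (v, true) +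
      sg D (fun a => (a.1, decide (a ∈ P))) f (v, false) := by
  unfold sm sg
  rw [si_true h, si_false, ← sum_union (disjoint_filter_filter disjoint_sdiff), ← filter_union,
    union_sdiff_of_subset h]

theorem si_deg {E F M : Finset (V × V)} {S : Finset V} (h : Setup E S F) (hM : Val E S F M)
    (v : V) : deg E v / 2 ≤ deg ((E \ M) \ F) v + deg M v ∧ deg (E \ M) v + deg M v = deg E v := by
  have e : (E \ M) \ F = (E \ F) \ M := sdiff_right_comm _ _ _
  have h1 := dg_sdiff Prod.fst hM.sub v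
  have h2 := dg_sdiff Prod.fst (h.sub.trans (filter_subset _ _)) v
  have h3 := dg_cut_unc E S Prod.fst v
  have h4 := h.f1 v
  have h5 := h.le v
  refine ⟨?_, dg_sdiff Prod.fst (hM.sub.trans sdiff_subset) v⟩
  rw [e]
  unfold deg at *
  omega

theorem small_sign {E F M : Finset (V × V)} {S : Finset V} (h : Setup E S F) (hM : Val E S F M)
    (hg : ∀ v, Good (E \ M) Prod.fst v) :
    ∃ ρ : V × V → ℤ, Sgn (E \ M) ρ ∧ (∀ s ∈ S, sm (E \ M) ρ s = 0) ∧
      (∀ t ∉ S, sm (E \ M) ρ t = 1 ∨ sm (E \ M) ρ t = -1 ∨ sm (E \ M) ρ t = 2 ∨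
        sm (E \ M) ρ t = -2) ∧
      ∀ t, Needy E S M t → ∃ x y, x ≠ y ∧ (t, x) ∈ (E \ M) \ F ∧ (t, y) ∈ (E \ M) \ F ∧
        ρ (t, x) = ρ (t, y) ∧ 0 < ρ (t, x) * sm (E \ M) ρ t := by
  classical
  have hsys : Sys (E \ M) Prod.fst := h.sys.mono sdiff_subset (h.sys.sy.sdiff hM.sy)
  obtain ⟨P, hP, hA, hp, hgood⟩ := split_all hsys ((E \ M) \ F) sdiff_subset
    (fun t => if deg (E \ M) t % 2 = 1 then 3 else 2) (univ.filter (Needy E S M)) (fun t ht => by
      obtain ⟨h1, h2⟩ := si_deg h hM t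
      have h3 := h.mind t
      have h4 := (mem_filter.1 ht).2.2
      split_ifs <;> omega) hg
  have hPD : P ⊆ E \ M := hP.trans sdiff_subset
  have d1 : ∀ v, dg (E \ M) (fun a => (a.1, decide (a ∈ P))) (v, true) = deg P v := fun v =>
    congrArg card (si_true hPD v)
  have d2 : ∀ v, dg (E \ M) (fun a => (a.1, decide (a ∈ P))) (v, false) + deg P v =
      deg (E \ M) v := fun v =>
    (congrArg (· + deg P v) (congrArg card (si_false _ P v))).trans (dg_sdiff Prod.fst hPD v)
  have d3 : ∀ v, Needy E S M v → deg P v = if deg (E \ M) v % 2 = 1 then 3 else 2 := fun v hv =>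
    hp v (mem_filter.2 ⟨mem_univ v, hv⟩)
  have d4 : ∀ v, ¬ Needy E S M v → deg P v = 0 := fun v hv => by
    by_contra h0
    obtain ⟨a, ha, rfl⟩ := dg_pos.1 (Nat.pos_of_ne_zero h0)
    exact hv (mem_filter.1 (hA a ha)).2
  have d5 : ∀ s ∈ S, deg (E \ M) s % 2 = 0 := fun s hs => by
    have h1 := (si_deg h hM s).2
    have h2 := hM.par s hs
    omega
  have d6 : ∀ v, 0 < deg (E \ M) v := fun v => by
    have h1 := (si_deg h hM v).2
    have h2 := hM.load v
    have h3 := h.mind v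
    omega
  let ty : V × Bool → Fin 4 := fun x =>
    if (x.2 = true ∧ Needy E S M x.1) ∨ (x.2 = false ∧ x.1 ∉ S ∧ ¬ Needy E S M x.1) then
      (if deg (E \ M) x.1 % 2 = 1 then 1 else 2) else 0
  have t1 : ∀ v, Needy E S M v → ty (v, true) = (if deg (E \ M) v % 2 = 1 then 1 else 2) ∧
      ty (v, false) = 0 := fun v hv => ⟨if_pos (Or.inl ⟨rfl, hv⟩), if_neg (by simp [hv])⟩
  have t2 : ∀ v, ¬ Needy E S M v → v ∉ S → ty (v, true) = 0 ∧
      ty (v, false) = (if deg (E \ M) v % 2 = 1 then 1 else 2) := fun v hv hs =>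
    ⟨if_neg (by simp [hv]), if_pos (Or.inr ⟨rfl, hs, hv⟩)⟩
  have t3 : ∀ v ∈ S, ty (v, true) = 0 ∧ ty (v, false) = 0 := fun v hs =>
    ⟨if_neg (by simp [show ¬ Needy E S M v from fun k => k.1 hs]), if_neg (by simp [hs])⟩
  have hpar : ∀ x, ty x = 1 ↔ Odd (dg (E \ M) (fun a => (a.1, decide (a ∈ P))) x) := by
    rintro ⟨v, b⟩
    have e1 := d1 v
    have e2 := d2 v
    rw [Nat.odd_iff]
    by_cases hv : Needy E S M v
    · have e3 := d3 v hv
      cases b
      · rw [(t1 v hv).2]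
        refine iff_of_false (by decide) ?_
        split_ifs at e3 <;> omega
      · rw [(t1 v hv).1]
        split_ifs at e3 ⊢
        · exact iff_of_true rfl (by omega)
        · exact iff_of_false (by decide) (by omega)
    · have e3 := d4 v hv
      by_cases hs : v ∈ S
      · have e4 := d5 v hs
        cases b
        · rw [(t3 v hs).2]
          exact iff_of_false (by decide) (by omega)
        · rw [(t3 v hs).1]
          exact iff_of_false (by decide) (by omega)
      · cases b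
        · rw [(t2 v hv hs).2]
          split_ifs
          · exact iff_of_true rfl (by omega)
          · exact iff_of_false (by decide) (by omega)
        · rw [(t2 v hv hs).1]
          exact iff_of_false (by decide) (by omega)
  have hpos : ∀ x, ty x = 2 → 0 < dg (E \ M) (fun a => (a.1, decide (a ∈ P))) x := by
    rintro ⟨v, b⟩ hx
    have e1 := d1 v
    have e2 := d2 v
    have e4 := d6 v
    by_cases hv : Needy E S M v
    · have e3 := d3 v hv
      cases b
      · rw [(t1 v hv).2] at hx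
        exact absurd hx (by decide)
      · split_ifs at e3 <;> omega
    · have e3 := d4 v hv
      cases b
      · omega
      · rw [show ty (v, true) = 0 from if_neg (by simp [hv])] at hx
        exact absurd hx (by decide)
  obtain ⟨f, hf, hok⟩ := rho (nd := fun a => (a.1, decide (a ∈ P)))
    ⟨hsys.sy, fun a ha e => hsys.nl a ha (Prod.mk.inj e).1⟩ ty hpar fun x hx => by
      obtain ⟨a, ha, rfl⟩ := dg_pos.1 (hx.elim id (hpos x))
      obtain ⟨z, h1, h2⟩ := hgood a ha
      exact ⟨z, h1, Or.inl ((hpar z).2 h2)⟩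
  refine ⟨f, hf, fun s hs => ?_, fun t ht => ?_, fun t ht => ?_⟩
  · rw [si_sum hPD, (hok _).1 (t3 s hs).1, (hok _).1 (t3 s hs).2, add_zero]
  · rw [si_sum hPD]
    by_cases hv : Needy E S M t
    · have e := (t1 t hv).1
      rw [(hok _).1 (t1 t hv).2, add_zero]
      split_ifs at e
      · have := (hok _).2.1 e
        tauto
      · have := (hok _).2.2.1 e
        tauto
    · have e := (t2 t hv ht).2
      rw [(hok _).1 (t2 t hv ht).1, zero_add]
      split_ifs at e
      · have := (hok _).2.1 e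
        tauto
      · have := (hok _).2.2.1 e
        tauto
  · have e0 : sg (E \ M) (fun a => (a.1, decide (a ∈ P))) f (t, true) =
        ∑ a ∈ P.filter fun a => a.1 = t, f a := congrArg (fun T => ∑ a ∈ T, f a) (si_true hPD t)
    have e := (t1 t ht).1
    have e3 := d3 t ht
    obtain ⟨a, ha, b, hb, hab, h1, h2⟩ := si_two (T := P.filter fun a => a.1 = t) (f := f)
      (fun a ha => (hf a (hPD (mem_filter.1 ha).1)).2) (by
        rw [← e0]
        split_ifs at e e3
        · exact Or.inr ⟨e3, (hok _).2.1 e⟩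
        · exact Or.inl ⟨e3, (hok _).2.2.1 e⟩)
    obtain ⟨a1, x⟩ := a
    obtain ⟨b1, y⟩ := b
    obtain ⟨ka, ha'⟩ := mem_filter.1 ha
    obtain ⟨kb, hb'⟩ := mem_filter.1 hb
    obtain rfl : t = a1 := ha'.symm
    obtain rfl : t = b1 := hb'.symm
    refine ⟨x, y, fun k => hab (by rw [k]), hP ka, hP kb, h1, ?_⟩
    rw [si_sum hPD, (hok _).1 (t1 _ ht).2, add_zero, e0]
    exact h2

theorem si_reset {l : V × V → ℤ} (hl : ∀ a, l a.swap = l a ∧ (l a = 1 ∨ l a = -1)) (t z w : V)
    (hz : t ≠ z) (hw : w ≠ z) : ∃ l' : V × V → ℤ,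
      (∀ a, l' a.swap = l' a ∧ (l' a = 1 ∨ l' a = -1)) ∧ l' (t, z) ≠ l' (t, w) ∧
      ∀ u v, u ≠ t → u ≠ z → l' (u, v) = l (u, v) := by
  refine ⟨fun a => if a = (t, z) ∨ a = (z, t) then - l (t, w) else l a, ?_, ?_, ?_⟩
  · rintro ⟨u, v⟩
    have h1 := (hl (t, w)).2
    have h2 := hl (u, v)
    have e : ((u, v).swap = (t, z) ∨ (u, v).swap = (z, t)) ↔
        ((u, v) = (t, z) ∨ (u, v) = (z, t)) := by
      simp only [Prod.swap_prod_mk, Prod.mk.injEq]
      tauto
    simp only [e]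
    split_ifs
    · exact ⟨rfl, by omega⟩
    · exact h2
  · have h1 := (hl (t, w)).2
    simp only [Prod.mk.injEq, true_or, if_true, hw, hz, and_false, false_and, or_self, if_false]
    omega
  · intro u v h1 h2
    simp only [Prod.mk.injEq, h1, h2, false_and, or_self, if_false]

theorem static_sign (D : Finset (V × V)) (hD : ∀ a ∈ D, a.1 ≠ a.2) (x y : V → V) (A : Finset V)
    (hxy : ∀ t ∈ A, x t ≠ y t ∧ (t, x t) ∈ D ∧ (t, y t) ∈ D)
    (hdeg : ∀ B ⊆ A, B.Nonempty →
      ∃ t ∈ B, ∀ u ∈ B, ∀ w ∈ B, (t, u) ∈ D → (t, w) ∈ D → u = w) :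
    ∃ l : V × V → ℤ, (∀ a, l a.swap = l a ∧ (l a = 1 ∨ l a = -1)) ∧
      ∀ t ∈ A, l (t, x t) ≠ l (t, y t) := by
  induction A using Finset.strongInduction with
  | H A ih =>
    rcases A.eq_empty_or_nonempty with rfl | hne
    · exact ⟨fun _ => 1, fun _ => ⟨rfl, Or.inl rfl⟩, fun t ht => absurd ht (notMem_empty t)⟩
    obtain ⟨t, ht, h⟩ := hdeg A Subset.rfl hne
    obtain ⟨l, hl, h1⟩ := ih (A.erase t) (erase_ssubset ht)
      (fun u hu => hxy u (mem_of_mem_erase hu)) fun B hB => hdeg B (hB.trans (erase_subset t A))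
    obtain ⟨k1, k2, k3⟩ := hxy t ht
    by_cases hx : x t ∈ A
    · have hy : y t ∉ A := fun hy => k1 (h _ hx _ hy k2 k3)
      obtain ⟨l', a1, a2, a3⟩ := si_reset hl t (y t) (x t) (hD _ k3) k1
      refine ⟨l', a1, fun u hu => ?_⟩
      by_cases e : u = t
      · rw [e]
        exact a2.symm
      · have e' : u ≠ y t := fun k => hy (k ▸ hu)
        rw [a3 u _ e e', a3 u _ e e']
        exact h1 u (mem_erase.2 ⟨e, hu⟩)
    · obtain ⟨l', a1, a2, a3⟩ := si_reset hl t (x t) (y t) (hD _ k2) k1.symm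
      refine ⟨l', a1, fun u hu => ?_⟩
      by_cases e : u = t
      · rw [e]
        exact a2
      · have e' : u ≠ x t := fun k => hx (k ▸ hu)
        rw [a3 u _ e e', a3 u _ e e']
        exact h1 u (mem_erase.2 ⟨e, hu⟩)

end Pool.Agent.P.MP_0ad50f_co.D8
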