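import Pool.Agent.P.MP_0ad50f_co.D8.Alg
import Pool.Agent.P.MP_0ad50f_co.D8.Init
import Pool.Agent.P.MP_0ad50f_co.D8.Opening
import Pool.Agent.P.MP_0ad50f_co.D8.Sat
import Pool.Agent.P.MP_0ad50f_co.D8.Signs

/-! Assembly. -/

namespace Pool.Agent.P.MP_0ad50f_co.D8

set_option linter.unusedSectionVars false

open Finset

variable {V : Type} [Fintype V] [DecidableEq V]

/-- size of a sign class -/
theorem ma_cls {D : Finset (V × V)} {f : V × V → ℤ} (hf : Sgn D f) {r : ℤ} (hr : r = 1 ∨ r = -1)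
    (v : V) : 2 * (deg (D.filter fun a => f a = r) v : ℤ) = deg D v + r * sm D f v := by
  unfold deg sm dg sg
  rw [filter_comm, card_filter, card_eq_sum_ones (D.filter _), mul_sum]
  push_cast
  rw [mul_sum, ← sum_add_distrib]
  refine sum_congr rfl fun a ha => ?_
  rcases (hf a (mem_filter.1 ha).1).2 with h | h <;> rcases hr with rfl | rfl <;> simp [h]

theorem ma_split {D M : Finset (V × V)} (h : M ⊆ D) (f : V × V → ℤ) (v : V) :
    sm D f v = sm (D \ M) f v + sm M f v := by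
  unfold sm sg
  rw [← sum_union (disjoint_filter_filter sdiff_disjoint), ← filter_union, sdiff_union_of_subset h]

theorem ma_congr {D : Finset (V × V)} {f g : V × V → ℤ} (h : ∀ a ∈ D, f a = g a) (v : V) :
    sm D f v = sm D g v := sum_congr rfl fun a ha => h a (mem_filter.1 ha).1

/-- the colouring made from two sign functions -/
theorem ma_core {E M : Finset (V × V)} (hME : M ⊆ E) (hM : Sy M) {ρ lam : V × V → ℤ}
    (hρ : Sgn (E \ M) ρ) (hl : Sgn (E \ M) lam) (hload : ∀ v, deg M v ≤ deg E v / 2)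
    (hmaj : ∀ v (r : ℤ), (r = 1 ∨ r = -1) → r * sm (E \ M) ρ v ≤ deg M v ∨
      (r * sm (E \ M) ρ v ≤ 2 ∧ ∃ x y, (v, x) ∈ E \ M ∧ (v, y) ∈ E \ M ∧ ρ (v, x) = r ∧
        ρ (v, y) = r ∧ lam (v, x) ≠ lam (v, y))) :
    ∃ c : V × V → ℕ, (∀ a ∈ E, c a.swap = c a ∧ 1 ≤ c a ∧ c a ≤ 5) ∧
      (∀ v, 2 * ((∑ b ∈ E.filter (fun b => b.1 = v), c b : ℕ) : ℤ) =
        6 * deg E v + 3 * sm (E \ M) lam v + sm (E \ M) ρ v) ∧
      ∀ v k, 2 * deg (E.filter fun b => c b = k) v ≤ deg E v := by
  let c : V × V → ℕ := fun a => if a ∈ M then 3 else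
    if lam a = 1 then (if ρ a = 1 then 5 else 4) else (if ρ a = 1 then 2 else 1)
  have cM : ∀ a ∈ M, c a = 3 := fun a ha => if_pos ha
  have cN : ∀ a ∈ E \ M, 2 * (c a : ℤ) = 6 + 3 * lam a + ρ a := fun a ha => by
    have h1 := (mem_sdiff.1 ha).2
    rcases (hρ a ha).2 with h | h <;> rcases (hl a ha).2 with h' | h' <;> simp [c, h1, h, h']
  refine ⟨c, fun a ha => ⟨?_, ?_, ?_⟩, fun v => ?_, fun v k => ?_⟩
  · by_cases h : a ∈ M
    · rw [cM a h, cM _ (hM a h)]
    · have h' : a.swap ∉ M := fun e => h (by simpa using hM _ e)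
      have hn : a ∈ E \ M := mem_sdiff.2 ⟨ha, h⟩
      simp only [c, if_neg h, if_neg h', (hρ a hn).1, (hl a hn).1]
  · simp only [c]; split_ifs <;> omega
  · simp only [c]; split_ifs <;> omega
  · have e0 : 2 * ((∑ b ∈ E.filter (fun b => b.1 = v), c b : ℕ) : ℤ) =
        sm E (fun a => 2 * (c a : ℤ)) v := by
      unfold sm sg
      push_cast
      rw [mul_sum]
    have e1 : sm M (fun a => 2 * (c a : ℤ)) v = 6 * deg M v := by
      rw [ma_congr (g := fun _ => 6) fun a ha => by simp [cM a ha]]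
      simp [sm, sg, deg, dg, mul_comm]
    have e2 : sm (E \ M) (fun a => 2 * (c a : ℤ)) v =
        6 * deg (E \ M) v + 3 * sm (E \ M) lam v + sm (E \ M) ρ v := by
      rw [ma_congr cN]
      simp [sm, sg, deg, dg, mul_comm, sum_add_distrib, mul_sum]
    have e3 : (deg (E \ M) v : ℤ) + deg M v = deg E v := by exact_mod_cast dg_sdiff _ hME v
    rw [e0, ma_split hME, e1, e2, ← e3]
    ring
  · have e3 : deg (E \ M) v + deg M v = deg E v := dg_sdiff _ hME v
    by_cases hk : k = 3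
    · have : (E.filter fun b => c b = k) ⊆ M := fun a ha => by
        rw [mem_filter] at ha
        by_contra h
        have h1 := cN a (mem_sdiff.2 ⟨ha.1, h⟩)
        have h2 := (hρ a (mem_sdiff.2 ⟨ha.1, h⟩)).2
        rw [ha.2, hk] at h1
        omega
      have h1 := dg_mono Prod.fst this v
      have h2 := hload v
      simp only [deg] at *
      omega
    · let r : ℤ := if k = 5 ∨ k = 2 then 1 else -1
      have hr : r = 1 ∨ r = -1 := by simp only [r]; split_ifs <;> simp
      have hin : ∀ a ∈ E.filter fun b => c b = k, a ∈ E \ M ∧ ρ a = r ∧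
          2 * (k : ℤ) = 6 + 3 * lam a + r := fun a ha => by
        rw [mem_filter] at ha
        have hn : a ∈ E \ M := mem_sdiff.2 ⟨ha.1, fun h => hk (ha.2 ▸ cM a h)⟩
        have h1 := cN a hn
        have h2 := (hρ a hn).2
        have h3 := (hl a hn).2
        rw [ha.2] at h1
        have : ρ a = r := by simp only [r]; split_ifs <;> omega
        exact ⟨hn, this, this ▸ h1⟩
      have hc := ma_cls hρ hr v
      rcases hmaj v r hr with h | ⟨h, x, y, hx, hy, h1, h2, h3⟩
      · have := dg_mono Prod.fst (D := E.filter fun b => c b = k)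
          (D' := (E \ M).filter fun a => ρ a = r)
          (fun a ha => mem_filter.2 ⟨(hin a ha).1, (hin a ha).2.1⟩) v
        simp only [deg] at *
        omega
      · obtain ⟨z, hz, hz1, hz2⟩ : ∃ z, (v, z) ∈ E \ M ∧ ρ (v, z) = r ∧
            (v, z) ∉ E.filter fun b => c b = k := by
          by_cases e : (v, x) ∈ E.filter fun b => c b = k
          · refine ⟨y, hy, h2, fun e' => h3 ?_⟩
            have := (hin _ e).2.2
            have := (hin _ e').2.2
            omega
          · exact ⟨x, hx, h1, e⟩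
        have h4 := dg_mono Prod.fst (D := insert (v, z) (E.filter fun b => c b = k))
          (D' := (E \ M).filter fun a => ρ a = r) (fun a ha => by
            rcases mem_insert.1 ha with rfl | ha
            · exact mem_filter.2 ⟨hz, hz1⟩
            · exact mem_filter.2 ⟨(hin a ha).1, (hin a ha).2.1⟩) v
        rw [dg_insert _ hz2, if_pos rfl] at h4
        simp only [deg] at *
        omega

theorem colouring {E : Finset (V × V)} (hE : Sys E Prod.fst) (hmin : ∀ v, 8 ≤ deg E v) :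
    ∃ c : V × V → ℕ, (∀ a ∈ E, c a.swap = c a ∧ 1 ≤ c a ∧ c a ≤ 5) ∧
      (∀ a ∈ E, ∑ b ∈ E.filter (fun b => b.1 = a.1), c b ≠
        ∑ b ∈ E.filter (fun b => b.1 = a.2), c b) ∧
      ∀ v k, 2 * deg (E.filter fun b => c b = k) v ≤ deg E v := by
  classical
  obtain ⟨S, F, hS, halg⟩ := algebra hE hmin
  obtain ⟨M0, h0, hT, hSS⟩ := init hS
  obtain ⟨M1, h1, hg1⟩ := opening hS h0 hT hSS
  obtain ⟨M, hM, hg, hsat⟩ := saturate hS h1 hg1
  obtain ⟨ρ, hρ, hρS, hρT, hneedy⟩ := small_sign hS hM hg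
  choose! x y hxy using hneedy
  obtain ⟨l0, hl0, hl0xy⟩ := static_sign (E \ M)
    (fun a ha e => hE.nl a (mem_sdiff.1 ha).1 e.symm) x y (univ.filter fun t => Needy E S M t)
    (fun t ht => by
      obtain ⟨a1, a2, a3, -⟩ := hxy t (mem_filter.1 ht).2
      exact ⟨a1, (mem_sdiff.1 a2).1, (mem_sdiff.1 a3).1⟩)
    (fun B hB hne => hsat B hne fun t ht => (mem_filter.1 (hB ht)).2)
  obtain ⟨l, hl, hsep⟩ := halg fun v =>
    sm (E \ M) ρ v + 6 * deg E v + 3 * sm ((E \ M) \ F) l0 v
  have hME : M ⊆ E := hM.sub.trans sdiff_subset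
  have hFN : F ⊆ E \ M := fun a ha =>
    mem_sdiff.2 ⟨(mem_cut.1 (hS.sub ha)).1, fun h => (mem_sdiff.1 (hM.sub h)).2 ha⟩
  let lam : V × V → ℤ := fun a => if a ∈ F then l a else l0 a
  have hlam : Sgn (E \ M) lam := fun a _ => by
    by_cases h : a ∈ F
    · simp only [lam, if_pos h, if_pos (hS.syF a h)]
      exact hl a h
    · have h' : a.swap ∉ F := fun e => h (by simpa using hS.syF _ e)
      simp only [lam, if_neg h, if_neg h']
      exact hl0 a
  have hsum : ∀ v, sm (E \ M) lam v = sm ((E \ M) \ F) l0 v + sm F l v := fun v => by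
    rw [ma_split hFN, ma_congr (g := l0) fun a ha => if_neg (mem_sdiff.1 ha).2,
      ma_congr (f := lam) (g := l) fun a ha => if_pos ha]
  obtain ⟨c, hc1, hc2, hc3⟩ := ma_core hME hM.sy hρ hlam hM.load fun v r hr => by
    by_cases hv : v ∈ S
    · left
      rw [hρS v hv]
      simp
    have hR := hρT v hv
    by_cases hn : Needy E S M v
    · by_cases hp : r * sm (E \ M) ρ v ≤ 0
      · left
        omega
      obtain ⟨-, a2, a3, a4, a5⟩ := hxy v hn
      have a6 := (hρ _ (mem_sdiff.1 a2).1).2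
      have a7 : ρ (v, x v) = r := by
        rcases hr with rfl | rfl <;> rcases a6 with e | e <;> rw [e] at a5 ⊢ <;> omega
      refine Or.inr ⟨by rcases hr with rfl | rfl <;> omega, x v, y v, (mem_sdiff.1 a2).1,
        (mem_sdiff.1 a3).1, a7, a4 ▸ a7, ?_⟩
      simp only [lam, if_neg (mem_sdiff.1 a2).2, if_neg (mem_sdiff.1 a3).2]
      exact hl0xy v (mem_filter.2 ⟨mem_univ _, hn⟩)
    · left
      have e3 : deg (E \ M) v + deg M v = deg E v := dg_sdiff _ hME v
      have e4 := ma_cls hρ hr v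
      have e5 : ¬ (deg M v = 0 ∨ (deg M v = 1 ∧ deg E v % 2 = 1)) := fun e => hn ⟨hv, e⟩
      rcases hr with rfl | rfl <;> omega
  refine ⟨c, hc1, fun a ha e => ?_, hc3⟩
  have e1 := hc2 a.1
  have e2 := hc2 a.2
  rw [e, e2, hsum, hsum] at e1
  by_cases hu : a.1 ∈ S ↔ a.2 ∈ S
  · exact hsep a (mem_unc.2 ⟨ha, hu⟩) (by linarith)
  · by_cases h : a.1 ∈ S
    · have := hρS _ h
      have := hρT a.2 fun h' => hu ⟨fun _ => h', fun _ => h⟩
      omega
    · have := hρT _ h
      have := hρS a.2 (by by_contra h'; exact hu ⟨fun e => (h e).elim, fun e => (h' e).elim⟩)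
      omega

theorem main (G : SimpleGraph V) [DecidableRel G.Adj] (hG : ∀ v, 8 ≤ G.degree v) :
    ∃ c : Sym2 V → ℕ, (∀ e ∈ G.edgeSet, 1 ≤ c e ∧ c e ≤ 5) ∧
      (∀ u v, G.Adj u v →
        ∑ w ∈ G.neighborFinset u, c s(u, w) ≠ ∑ w ∈ G.neighborFinset v, c s(v, w)) ∧
      ∀ v a, 2 * ((G.neighborFinset v).filter fun w => c s(v, w) = a).card ≤ G.degree v := by
  let E : Finset (V × V) := univ.filter fun a => G.Adj a.1 a.2
  have mE : ∀ a : V × V, a ∈ E ↔ G.Adj a.1 a.2 := fun a => by simp [E]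
  have hE : Sys E Prod.fst :=
    ⟨fun a ha => (mE _).2 ((mE a).1 ha).symm, fun a ha => ((mE a).1 ha).ne'⟩
  have hf : ∀ v, E.filter (fun b => b.1 = v) =
      (G.neighborFinset v).map ⟨fun w => (v, w), fun _ _ h => (Prod.ext_iff.1 h).2⟩ := fun v => by
    ext ⟨p, q⟩
    simp only [mem_filter, mE, mem_map, SimpleGraph.mem_neighborFinset]
    constructor
    · rintro ⟨h, rfl⟩
      exact ⟨q, h, rfl⟩
    · rintro ⟨w, h, e⟩
      obtain ⟨rfl, rfl⟩ : v = p ∧ w = q := Prod.mk.inj e
      exact ⟨h, rfl⟩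
  have hd : ∀ v, deg E v = G.degree v := fun v => by
    unfold deg dg
    rw [hf, card_map, SimpleGraph.card_neighborFinset_eq_degree]
  obtain ⟨c, h1, h2, h3⟩ := colouring hE fun v => (hd v).symm ▸ hG v
  let c' : Sym2 V → ℕ := Sym2.lift ⟨fun u w => max (c (u, w)) (c (w, u)), fun _ _ => max_comm _ _⟩
  have hc : ∀ u w, G.Adj u w → c' s(u, w) = c (u, w) := fun u w h => by
    have := (h1 (u, w) ((mE _).2 h)).1
    simp only [Prod.swap_prod_mk] at this
    simp [c', this]
  have hs : ∀ u, ∑ w ∈ G.neighborFinset u, c' s(u, w) = ∑ b ∈ E.filter (fun b => b.1 = u), c b :=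
    fun u => by
      rw [hf, sum_map]
      exact sum_congr rfl fun w hw => hc u w (by simpa using hw)
  refine ⟨c', fun e he => ?_, fun u v h => ?_, fun v a => ?_⟩
  · induction e using Sym2.ind with
    | _ u w =>
      rw [hc u w he]
      exact (h1 (u, w) ((mE _).2 he)).2
  · rw [hs, hs]
    exact h2 (u, v) ((mE _).2 h)
  · have := h3 v a
    rw [hd] at this
    refine le_trans (le_of_eq ?_) this
    unfold deg dg
    rw [filter_comm, hf, filter_map, card_map]
    congr 2
    exact filter_congr fun w hw => by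
      rw [hc v w (by simpa using hw)]
      rfl

end Pool.Agent.P.MP_0ad50f_co.D8
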