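import Pool.Agent.P.MP_0ad50f_co.D8.Defs
import Pool.Agent.P.MP_0ad50f_co.D8.MZ

/-! The conflict polynomial lies in the span of products over good sets of cut edges. -/

namespace Pool.Agent.P.MP_0ad50f_co.D8

set_option linter.unusedSectionVars false

open Finset MvPolynomial

variable {V : Type} [Fintype V] [DecidableEq V]

/-- darts of `D` with an end at `v` -/
def inc (D : Finset (V × V)) (v : V) : Finset (V × V) := D.filter fun a => a.1 = v ∨ a.2 = v

/-- one dart for every edge of `D` -/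
structure Ori (D O : Finset (V × V)) : Prop where
  sub : O ⊆ D
  one : ∀ a ∈ D, a ∈ O ↔ a.swap ∉ O

/-- the conflict polynomial -/
noncomputable def conf (U : Finset (V × V)) : MvPolynomial V ℝ := ∏ a ∈ U, (X a.1 - X a.2)

/-- product of the sums of the two ends -/
noncomputable def pr (F : Finset (V × V)) : MvPolynomial V ℝ := ∏ a ∈ F, (X a.1 + X a.2)

theorem rk_deg (F : Finset (V × V)) (α γ : V × V → ℝ) :
    (∏ a ∈ F, (Polynomial.C (α a) + Polynomial.C (γ a) * Polynomial.X)).natDegree ≤
      (F.filter fun a => γ a ≠ 0).card := by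
  refine (Polynomial.natDegree_prod_le _ _).trans ?_
  rw [card_filter]
  refine sum_le_sum fun a _ => ?_
  split_ifs with h
  · rw [add_comm]; exact Polynomial.natDegree_linear_le
  · rw [not_not.1 h]; simp

theorem rk_top {F G : Finset (V × V)} (hG : G ⊆ F) (α γ : V × V → ℝ) (h1 : ∀ a ∈ G, γ a = 1)
    (h0 : ∀ a ∈ F \ G, γ a = 0) :
    (∏ a ∈ F, (Polynomial.C (α a) + Polynomial.C (γ a) * Polynomial.X)).coeff G.card =
      ∏ a ∈ F \ G, α a := by
  have e1 : ∏ a ∈ F \ G, (Polynomial.C (α a) + Polynomial.C (γ a) * Polynomial.X) =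
      Polynomial.C (∏ a ∈ F \ G, α a) := by
    rw [map_prod]
    exact prod_congr rfl fun a ha => by rw [h0 a ha]; simp
  have e2 : ∏ a ∈ G, (Polynomial.C (α a) + Polynomial.C (γ a) * Polynomial.X) =
      ∏ a ∈ G, (Polynomial.X + Polynomial.C (α a)) :=
    prod_congr rfl fun a ha => by rw [h1 a ha, add_comm]; simp
  have hm : (∏ a ∈ G, (Polynomial.X + Polynomial.C (α a))).Monic :=
    Polynomial.monic_prod_of_monic _ _ fun a _ => Polynomial.monic_X_add_C _
  have hd : (∏ a ∈ G, (Polynomial.X + Polynomial.C (α a))).natDegree = G.card := by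
    rw [Polynomial.natDegree_prod_of_monic _ _ fun a _ => Polynomial.monic_X_add_C _]
    simp
  rw [← prod_sdiff hG, e1, e2, Polynomial.coeff_C_mul, ← hd, hm.coeff_natDegree, mul_one]

theorem rk_along_conf (U : Finset (V × V)) (x h : V → ℝ) : along (conf U) x h =
    ∏ a ∈ U, (Polynomial.C (x a.1 - x a.2) + Polynomial.C (h a.1 - h a.2) * Polynomial.X) := by
  unfold along conf
  rw [map_prod]
  refine prod_congr rfl fun a _ => ?_
  simp only [map_sub, aeval_X]
  ring

theorem rk_along_pr (F : Finset (V × V)) (x h : V → ℝ) : along (pr F) x h =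
    ∏ a ∈ F, (Polynomial.C (x a.1 + x a.2) + Polynomial.C (h a.1 + h a.2) * Polynomial.X) := by
  unfold along pr
  rw [map_prod]
  refine prod_congr rfl fun a _ => ?_
  simp only [map_add, aeval_X]
  ring

theorem rk_eval_pr (F : Finset (V × V)) (x : V → ℝ) :
    eval x (pr F) = ∏ a ∈ F, (x a.1 + x a.2) := by
  simp [pr, map_prod]

theorem rk_two {D O : Finset (V × V)} (hD : Sy D) (hO : Ori D O) (p : V × V → Prop)
    [DecidablePred p] (hp : ∀ a, p a → p a.swap) :
    (D.filter p).card = 2 * (O.filter p).card := by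
  have h1 : (D.filter p).filter (fun a => a ∈ O) = O.filter p := by
    ext a
    simp only [mem_filter]
    exact ⟨fun h => ⟨h.2, h.1.2⟩, fun h => ⟨⟨hO.sub h.1, h.2⟩, h.1⟩⟩
  have h2 : ((D.filter p).filter (fun a => ¬ a ∈ O)).card = (O.filter p).card := by
    refine card_bij (fun a _ => a.swap) (fun a ha => ?_) (fun a _ b _ e => Prod.swap_injective e)
      fun b hb => ⟨b.swap, ?_, by simp⟩
    · simp only [mem_filter] at ha ⊢
      exact ⟨by_contra fun k => ha.2 ((hO.one a ha.1.1).2 k), hp a ha.1.2⟩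
    · simp only [mem_filter] at hb ⊢
      exact ⟨⟨hD b (hO.sub hb.1), hp b hb.2⟩, (hO.one b (hO.sub hb.1)).1 hb.1⟩
  rw [← card_filter_add_card_filter_not (s := D.filter p) (fun a => a ∈ O), h1, h2, two_mul]

theorem rk_ori {E : Finset (V × V)} (hE : Sy E) (S : Finset V) : Ori (cut E S) (out E S) := by
  refine ⟨fun a ha => ?_, fun a ha => ?_⟩
  · rw [mem_out] at ha
    rw [mem_cut]
    tauto
  · rw [mem_cut] at ha
    have := hE a ha.1
    simp only [mem_out, Prod.fst_swap, Prod.snd_swap]
    tauto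

theorem rk_out_single {D : Finset (V × V)} (hD : ∀ a ∈ D, a.2 ≠ a.1) (v : V) :
    (out D {v}).card = deg D v := by
  unfold deg dg out
  congr 1
  refine filter_congr fun a ha => ?_
  simp only [mem_singleton]
  exact ⟨fun h => h.1, fun h => ⟨h, h ▸ hD a ha⟩⟩

theorem rk_inc {E : Finset (V × V)} (hE : Sys E Prod.fst) (S : Finset V) (v : V) :
    (inc (out E S) v).card = deg (cut E S) v := by
  have h1 := rk_two (hE.sy.cut S) (rk_ori hE.sy S) (fun a => a.1 = v ∨ a.2 = v)
    fun a h => h.symm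
  have h2 : ((cut E S).filter fun a => a.2 = v).card = deg (cut E S) v := by
    unfold deg dg
    refine card_bij (fun a _ => a.swap) (fun a ha => ?_) (fun a _ b _ e => Prod.swap_injective e)
      fun b hb => ⟨b.swap, ?_, by simp⟩
    · simp only [mem_filter] at ha ⊢
      exact ⟨hE.sy.cut S a ha.1, ha.2⟩
    · simp only [mem_filter] at hb ⊢
      exact ⟨hE.sy.cut S b hb.1, hb.2⟩
  rw [filter_or, card_union_of_disjoint, h2] at h1
  · unfold inc
    unfold deg dg at h1 ⊢
    omega
  · rw [disjoint_filter]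
    intro a ha k1 k2
    exact hE.nl a (mem_cut.1 ha).1 (k2.trans k1.symm)

theorem rk_fib {L : Type} [DecidableEq L] (lab : V → L) (D : Finset (V × V)) :
    (D.filter fun a => lab a.1 ≠ lab a.2).card =
      ∑ l ∈ univ.image lab, (out D (univ.filter fun v => lab v = l)).card := by
  rw [card_eq_sum_card_fiberwise (f := fun a : V × V => lab a.1) (t := univ.image lab)
    fun a _ => mem_coe.2 (mem_image_of_mem lab (mem_univ _))]
  refine sum_congr rfl fun l _ => ?_
  congr 1
  ext a
  simp only [mem_filter, mem_out, mem_univ, true_and]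
  constructor
  · rintro ⟨⟨h1, h2⟩, h3⟩
    exact ⟨h1, h3, fun k => h2 (h3.trans k.symm)⟩
  · rintro ⟨h1, h2, h3⟩
    exact ⟨⟨h1, fun k => h3 (k.symm.trans h2)⟩, h2⟩

theorem rk_key {E : Finset (V × V)} (hE : Sys E Prod.fst) (S : Finset V)
    (hmax : ∀ W, (out (unc E S) W).card ≤ (out (cut E S) W).card)
    {U : Finset (V × V)} (hU : Ori (unc E S) U) {L : Type} [DecidableEq L] (lab : V → L)
    (Y : Finset V) (hY : ∀ v ∈ Y, ∀ w, lab w = lab v → w = v) :
    ((U.filter fun a => lab a.1 ≠ lab a.2).card : ℤ) +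
      ∑ v ∈ Y, (((deg (cut E S) v - deg (unc E S) v) / 2 : ℕ) : ℤ) ≤
      ((out E S).filter fun a => lab a.1 ≠ lab a.2).card := by
  have h1 := rk_two (hE.sy.cut S) (rk_ori hE.sy S) (fun a => lab a.1 ≠ lab a.2)
    fun a h => h.symm
  have h2 := rk_two (hE.sy.unc S) hU (fun a => lab a.1 ≠ lab a.2) fun a h => h.symm
  rw [rk_fib] at h1 h2
  let d : L → ℤ := fun l => ((out (cut E S) (univ.filter fun v => lab v = l)).card : ℤ) -
    (out (unc E S) (univ.filter fun v => lab v = l)).card
  have h3 : ∑ l ∈ Y.image lab, d l ≤ ∑ l ∈ univ.image lab, d l :=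
    sum_le_sum_of_subset_of_nonneg (image_subset_image (subset_univ _)) fun l _ _ =>
      sub_nonneg.2 (Int.ofNat_le.2 (hmax _))
  rw [sum_image fun v _ w hw e => hY w hw v e] at h3
  have h4 : ∑ v ∈ Y, 2 * (((deg (cut E S) v - deg (unc E S) v) / 2 : ℕ) : ℤ) ≤
      ∑ v ∈ Y, d (lab v) := by
    refine sum_le_sum fun v hv => ?_
    have e : (univ.filter fun w => lab w = lab v) = {v} := by
      ext w
      simp only [mem_filter, mem_univ, true_and, mem_singleton]
      exact ⟨hY v hv w, fun k => k ▸ rfl⟩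
    have k1 := rk_out_single (D := cut E S) (fun a ha => hE.nl a (mem_cut.1 ha).1) v
    have k2 := rk_out_single (D := unc E S) (fun a ha => hE.nl a (mem_unc.1 ha).1) v
    have k3 := hmax {v}
    simp only [d, e]
    omega
  have h5 : ∑ l ∈ univ.image lab, d l =
      2 * (((out E S).filter fun a => lab a.1 ≠ lab a.2).card : ℤ) -
        2 * ((U.filter fun a => lab a.1 ≠ lab a.2).card : ℤ) := by
    simp only [d]
    rw [sum_sub_distrib, ← Nat.cast_sum, ← Nat.cast_sum, h1, h2]
    push_cast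
    ring
  rw [← mul_sum] at h4
  omega

/-- the darts that are counted for a pair -/
def rk_set (K A : Finset (V × V)) (Y : Finset V) : Finset (V × V) :=
  K.filter fun a => a ∈ A ∨ a.1 ∈ Y ∨ a.2 ∈ Y

/-- the rank function -/
def rk_r (K : Finset (V × V)) (q : V → ℤ) (A : Finset (V × V)) : ℤ :=
  (univ : Finset (Finset V)).inf' ⟨∅, mem_univ _⟩ fun Y => ((rk_set K A Y).card : ℤ) - ∑ v ∈ Y, q v

theorem rk_le (K : Finset (V × V)) (q : V → ℤ) (A : Finset (V × V)) (Y : Finset V) :
    rk_r K q A ≤ ((rk_set K A Y).card : ℤ) - ∑ v ∈ Y, q v :=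
  inf'_le (fun Y => ((rk_set K A Y).card : ℤ) - ∑ v ∈ Y, q v) (mem_univ Y)

theorem rk_ex (K : Finset (V × V)) (q : V → ℤ) (A : Finset (V × V)) :
    ∃ Y, rk_r K q A = ((rk_set K A Y).card : ℤ) - ∑ v ∈ Y, q v := by
  obtain ⟨Y, -, h⟩ := exists_mem_eq_inf' (s := (univ : Finset (Finset V))) ⟨∅, mem_univ _⟩
    fun Y => ((rk_set K A Y).card : ℤ) - ∑ v ∈ Y, q v
  exact ⟨Y, h⟩

theorem rk_isRank (K : Finset (V × V)) (q : V → ℤ)
    (h0 : ∀ Y, ∑ v ∈ Y, q v ≤ (rk_set K ∅ Y).card) : IsRank (rk_r K q) := by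
  refine ⟨le_antisymm ?_ ?_, fun A B hAB => ?_, fun A e => ?_, fun A B => ?_⟩
  · simpa [rk_set] using rk_le K q ∅ ∅
  · obtain ⟨Y, hY⟩ := rk_ex K q ∅
    have := h0 Y
    omega
  · obtain ⟨Y, hY⟩ := rk_ex K q B
    have h1 := rk_le K q A Y
    have h2 : (rk_set K A Y).card ≤ (rk_set K B Y).card := card_le_card fun a ha => by
      simp only [rk_set, mem_filter] at ha ⊢
      exact ⟨ha.1, ha.2.imp_left fun k => hAB k⟩
    omega
  · obtain ⟨Y, hY⟩ := rk_ex K q A
    have h1 := rk_le K q (insert e A) Y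
    have h2 : (rk_set K (insert e A) Y).card ≤ (insert e (rk_set K A Y)).card :=
      card_le_card fun a ha => by
        simp only [rk_set, mem_filter, mem_insert] at ha ⊢
        tauto
    have h3 := card_insert_le e (rk_set K A Y)
    omega
  · obtain ⟨Y, hY⟩ := rk_ex K q A
    obtain ⟨Z, hZ⟩ := rk_ex K q B
    have h1 := rk_le K q (A ∪ B) (Y ∪ Z)
    have h2 := rk_le K q (A ∩ B) (Y ∩ Z)
    have h3 : (rk_set K (A ∪ B) (Y ∪ Z)).card ≤ (rk_set K A Y ∪ rk_set K B Z).card :=
      card_le_card fun a ha => by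
        simp only [rk_set, mem_filter, mem_union] at ha ⊢
        tauto
    have h4 : (rk_set K (A ∩ B) (Y ∩ Z)).card ≤ (rk_set K A Y ∩ rk_set K B Z).card :=
      card_le_card fun a ha => by
        simp only [rk_set, mem_filter, mem_inter] at ha ⊢
        tauto
    have h5 := card_union_add_card_inter (rk_set K A Y) (rk_set K B Z)
    have h6 : ∑ v ∈ Y ∪ Z, q v + ∑ v ∈ Y ∩ Z, q v = ∑ v ∈ Y, q v + ∑ v ∈ Z, q v :=
      sum_union_inter
    omega

theorem rk_step (K U : Finset (V × V)) (hK : ∀ a ∈ K, a.1 ≠ a.2) (I : Finset (V × V) → Prop)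
    (hI : ∀ F, I F → F ⊆ K) (h : conf U ∈ Submodule.span ℝ {g | ∃ F, I F ∧ g = pr F}) {v : V}
    (hv : (inc U v).card < (inc K v).card) :
    conf U ∈ Submodule.span ℝ {g | ∃ F, (I F ∧ ¬ inc K v ⊆ F) ∧ g = pr F} := by
  let e : V → ℝ := fun w => if w = v then 1 else 0
  have key : ∀ g ∈ Submodule.span ℝ {g | ∃ F, I F ∧ g = pr F},
      ∃ g' ∈ Submodule.span ℝ {g | ∃ F, (I F ∧ ¬ inc K v ⊆ F) ∧ g = pr F}, ∀ x,
        eval x g = eval x g' + (along g x e).coeff (inc K v).card * eval x (pr (inc K v)) := by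
    intro g hg
    induction hg using Submodule.span_induction with
    | mem g hg =>
      obtain ⟨F, hF, rfl⟩ := hg
      by_cases hs : inc K v ⊆ F
      · refine ⟨0, Submodule.zero_mem _, fun x => ?_⟩
        rw [rk_along_pr, rk_top hs, rk_eval_pr, rk_eval_pr, prod_sdiff hs, map_zero, zero_add]
        · intro a ha
          obtain ⟨k1, k2⟩ := mem_filter.1 ha
          have := hK a k1
          rcases k2 with k2 | k2
          · simp [e, k2, (k2 ▸ this : v ≠ a.2).symm]
          · simp [e, k2, (k2 ▸ this : a.1 ≠ v)]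
        · intro a ha
          obtain ⟨k1, k2⟩ := mem_sdiff.1 ha
          have k3 : ¬ (a.1 = v ∨ a.2 = v) := fun k => k2 (mem_filter.2 ⟨hI F hF k1, k⟩)
          rw [not_or] at k3
          simp [e, k3.1, k3.2]
      · refine ⟨pr F, Submodule.subset_span ⟨F, ⟨hF, hs⟩, rfl⟩, fun x => ?_⟩
        rw [rk_along_pr, Polynomial.coeff_eq_zero_of_natDegree_lt, zero_mul, add_zero]
        refine (rk_deg _ _ _).trans_lt (card_lt_card ⟨fun a ha => ?_, fun k => hs fun a ha =>
          (mem_filter.1 (k ha)).1⟩)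
        obtain ⟨k1, k2⟩ := mem_filter.1 ha
        refine mem_filter.2 ⟨hI F hF k1, by_contra fun k3 => k2 ?_⟩
        rw [not_or] at k3
        simp [e, k3.1, k3.2]
    | zero => exact ⟨0, Submodule.zero_mem _, fun x => by simp [along]⟩
    | add f g _ _ hf hg =>
      obtain ⟨f', k1, k2⟩ := hf
      obtain ⟨g', k3, k4⟩ := hg
      refine ⟨f' + g', Submodule.add_mem _ k1 k3, fun x => ?_⟩
      have : along (f + g) x e = along f x e + along g x e := map_add _ _ _
      rw [this, map_add, map_add, Polynomial.coeff_add, k2, k4]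
      ring
    | smul c f _ hf =>
      obtain ⟨f', k1, k2⟩ := hf
      refine ⟨c • f', Submodule.smul_mem _ c k1, fun x => ?_⟩
      have : along (c • f) x e = c • along f x e := map_smul _ _ _
      rw [this, smul_eval, smul_eval, Polynomial.coeff_smul, k2, smul_eq_mul]
      ring
  obtain ⟨g', k1, k2⟩ := key _ h
  have : conf U = g' := by
    refine MvPolynomial.funext fun x => ?_
    rw [k2, rk_along_conf, Polynomial.coeff_eq_zero_of_natDegree_lt, zero_mul, add_zero]
    refine ((rk_deg _ _ _).trans (card_le_card fun a ha => ?_)).trans_lt hv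
    obtain ⟨k3, k4⟩ := mem_filter.1 ha
    refine mem_filter.2 ⟨k3, by_contra fun k5 => k4 ?_⟩
    rw [not_or] at k5
    simp [e, k5.1, k5.2]
  exact this ▸ k1

theorem span_rank {E : Finset (V × V)} (hE : Sys E Prod.fst) (S : Finset V)
    (hmax : ∀ W, (out (unc E S) W).card ≤ (out (cut E S) W).card)
    {U : Finset (V × V)} (hU : Ori (unc E S) U) :
    conf U ∈ Submodule.span ℝ {g | ∃ F ⊆ out E S, (∀ v,
      (deg (cut E S) v - deg (unc E S) v) / 2 + (inc F v).card ≤ deg (cut E S) v) ∧ g = pr F} := by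
  classical
  let q : V → ℤ := fun v => (((deg (cut E S) v - deg (unc E S) v) / 2 : ℕ) : ℤ)
  let β : V × V → V → ℝ := fun a v => (if v = a.1 then 1 else 0) + (if v = a.2 then 1 else 0)
  have hr : IsRank (rk_r (out E S) q) := by
    refine rk_isRank _ _ fun Y => ?_
    have h1 := rk_key hE S hmax hU (fun v => if v ∈ Y then some v else none) Y fun v hv w k => by
      by_cases hw : w ∈ Y <;> simp [hv, hw] at k
      exact k
    have h2 : ((out E S).filter fun a => (if a.1 ∈ Y then some a.1 else none) ≠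
        (if a.2 ∈ Y then some a.2 else none)).card ≤ (rk_set (out E S) ∅ Y).card :=
      card_le_card fun a ha => by
        obtain ⟨k1, k2⟩ := mem_filter.1 ha
        refine mem_filter.2 ⟨k1, Or.inr (by_contra fun k3 => k2 ?_)⟩
        rw [not_or] at k3
        simp [k3.1, k3.2]
    simp only [q]
    omega
  have hd : ∀ h, DegLe (conf U) h (rk_r (out E S) q (act β h)) := by
    intro h x j hj
    obtain ⟨Y, hY⟩ := rk_ex (out E S) q (act β h)
    let lab : V → V ⊕ ℝ := fun v =>
      if v ∈ Y then Sum.inl v else Sum.inr (if v ∈ S then h v else - h v)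
    have h1 := rk_key hE S hmax hU lab Y fun v hv w k => by
      by_cases hw : w ∈ Y <;> simp [lab, hv, hw] at k
      exact k
    have h2 : ((out E S).filter fun a => lab a.1 ≠ lab a.2).card ≤
        (rk_set (out E S) (act β h) Y).card :=
      card_le_card fun a ha => by
        obtain ⟨k1, k2⟩ := mem_filter.1 ha
        refine mem_filter.2 ⟨k1, by_contra fun k3 => k2 ?_⟩
        rw [not_or, not_or] at k3
        obtain ⟨-, k4, k5⟩ := mem_out.1 k1
        have k6 : h a.1 + h a.2 = 0 := by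
          simpa [act, β, add_mul, sum_add_distrib] using k3.1
        simp only [lab, k3.2.1, k3.2.2, k4, k5, if_true, if_false]
        rw [eq_neg_of_add_eq_zero_left k6]
    have h3 : (U.filter fun a => h a.1 - h a.2 ≠ 0).card ≤
        (U.filter fun a => lab a.1 ≠ lab a.2).card :=
      card_le_card fun a ha => by
        obtain ⟨k1, k2⟩ := mem_filter.1 ha
        refine mem_filter.2 ⟨k1, fun k3 => k2 (sub_eq_zero.2 ?_)⟩
        have k4 := (mem_unc.1 (hU.sub k1)).2
        by_cases a1 : a.1 ∈ Y <;> by_cases a2 : a.2 ∈ Y <;> by_cases a3 : a.2 ∈ S <;>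
          simp [lab, a1, a2, a3, k4] at k3
        all_goals first | exact k3 | rw [k3]
    rw [rk_along_conf]
    refine Polynomial.coeff_eq_zero_of_natDegree_lt ((rk_deg _ _ _).trans_lt ?_)
    simp only [q] at hY hj
    omega
  refine Submodule.span_mono ?_ (mz β _ hr _ hd)
  rintro g ⟨F, hF, rfl⟩
  have hFK : F ⊆ out E S := by
    have h1 := rk_le (out E S) q F ∅
    have h2 : rk_set (out E S) F ∅ ⊆ F := fun a ha => by
      simpa using (mem_filter.1 ha).2
    have h3 : rk_set (out E S) F ∅ = F := eq_of_subset_of_card_le h2 (by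
      rw [sum_empty] at h1
      omega)
    exact h3 ▸ filter_subset _ _
  refine ⟨F, hFK, fun v => ?_, prod_congr rfl fun a _ => ?_⟩
  · have h1 := rk_le (out E S) q F {v}
    have h2 : rk_set (out E S) F {v} = F ∪ inc (out E S) v := by
      ext a
      have := @hFK a
      simp only [rk_set, inc, mem_filter, mem_union, mem_singleton]
      tauto
    have h3 : inc F v = F ∩ inc (out E S) v := by
      ext a
      have := @hFK a
      simp only [inc, mem_filter, mem_inter]
      tauto
    have h4 := card_union_add_card_inter F (inc (out E S) v)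
    have h5 := rk_inc hE S v
    rw [h2, sum_singleton, hF] at h1
    rw [h3]
    simp only [q] at h1
    omega
  · simp [lin, β, add_mul, sum_add_distrib, apply_ite C, ite_mul]

/-- Terms that contain all darts of `K` at a vertex `v` can be dropped when the conflict
polynomial has fewer factors at `v`. -/
theorem span_drop (K U : Finset (V × V)) (hK : ∀ a ∈ K, a.1 ≠ a.2) (I : Finset (V × V) → Prop)
    (hI : ∀ F, I F → F ⊆ K) (h : conf U ∈ Submodule.span ℝ {g | ∃ F, I F ∧ g = pr F}) :
    conf U ∈ Submodule.span ℝ {g | ∃ F, I F ∧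
      (∀ v, (inc U v).card < (inc K v).card → ¬ inc K v ⊆ F) ∧ g = pr F} := by
  have key : ∀ T : Finset V, conf U ∈ Submodule.span ℝ {g | ∃ F, (I F ∧
      ∀ v ∈ T, (inc U v).card < (inc K v).card → ¬ inc K v ⊆ F) ∧ g = pr F} := by
    intro T
    induction T using Finset.induction_on with
    | empty => simpa using h
    | insert w T _ ih =>
      by_cases hw : (inc U w).card < (inc K w).card
      · refine Submodule.span_mono ?_ (rk_step K U hK _ (fun F k => hI F k.1) ih hw)
        rintro g ⟨F, ⟨⟨k1, k2⟩, k3⟩, rfl⟩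
        refine ⟨F, ⟨k1, fun v hv => ?_⟩, rfl⟩
        rcases mem_insert.1 hv with rfl | hv
        · exact fun _ => k3
        · exact k2 v hv
      · refine Submodule.span_mono ?_ ih
        rintro g ⟨F, ⟨k1, k2⟩, rfl⟩
        refine ⟨F, ⟨k1, fun v hv => ?_⟩, rfl⟩
        rcases mem_insert.1 hv with rfl | hv
        · exact fun k => absurd k hw
        · exact k2 v hv
  refine Submodule.span_mono ?_ (key univ)
  rintro g ⟨F, ⟨k1, k2⟩, rfl⟩
  exact ⟨F, k1, fun v => k2 v (mem_univ v), rfl⟩

end Pool.Agent.P.MP_0ad50f_co.D8
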