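import Pool.Agent.P.MP_0ad50f_co.D8.Rho

/-! A balanced half of the graph inside the first side. -/

namespace Pool.Agent.P.MP_0ad50f_co.D8

set_option linter.unusedSectionVars false

open Finset

variable {V : Type} [Fintype V] [DecidableEq V]

theorem rd_half {D : Finset (V × V)} {f : V × V → ℤ} (h : Sgn D f) (v : V) :
    2 * (deg (D.filter fun a => f a = 1) v : ℤ) = deg D v + sm D f v := by
  unfold deg sm dg sg
  rw [filter_comm, card_filter, card_eq_sum_ones (D.filter fun a => a.1 = v)]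
  push_cast
  rw [mul_sum, ← sum_add_distrib]
  refine sum_congr rfl fun a ha => ?_
  rcases (h a (mem_filter.1 ha).1).2 with e | e <;> simp [e]

theorem rd_union {P A : Finset (V × V)} (h : Disjoint P A) (v : V) :
    deg (P ∪ A) v = deg P v + deg A v := by
  unfold deg dg
  rw [filter_union, card_union_of_disjoint (disjoint_filter_filter h)]

theorem rd_inside (U : Finset (V × V)) {S : Finset V} {s : V} (hs : s ∈ S) :
    deg (U.filter fun a => a.1 ∈ S) s = deg U s := by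
  unfold deg dg
  rw [filter_filter]
  exact congrArg card (filter_congr fun a _ => ⟨fun e => e.2, fun e => ⟨e ▸ hs, e⟩⟩)

theorem rd_match {H : Finset (V × V)} (hH : Sys H Prod.fst) (Q : V → Prop) :
    ∃ P ⊆ H, Sy P ∧ (∀ v, deg P v ≤ 1) ∧ (∀ v, 0 < deg P v → Q v) ∧
      ∀ a ∈ H, Q a.1 → Q a.2 → 0 < deg P a.1 ∨ 0 < deg P a.2 := by
  classical
  obtain ⟨P, hP, hmax⟩ := exists_max_image
    (H.powerset.filter fun P => Sy P ∧ (∀ v, deg P v ≤ 1) ∧ ∀ a ∈ P, Q a.1) card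
    ⟨∅, by simp [Sy, dg]⟩
  obtain ⟨h1, h2, h3, h4⟩ := mem_filter.1 hP
  rw [mem_powerset] at h1
  refine ⟨P, h1, h2, h3, fun v hv => ?_, fun a ha q1 q2 => ?_⟩
  · obtain ⟨a, ha, rfl⟩ := dg_pos.1 hv
    exact h4 a ha
  · by_contra hc
    rw [not_or] at hc
    have n1 : a ∉ P := fun e => hc.1 (dg_pos.2 ⟨a, e, rfl⟩)
    have n2 : a.swap ∉ P := fun e => hc.2 (dg_pos.2 ⟨a.swap, e, rfl⟩)
    have n3 : a.2 ≠ a.1 := hH.nl a ha
    have h5 := hmax (add P a) (mem_filter.2 ⟨mem_powerset.2 fun b hb => ?_, h2.add a,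
      fun v => ?_, fun b hb => ?_⟩)
    · have h6 : P ⊂ add P a :=
        ⟨fun b hb => mem_add.2 (Or.inr (Or.inr hb)), fun e => n1 (e (mem_add.2 (Or.inl rfl)))⟩
      exact absurd (card_lt_card h6) (not_lt.2 h5)
    · rcases mem_add.1 hb with rfl | rfl | hb
      · exact ha
      · exact hH.sy a ha
      · exact h1 hb
    · have h6 := dg_add Prod.fst n1 n2 (hH.ne_swap ha) v
      have h7 := h3 v
      change deg (add P a) v = deg P v + (if a.1 = v then 1 else 0) +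
        (if a.2 = v then 1 else 0) at h6
      rw [h6]
      split_ifs with e1 e2 e2
      · exact absurd (e2.trans e1.symm) n3
      · have := hc.1
        rw [e1] at this
        omega
      · have := hc.2
        rw [e2] at this
        omega
      · omega
    · rcases mem_add.1 hb with rfl | rfl | hb
      · exact q1
      · exact q2
      · exact h4 b hb

theorem red {E F : Finset (V × V)} {S : Finset V} (h : Setup E S F) :
    ∃ R ⊆ unc E S, Sy R ∧ (∀ a ∈ R, a.1 ∈ S) ∧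
      (∀ s ∈ S, 9 ≤ deg E s → deg R s + 2 ≤ deg E s / 2) ∧
      (∀ s ∈ S, deg E s % 2 = 1 → deg (cut E S) s ≤ deg (unc E S) s + 5 → 1 ≤ deg R s) ∧
      (∀ a ∈ R, deg E a.1 % 2 = 1 → deg (cut E S) a.1 ≤ deg (unc E S) a.1 + 3 →
        deg (cut E S) a.2 = deg (unc E S) a.2 + 2 → 2 ≤ deg R a.1 ∨ 2 ≤ deg R a.2) := by
  obtain ⟨H, hH⟩ : ∃ H, H = (unc E S).filter fun a => a.1 ∈ S := ⟨_, rfl⟩
  have mH : ∀ a, a ∈ H ↔ a ∈ unc E S ∧ a.1 ∈ S := fun a => by rw [hH, mem_filter]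
  have sH : Sys H Prod.fst := h.sys.mono (fun a ha => (mem_unc.1 ((mH a).1 ha).1).1) fun a ha =>
    (mH _).2 ⟨h.sys.sy.unc S a ((mH a).1 ha).1, (mem_unc.1 ((mH a).1 ha).1).2.1 ((mH a).1 ha).2⟩
  obtain ⟨P, hPH, hPs, hP1, hPQ, hPm⟩ :=
    rd_match sH fun v => deg (unc E S) v = 3 ∧ deg E v ≤ 9
  have sD : Sys (H \ P) Prod.fst := sH.mono sdiff_subset (sH.sy.sdiff hPs)
  obtain ⟨f, hf, hb⟩ := rho_bal sD
    (fun v => if deg E v = 9 ∧ 3 ≤ deg (unc E S) v then -1 else 1)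
    (fun v => by split_ifs <;> simp)
  obtain ⟨A, hA⟩ : ∃ A, A = (H \ P).filter fun a => f a = 1 := ⟨_, rfl⟩
  have mA : ∀ a, a ∈ A ↔ a ∈ H \ P ∧ f a = 1 := fun a => by rw [hA, mem_filter]
  have hd : Disjoint P A := disjoint_left.2 fun a ha hb => (mem_sdiff.1 ((mA a).1 hb).1).2 ha
  have hRH : P ∪ A ⊆ H := union_subset hPH fun a ha => (mem_sdiff.1 ((mA a).1 ha).1).1
  have key : ∀ s ∈ S, deg (P ∪ A) s = deg P s + deg A s ∧
      deg (H \ P) s + deg P s = deg (unc E S) s ∧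
      deg (cut E S) s + deg (unc E S) s = deg E s ∧
      deg (unc E S) s + 1 ≤ deg (cut E S) s ∧ 8 ≤ deg E s ∧ deg P s ≤ 1 ∧
      (deg P s = 0 ∨ (deg (unc E S) s = 3 ∧ deg E s ≤ 9)) ∧
      (2 * deg A s = deg (H \ P) s + 1 ∨ 2 * deg A s + 1 = deg (H \ P) s ∨
        2 * deg A s = deg (H \ P) s ∨
        ((∀ w, (s, w) ∈ H \ P → deg (H \ P) w % 2 = 0) ∧
          ((deg E s = 9 ∧ 3 ≤ deg (unc E S) s ∧ 2 * deg A s + 2 = deg (H \ P) s) ∨
            (¬ (deg E s = 9 ∧ 3 ≤ deg (unc E S) s) ∧ 2 * deg A s = deg (H \ P) s + 2)))) := by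
    intro s hs
    have e1 := rd_half hf s
    rw [← hA] at e1
    refine ⟨rd_union hd s, ?_, dg_cut_unc E S Prod.fst s, h.lt s hs, h.mind s, hP1 s,
      (Nat.eq_zero_or_pos _).imp_right (hPQ s), ?_⟩
    · rw [← rd_inside (unc E S) hs, ← hH]
      exact dg_sdiff Prod.fst hPH s
    · rcases Nat.even_or_odd (deg (H \ P) s) with e | e
      · rcases (hb s).2 e with e2 | ⟨e2, e3⟩
        · omega
        · refine Or.inr (Or.inr (Or.inr ⟨fun w hw => Nat.even_iff.1 (e3 w hw), ?_⟩))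
          by_cases c : deg E s = 9 ∧ 3 ≤ deg (unc E S) s
          · rw [if_pos c] at e2
            omega
          · rw [if_neg c] at e2
            omega
      · rcases (hb s).1 e with e2 | e2 <;> omega
  refine ⟨P ∪ A, fun a ha => ((mH a).1 (hRH ha)).1, fun a ha => ?_,
    fun a ha => ((mH a).1 (hRH ha)).2, fun s hs h9 => ?_, fun s hs h1 h2 => ?_,
    fun a ha h1 h2 h3 => ?_⟩
  · rcases mem_union.1 ha with e | e
    · exact mem_union_left _ (hPs a e)
    · obtain ⟨e1, e2⟩ := (mA a).1 e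
      exact mem_union_right _ ((mA _).2 ⟨sD.sy a e1, (hf a e1).1.trans e2⟩)
  · obtain ⟨k1, k2, k3, k4, k5, k6, k7, k8 | k8 | k8 | ⟨-, k8⟩⟩ := key s hs <;> omega
  · obtain ⟨k1, k2, k3, k4, k5, k6, k7, k8 | k8 | k8 | ⟨-, k8⟩⟩ := key s hs <;> omega
  · have aH := hRH ha
    by_contra hc
    obtain ⟨l1, l2, l3, l4, l5, l6, l7, l8⟩ := key a.2 ((mH _).1 (sH.sy a aH)).2
    have b1 : deg P a.2 = 0 ∧ deg (unc E S) a.2 = 3 ∧ deg E a.2 = 8 := by
      rcases l8 with l8 | l8 | l8 | ⟨-, l8⟩ <;> omega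
    have aD : a ∈ H \ P := mem_sdiff.2 ⟨aH, fun e => by
      have : 0 < deg P a.2 := dg_pos.2 ⟨a.swap, hPs a e, rfl⟩
      omega⟩
    obtain ⟨k1, k2, k3, k4, k5, k6, k7, k8⟩ := key a.1 ((mH _).1 aH).2
    have b2 : deg P a.1 = 0 ∧ deg (unc E S) a.1 = 3 ∧ deg E a.1 ≤ 9 := by
      rcases k8 with k8 | k8 | k8 | ⟨k8, -⟩
      · omega
      · omega
      · omega
      · have := k8 a.2 aD
        omega
    have := hPm a aH b2.2 ⟨b1.2.1, by omega⟩
    omega

end Pool.Agent.P.MP_0ad50f_co.D8
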