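import Pool.Agent.P.MP_0ad50f_co.D8.Defs

/-! Parity, the sign lemma and its balanced form. -/

namespace Pool.Agent.P.MP_0ad50f_co.D8

set_option linter.unusedSectionVars false

open Finset

variable {V N : Type} [DecidableEq V] [DecidableEq N]

theorem rho_card_even {K : Finset (V × V)} (hs : Sy K) (hn : ∀ a ∈ K, a.swap ≠ a) :
    (K.card : ZMod 2) = 0 := by
  have h : ∑ _a ∈ K, (1 : ZMod 2) = 0 :=
    Finset.sum_involution (fun a _ => a.swap) (fun _ _ => by decide) (fun a ha _ => hn a ha)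
      (fun a ha => hs a ha) (fun a _ => Prod.swap_swap a)
  simpa using h

/-- If every node that `nd b` reaches has even degree, the edge `b` is not a bridge. -/
theorem bridge {D : Finset (V × V)} {nd : V × V → N} (h : Sys D nd) {b : V × V} (hb : b ∈ D)
    (hev : ¬ Good D nd (nd b)) : Reach (del D b) nd (nd b.swap) (nd b) := by
  classical
  by_contra hno
  have h' : Sys (del D b) nd := h.del b
  let K : Finset (V × V) := (del D b).filter fun a => Reach (del D b) nd (nd b.swap) (nd a)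
  have hK : ∀ a, a ∈ K ↔ a ∈ del D b ∧ Reach (del D b) nd (nd b.swap) (nd a) := fun a =>
    mem_filter
  have h0 : (K.card : ZMod 2) = 0 := by
    refine rho_card_even (fun a ha => ?_) (fun a ha => h'.ne_swap ((hK a).1 ha).1)
    obtain ⟨h1, h2⟩ := (hK a).1 ha
    exact (hK _).2 ⟨h'.sy a h1, h2.trans (Reach.dart nd h1)⟩
  let T : Finset N := insert (nd b.swap) (K.image nd)
  have hT : ∀ x ∈ T, Reach (del D b) nd (nd b.swap) x := by
    intro x hx
    rcases mem_insert.1 hx with rfl | hx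
    · exact Reach.refl _ _ _
    · obtain ⟨a, ha, rfl⟩ := mem_image.1 hx
      exact ((hK a).1 ha).2
  have hc : K.card = ∑ x ∈ T, (K.filter fun a => nd a = x).card :=
    card_eq_sum_card_fiberwise (f := nd) (s := K) (t := T)
      (fun a ha => mem_coe.2 (mem_insert_of_mem (mem_image_of_mem nd (mem_coe.1 ha))))
  have hf : ∀ x ∈ T, (((K.filter fun a => nd a = x).card : ℕ) : ZMod 2) =
      if nd b.swap = x then 1 else 0 := by
    intro x hx
    have hr := hT x hx
    have e1 : (K.filter fun a => nd a = x) = (del D b).filter fun a => nd a = x := by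
      ext a
      simp only [mem_filter, hK]
      constructor
      · rintro ⟨⟨h1, _⟩, h2⟩; exact ⟨h1, h2⟩
      · rintro ⟨h1, h2⟩; exact ⟨⟨h1, h2 ▸ hr⟩, h2⟩
    have hne : nd b ≠ x := fun e => hno (e ▸ hr)
    have hd := dg_del h hb x
    rw [if_neg hne] at hd
    have he : ¬ Odd (dg D nd x) := fun ho =>
      hev ⟨x, (Reach.dart nd hb).trans (hr.mono (del_subset D b)), ho⟩
    rw [e1]
    change ((dg (del D b) nd x : ℕ) : ZMod 2) = _
    rw [Nat.not_odd_iff_even, Nat.even_iff] at he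
    split_ifs at hd ⊢ with hx'
    · exact (ZMod.natCast_eq_one_iff_odd).2 (Nat.odd_iff.2 (by omega))
    · exact (ZMod.natCast_eq_zero_iff_even).2 (Nat.even_iff.2 (by omega))
  rw [hc, Nat.cast_sum, sum_congr rfl hf, sum_ite_eq, if_pos (mem_insert_self _ _)] at h0
  exact one_ne_zero h0

/-- the types after the edge from the root `r` to `w` is deleted -/
def rho_ty (ty : N → Fin 4) (r w : N) (x : N) : Fin 4 :=
  if x = r then (if ty r = 1 then 0 else 1) else if x = w then (if ty w = 1 then 3 else 1) else ty x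

theorem rho_ty_r (ty : N → Fin 4) (r w : N) : rho_ty ty r w r = if ty r = 1 then 0 else 1 := by
  simp [rho_ty]

theorem rho_ty_w (ty : N → Fin 4) {r w : N} (h : w ≠ r) :
    rho_ty ty r w w = if ty w = 1 then 3 else 1 := by
  simp [rho_ty, h]

theorem rho_ty_o (ty : N → Fin 4) {r w x : N} (h : x ≠ r) (h' : x ≠ w) :
    rho_ty ty r w x = ty x := by
  simp [rho_ty, h, h']

theorem rho_ty_root (ty : N → Fin 4) {r w : N} (h : w ≠ r) :
    rho_ty ty r w w = 1 ∨ rho_ty ty r w w = 3 := by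
  rw [rho_ty_w ty h]
  split_ifs <;> simp

theorem rho_par {D : Finset (V × V)} {nd : V × V → N} (h : Sys D nd) (ty : N → Fin 4)
    (hpar : ∀ x, ty x = 1 ↔ Odd (dg D nd x)) {a : V × V} (ha : a ∈ D) (x : N) :
    rho_ty ty (nd a) (nd a.swap) x = 1 ↔ Odd (dg (del D a) nd x) := by
  have hne := h.nl a ha
  have hd := dg_del h ha x
  have hp := hpar x
  rw [Nat.odd_iff] at hp ⊢
  by_cases h1 : x = nd a
  · subst h1
    rw [if_pos rfl, if_neg hne] at hd
    rw [rho_ty_r]
    by_cases h3 : ty (nd a) = 1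
    · have := hp.1 h3
      rw [if_pos h3]
      constructor
      · intro e; exact absurd e (by decide)
      · intro e; omega
    · have : ¬ dg D nd (nd a) % 2 = 1 := fun e => h3 (hp.2 e)
      rw [if_neg h3]
      constructor
      · intro _; omega
      · intro _; rfl
  · by_cases h2 : x = nd a.swap
    · subst h2
      rw [if_neg hne.symm, if_pos rfl] at hd
      rw [rho_ty_w ty hne]
      by_cases h3 : ty (nd a.swap) = 1
      · have := hp.1 h3
        rw [if_pos h3]
        constructor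
        · intro e; exact absurd e (by decide)
        · intro e; omega
      · have : ¬ dg D nd (nd a.swap) % 2 = 1 := fun e => h3 (hp.2 e)
        rw [if_neg h3]
        constructor
        · intro _; omega
        · intro _; rfl
    · rw [if_neg (Ne.symm h1), if_neg (Ne.symm h2)] at hd
      rw [rho_ty_o ty h1 h2, hp]
      omega

theorem rho_reach_eq {D : Finset (V × V)} {nd : V × V → N} (hy : Sy D) {x z : N}
    (h : Reach D nd x z) (hz : dg D nd z = 0) : x = z := by
  cases h with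
  | refl => rfl
  | tail _ hs =>
    obtain ⟨c, hc, _, e⟩ := hs
    have : 0 < dg D nd z := dg_pos.2 ⟨c.swap, hy c hc, e⟩
    omega

theorem rho_root {D : Finset (V × V)} {nd : V × V → N} (h : Sys D nd) (ty : N → Fin 4)
    (hroot : ∀ x, (0 < dg D nd x ∨ ty x = 2) → ∃ z, Reach D nd x z ∧ (ty z = 1 ∨ ty z = 3))
    {a : V × V} (ha : a ∈ D)
    (hH : dg (del D a) nd (nd a) = 0 ∨ ∃ z, Reach (del D a) nd (nd a) z ∧
      (rho_ty ty (nd a) (nd a.swap) z = 1 ∨ rho_ty ty (nd a) (nd a.swap) z = 3)) (x : N)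
    (hx : 0 < dg (del D a) nd x ∨ rho_ty ty (nd a) (nd a.swap) x = 2) :
    ∃ z, Reach (del D a) nd x z ∧
      (rho_ty ty (nd a) (nd a.swap) z = 1 ∨ rho_ty ty (nd a) (nd a.swap) z = 3) := by
  have hne := h.nl a ha
  have hw : Reach (del D a) nd x (nd a.swap) → ∃ z, Reach (del D a) nd x z ∧
      (rho_ty ty (nd a) (nd a.swap) z = 1 ∨ rho_ty ty (nd a) (nd a.swap) z = 3) :=
    fun hr => ⟨_, hr, rho_ty_root ty hne⟩
  have hr : Reach (del D a) nd x (nd a) → ∃ z, Reach (del D a) nd x z ∧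
      (rho_ty ty (nd a) (nd a.swap) z = 1 ∨ rho_ty ty (nd a) (nd a.swap) z = 3) := by
    intro hr
    rcases hH with h0 | ⟨z, hz, hz'⟩
    · exfalso
      have e := rho_reach_eq (h.sy.del a) hr h0
      subst e
      rcases hx with hx | hx
      · omega
      · rw [rho_ty_r] at hx
        split_ifs at hx <;> exact absurd hx (by decide)
    · exact ⟨z, hr.trans hz, hz'⟩
  by_cases h1 : x = nd a
  · exact hr (h1 ▸ Reach.refl _ _ _)
  by_cases h2 : x = nd a.swap
  · exact hw (h2 ▸ Reach.refl _ _ _)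
  have hx' : 0 < dg D nd x ∨ ty x = 2 := by
    rcases hx with hx | hx
    · exact Or.inl (lt_of_lt_of_le hx (dg_mono nd (del_subset D a) x))
    · exact Or.inr (by rwa [rho_ty_o ty h1 h2] at hx)
  obtain ⟨z, hz, hz'⟩ := hroot x hx'
  rcases Reach.del_or a hz with h3 | h3 | h3
  · by_cases h4 : z = nd a
    · exact hr (h4 ▸ h3)
    by_cases h5 : z = nd a.swap
    · exact hw (h5 ▸ h3)
    exact ⟨z, h3, by rwa [rho_ty_o ty h4 h5]⟩
  · exact hr h3
  · exact hw h3

theorem rho_val (t : Fin 4) (R : ℤ) (h : Ok (if t = 1 then 3 else 1) R) :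
    ∃ e : ℤ, (e = 1 ∨ e = -1) ∧ Ok t (R + e) := by
  unfold Ok at h ⊢
  obtain ⟨_, h1, _, h3⟩ := h
  have ht : t = 0 ∨ t = 1 ∨ t = 2 ∨ t = 3 :=
    (by decide : ∀ u : Fin 4, u = 0 ∨ u = 1 ∨ u = 2 ∨ u = 3) t
  rcases ht with rfl | rfl | rfl | rfl
  · have := h1 (by decide)
    exact ⟨-R, by omega, by simp⟩
  · have := h3 (by decide)
    rcases this with rfl | rfl | rfl
    · exact ⟨1, by simp, by simp⟩
    · exact ⟨-1, by simp, by simp⟩
    · exact ⟨1, by simp, by simp⟩
  · have := h1 (by decide)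
    refine ⟨R, this, by simp, by simp, fun _ => by omega, by simp⟩
  · have := h1 (by decide)
    refine ⟨1, Or.inl rfl, by simp, by simp, by simp, fun _ => by omega⟩

theorem rho_val_r {t : Fin 4} (ht : t = 1 ∨ t = 3) {R e : ℤ} (he : e = 1 ∨ e = -1)
    (h : Ok (if t = 1 then 0 else 1) R) : Ok t (R + e) := by
  unfold Ok at h ⊢
  obtain ⟨h0, h1, _, _⟩ := h
  rcases ht with rfl | rfl
  · have := h0 (by decide)
    exact ⟨by simp, fun _ => by omega, by simp, by simp⟩
  · have := h1 (by decide)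
    exact ⟨by simp, by simp, by simp, fun _ => by omega⟩

theorem rho_step {D : Finset (V × V)} {nd : V × V → N} (h : Sys D nd) (ty : N → Fin 4)
    {a : V × V} (ha : a ∈ D) (hr : ty (nd a) = 1 ∨ ty (nd a) = 3) {f : V × V → ℤ}
    (hf : Sgn (del D a) f)
    (hok : ∀ x, Ok (rho_ty ty (nd a) (nd a.swap) x) (sg (del D a) nd f x)) :
    ∃ g : V × V → ℤ, Sgn D g ∧ ∀ x, Ok (ty x) (sg D nd g x) := by
  have hne := h.nl a ha
  have hw := hok (nd a.swap)
  rw [rho_ty_w ty hne] at hw
  obtain ⟨e, he, hew⟩ := rho_val _ _ hw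
  have hr' := hok (nd a)
  rw [rho_ty_r] at hr'
  have her := rho_val_r hr he hr'
  let g : V × V → ℤ := fun c => if c = a ∨ c = a.swap then e else f c
  have ga : g a = e := if_pos (Or.inl rfl)
  have gs : g a.swap = e := if_pos (Or.inr rfl)
  have go : ∀ c ∈ del D a, g c = f c := fun c hc =>
    if_neg (fun hh => hh.elim (mem_del.1 hc).2.1 (mem_del.1 hc).2.2)
  have hsg : ∀ x, sg (del D a) nd g x = sg (del D a) nd f x := fun x =>
    sum_congr rfl fun c hc => go c (mem_filter.1 hc).1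
  refine ⟨g, fun c hc => ?_, fun x => ?_⟩
  · by_cases h1 : c = a
    · subst h1; rw [ga, gs]; exact ⟨rfl, he⟩
    by_cases h2 : c = a.swap
    · subst h2; rw [Prod.swap_swap, ga, gs]; exact ⟨rfl, he⟩
    have hc' : c ∈ del D a := mem_del.2 ⟨hc, h1, h2⟩
    rw [go c hc', go _ (h.sy.del a c hc')]
    exact hf c hc'
  · rw [sg_del h g ha x, hsg, ga, gs]
    by_cases h1 : x = nd a
    · subst h1
      rw [if_pos rfl, if_neg hne, add_zero]
      exact her
    by_cases h2 : x = nd a.swap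
    · subst h2
      rw [if_neg hne.symm, if_pos rfl, add_zero]
      exact hew
    rw [if_neg (Ne.symm h1), if_neg (Ne.symm h2), add_zero, add_zero]
    have := hok x
    rwa [rho_ty_o ty h1 h2] at this

theorem rho_aux {nd : V × V → N} (n : ℕ) : ∀ {D : Finset (V × V)}, D.card = n → Sys D nd →
    ∀ ty : N → Fin 4, (∀ x, ty x = 1 ↔ Odd (dg D nd x)) →
    (∀ x, (0 < dg D nd x ∨ ty x = 2) → ∃ z, Reach D nd x z ∧ (ty z = 1 ∨ ty z = 3)) →
    ∃ f : V × V → ℤ, Sgn D f ∧ ∀ x, Ok (ty x) (sg D nd f x) := by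
  induction n using Nat.strong_induction_on with
  | _ n ih =>
  intro D hn h ty hpar hroot
  rcases D.eq_empty_or_nonempty with rfl | ⟨a0, ha0⟩
  · refine ⟨fun _ => 1, fun a ha => absurd ha (notMem_empty a), fun x => ?_⟩
    have h0 : ∀ y, dg (∅ : Finset (V × V)) nd y = 0 := fun y => by simp [dg]
    have h1 : sg (∅ : Finset (V × V)) nd (fun _ => 1) x = 0 := by simp [sg]
    rw [h1]
    refine ⟨fun _ => rfl, fun e => ?_, fun e => ?_, fun _ => Or.inl rfl⟩
    · have := (hpar x).1 e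
      rw [h0] at this
      exact absurd this (by decide)
    · obtain ⟨z, hz, hz'⟩ := hroot x (Or.inr e)
      have e' := rho_reach_eq h.sy hz (h0 z)
      subst e'
      rw [e] at hz'
      exact absurd hz' (by decide)
  · have key : ∀ a ∈ D, (ty (nd a) = 1 ∨ ty (nd a) = 3) →
        (dg (del D a) nd (nd a) = 0 ∨ ∃ z, Reach (del D a) nd (nd a) z ∧
          (rho_ty ty (nd a) (nd a.swap) z = 1 ∨ rho_ty ty (nd a) (nd a.swap) z = 3)) →
        ∃ f : V × V → ℤ, Sgn D f ∧ ∀ x, Ok (ty x) (sg D nd f x) := by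
      intro a ha hr hH
      obtain ⟨f, hf, hok⟩ := ih _ (hn ▸ card_del_lt ha) rfl (h.del a) _ (rho_par h ty hpar ha)
        (rho_root h ty hroot ha hH)
      exact rho_step h ty ha hr hf hok
    obtain ⟨r, hr, hr'⟩ := hroot (nd a0) (Or.inl (dg_pos.2 ⟨a0, ha0, rfl⟩))
    have hpos : 0 < dg D nd r := by
      rcases Nat.eq_zero_or_pos (dg D nd r) with h0 | h0
      · have e := rho_reach_eq h.sy hr h0
        have : 0 < dg D nd r := dg_pos.2 ⟨a0, ha0, e⟩
        omega
      · exact h0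
    obtain ⟨a, ha, rfl⟩ := dg_pos.1 hpos
    by_cases hH : dg (del D a) nd (nd a) = 0 ∨ ∃ z, Reach (del D a) nd (nd a) z ∧
        (rho_ty ty (nd a) (nd a.swap) z = 1 ∨ rho_ty ty (nd a) (nd a.swap) z = 3)
    · exact key a ha hr' hH
    · rw [not_or] at hH
      obtain ⟨b, hb, hba⟩ := dg_pos.1 (Nat.pos_of_ne_zero hH.1)
      have hng : ¬ Good (del D a) nd (nd b) := by
        rintro ⟨z, hz, ho⟩
        exact hH.2 ⟨z, hba ▸ hz, Or.inl ((rho_par h ty hpar ha z).2 ho)⟩
      have hbr := bridge (h.del a) hb hng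
      have hbD : b ∈ D := del_subset D a hb
      have hsub : del (del D a) b ⊆ del D b := fun c hc => by
        rw [mem_del] at hc ⊢
        exact ⟨del_subset D a hc.1, hc.2⟩
      refine key b hbD (hba ▸ hr') (Or.inr ⟨nd b.swap, ?_, rho_ty_root ty (h.nl b hbD)⟩)
      exact (hbr.mono hsub).symm (h.sy.del b)

/-- The sign lemma. -/
theorem rho {D : Finset (V × V)} {nd : V × V → N} (h : Sys D nd) (ty : N → Fin 4)
    (hpar : ∀ x, ty x = 1 ↔ Odd (dg D nd x))
    (hroot : ∀ x, (0 < dg D nd x ∨ ty x = 2) → ∃ z, Reach D nd x z ∧ (ty z = 1 ∨ ty z = 3)) :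
    ∃ f : V × V → ℤ, Sgn D f ∧ ∀ x, Ok (ty x) (sg D nd f x) :=
  rho_aux D.card rfl h ty hpar hroot

theorem rho_rep {D : Finset (V × V)} {nd : V × V → N} (hy : Sy D) :
    ∃ rep : N → N, (∀ x, Reach D nd x (rep x)) ∧ ∀ x y, Reach D nd x y → rep x = rep y := by
  classical
  refine ⟨fun x => @Classical.epsilon N ⟨x⟩ (Reach D nd x), fun x => ?_, fun x y hxy => ?_⟩
  · exact Classical.epsilon_spec (p := Reach D nd x) ⟨x, Reach.refl _ _ _⟩
  · have e : Reach D nd x = Reach D nd y :=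
      funext fun z => propext ⟨fun hz => (hxy.symm hy).trans hz, fun hz => hxy.trans hz⟩
    simp only [e]

/-- Balanced signs; an exceptional vertex has a prescribed sign and only even neighbours. -/
theorem rho_bal [Fintype V] {D : Finset (V × V)} (h : Sys D Prod.fst) (ε : V → ℤ)
    (hε : ∀ v, ε v = 1 ∨ ε v = -1) :
    ∃ f : V × V → ℤ, Sgn D f ∧ ∀ v,
      (Odd (deg D v) → sm D f v = 1 ∨ sm D f v = -1) ∧
      (Even (deg D v) → sm D f v = 0 ∨
        (sm D f v = 2 * ε v ∧ ∀ w, (v, w) ∈ D → Even (deg D w))) := by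
  classical
  obtain ⟨rep, hrep, hcon⟩ := rho_rep (nd := Prod.fst) h.sy
  let ty : V → Fin 4 := fun v =>
    if Odd (deg D v) then 1 else if ¬ Good D Prod.fst v ∧ rep v = v then 3 else 0
  have t1 : ∀ v, Odd (deg D v) → ty v = 1 := fun v hv => if_pos hv
  have t3 : ∀ v, ¬ Odd (deg D v) → (¬ Good D Prod.fst v ∧ rep v = v) → ty v = 3 :=
    fun v hv hv' => (if_neg hv).trans (if_pos hv')
  have t0 : ∀ v, ¬ Odd (deg D v) → ¬ (¬ Good D Prod.fst v ∧ rep v = v) → ty v = 0 :=
    fun v hv hv' => (if_neg hv).trans (if_neg hv')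
  have hpar : ∀ v, ty v = 1 ↔ Odd (deg D v) := by
    intro v
    refine ⟨fun e => ?_, t1 v⟩
    by_contra hv
    by_cases hv' : ¬ Good D Prod.fst v ∧ rep v = v
    · rw [t3 v hv hv'] at e; exact absurd e (by decide)
    · rw [t0 v hv hv'] at e; exact absurd e (by decide)
  have hroot : ∀ x, (0 < dg D Prod.fst x ∨ ty x = 2) →
      ∃ z, Reach D Prod.fst x z ∧ (ty z = 1 ∨ ty z = 3) := by
    intro x _
    by_cases hg : Good D Prod.fst x
    · obtain ⟨z, hz, ho⟩ := hg
      exact ⟨z, hz, Or.inl (t1 z ho)⟩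
    · have hg' : ¬ Good D Prod.fst (rep x) := fun e => hg (Good.of_reach (hrep x) e)
      exact ⟨rep x, hrep x, Or.inr (t3 _ (fun ho => hg' ⟨_, Reach.refl _ _ _, ho⟩)
        ⟨hg', (hcon _ _ (hrep x)).symm⟩)⟩
  obtain ⟨f, hf, hok⟩ := rho h ty hpar hroot
  let s : V → ℤ := fun z => if sm D f z = -2 * ε z then -1 else 1
  have hs : ∀ z, s z = 1 ∨ s z = -1 := fun z => by
    by_cases e : sm D f z = -2 * ε z
    · exact Or.inr (if_pos e)
    · exact Or.inl (if_neg e)
  have hsm : ∀ v, sm D (fun a => s (rep a.1) * f a) v = s (rep v) * sm D f v := by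
    intro v
    unfold sm sg
    rw [mul_sum]
    exact sum_congr rfl fun a ha => by rw [← (mem_filter.1 ha).2]
  refine ⟨fun a => s (rep a.1) * f a, fun a ha => ?_, fun v => ⟨fun hv => ?_, fun hv => ?_⟩⟩
  · have e : rep a.swap.1 = rep a.1 := (hcon _ _ (Reach.dart Prod.fst ha)).symm
    obtain ⟨h1, h2⟩ := hf a ha
    refine ⟨by simp only [e, h1], ?_⟩
    rcases hs (rep a.1) with h3 | h3 <;> rcases h2 with h2 | h2 <;> simp only [h3, h2] <;> simp
  · rw [hsm]
    have h1 := (hok v).2.1 (t1 v hv)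
    change sm D f v = 1 ∨ sm D f v = -1 at h1
    rcases hs (rep v) with h3 | h3 <;> rcases h1 with h1 | h1 <;> rw [h3, h1] <;> simp
  · rw [hsm]
    have hv' : ¬ Odd (deg D v) := Nat.not_odd_iff_even.2 hv
    by_cases hx : ¬ Good D Prod.fst v ∧ rep v = v
    · have h1 := (hok v).2.2.2 (t3 v hv' hx)
      change sm D f v = 0 ∨ sm D f v = 2 ∨ sm D f v = -2 at h1
      rcases h1 with h1 | h1
      · left; rw [h1, mul_zero]
      · right
        refine ⟨?_, fun w hw => Nat.not_odd_iff_even.1 fun ho =>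
          hx.1 ⟨w, Reach.dart Prod.fst hw, ho⟩⟩
        rw [hx.2]
        have := hε v
        by_cases e : sm D f v = -2 * ε v
        · have e' : s v = -1 := if_pos e
          rw [e']; omega
        · have e' : s v = 1 := if_neg e
          rw [e']; omega
    · have h1 := (hok v).1 (t0 v hv' hx)
      change sm D f v = 0 at h1
      left; rw [h1, mul_zero]

end Pool.Agent.P.MP_0ad50f_co.D8
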