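import Pool.Agent.P.MP_0ad50f_co.D8.Rho

/-! Splitting a node keeps a node of odd degree in reach. -/

namespace Pool.Agent.P.MP_0ad50f_co.D8

set_option linter.unusedSectionVars false

open Finset

variable {V N : Type} [DecidableEq V] [DecidableEq N]

/-- the node map after the darts of `P` have moved to `t'` -/
abbrev sp_nd (nd : V × V → N) (t' : N) (P : Finset (V × V)) : V × V → N :=
  fun b => if b ∈ P then t' else nd b

section one
variable {D : Finset (V × V)} {nd : V × V → N} {t t' : N} {P : Finset (V × V)}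

theorem sp_sys (h : Sys D nd) (hfresh : ∀ a ∈ D, nd a ≠ t') (hP : ∀ a ∈ P, nd a = t) :
    Sys D (sp_nd nd t' P) := by
  refine ⟨h.sy, fun a ha => ?_⟩
  have h1 := h.nl a ha
  have h2 := hfresh a ha
  have h3 := hfresh _ (h.sy a ha)
  simp only [sp_nd]
  split_ifs with p q q
  · exact absurd ((hP _ p).trans (hP _ q).symm) h1
  · exact h2.symm
  · exact h3
  · exact h1

theorem sp_dg_other (hP : ∀ a ∈ P, nd a = t) {x : N} (hx : x ≠ t) (hx' : x ≠ t') :
    dg D (sp_nd nd t' P) x = dg D nd x := by
  unfold dg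
  congr 1
  refine filter_congr fun a _ => ?_
  simp only [sp_nd]
  split_ifs with p
  · rw [hP a p]
    exact ⟨fun e => absurd e.symm hx', fun e => absurd e.symm hx⟩
  · rfl

theorem sp_dg_sum (hfresh : ∀ a ∈ D, nd a ≠ t') (hP : ∀ a ∈ P, nd a = t) (htt : t ≠ t') :
    dg D nd t = dg D (sp_nd nd t' P) t + dg D (sp_nd nd t' P) t' := by
  unfold dg
  rw [← card_union_of_disjoint, ← filter_or]
  · congr 1
    refine filter_congr fun a ha => ?_
    simp only [sp_nd]
    split_ifs with p
    · simp [hP a p]
    · exact ⟨Or.inl, fun e => e.resolve_right (hfresh a ha)⟩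
  · rw [disjoint_filter]
    intro a _ e e'
    exact htt (e.symm.trans e')

theorem sp_dg_fresh (hfresh : ∀ a ∈ D, nd a ≠ t') : dg D nd t' = 0 := by
  unfold dg
  rw [card_eq_zero, filter_eq_empty_iff]
  exact hfresh

/-- a node other than `t` stays good unless one of the two new nodes is good; at `t` itself one
of the two is good -/
theorem sp_walk (hfresh : ∀ a ∈ D, nd a ≠ t') (hP : ∀ a ∈ P, nd a = t)
    (htt : t ≠ t') {x : N} (hx : Good D nd x) :
    (Good D (sp_nd nd t' P) t ∨ Good D (sp_nd nd t' P) t') ∨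
      (x ≠ t ∧ Good D (sp_nd nd t' P) x) := by
  obtain ⟨z, hz, ho⟩ := hx
  induction hz using Relation.ReflTransGen.head_induction_on with
  | refl =>
    by_cases e : z = t
    · subst e
      rw [sp_dg_sum hfresh hP htt, Nat.odd_add] at ho
      left
      by_cases o : Odd (dg D (sp_nd nd t' P) z)
      · exact Or.inl ⟨z, Reach.refl _ _ _, o⟩
      · refine Or.inr ⟨t', Reach.refl _ _ _, ?_⟩
        rw [← Nat.not_even_iff_odd]
        exact fun q => o (ho.2 q)
    · have e' : z ≠ t' := by
        rintro rfl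
        rw [sp_dg_fresh hfresh] at ho
        exact absurd ho (by decide)
      exact Or.inr ⟨e, z, Reach.refl _ _ _, by rwa [sp_dg_other hP e e']⟩
  | head hs _ ih =>
    obtain ⟨b, hb, rfl, rfl⟩ := hs
    rcases ih with ih | ⟨hne, ih⟩
    · exact Or.inl ih
    · have e1 : sp_nd nd t' P b.swap = nd b.swap := if_neg fun q => hne (hP _ q)
      have g : Good D (sp_nd nd t' P) (sp_nd nd t' P b) :=
        Good.of_reach (Reach.dart _ hb) (by rwa [e1])
      by_cases q : b ∈ P
      · have e2 : sp_nd nd t' P b = t' := if_pos q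
        exact Or.inl (Or.inr (by rwa [e2] at g))
      · have e2 : sp_nd nd t' P b = nd b := if_neg q
        rw [e2] at g
        by_cases e : nd b = t
        · exact Or.inl (Or.inl (by rwa [e] at g))
        · exact Or.inr ⟨e, g⟩

/-- if both new nodes are good then every good old node other than `t` stays good -/
theorem sp_all (hP : ∀ a ∈ P, nd a = t) (g : Good D (sp_nd nd t' P) t)
    (g' : Good D (sp_nd nd t' P) t') {x : N} (hx : Good D nd x) :
    Good D (sp_nd nd t' P) x := by
  obtain ⟨z, hz, ho⟩ := hx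
  induction hz using Relation.ReflTransGen.head_induction_on with
  | refl =>
    by_cases e : z = t
    · rwa [e]
    · by_cases e' : z = t'
      · rwa [e']
      · exact ⟨z, Reach.refl _ _ _, by rwa [sp_dg_other hP e e']⟩
  | head hs _ ih =>
    obtain ⟨b, hb, rfl, rfl⟩ := hs
    by_cases e : nd b = t
    · rwa [e]
    · have e2 : sp_nd nd t' P b = nd b := if_neg fun q => e (hP _ q)
      have r := Reach.dart (sp_nd nd t' P) hb
      rw [e2] at r
      refine Good.of_reach r ?_
      by_cases q : b.swap ∈ P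
      · have e3 : sp_nd nd t' P b.swap = t' := if_pos q
        rwa [e3]
      · have e3 : sp_nd nd t' P b.swap = nd b.swap := if_neg q
        rwa [e3]

end one

/-- a walk inside a bad component survives a change of nodes outside it -/
theorem sp_move {D : Finset (V × V)} {n1 n2 : V × V → N} (hsy : Sy D) {x : V × V} {u v : N}
    (hr : Reach (del D x) n1 u v) (hv : ¬ Good D n1 v)
    (hs : ∀ b ∈ D, b ≠ x → ¬ Good D n1 (n1 b) → n2 b = n1 b) : Reach D n2 u v := by
  induction hr using Relation.ReflTransGen.head_induction_on with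
  | refl => exact Reach.refl _ _ _
  | head h1 h2 ih =>
    obtain ⟨b, hb, rfl, rfl⟩ := h1
    rw [mem_del] at hb
    have r : Reach D n1 (n1 b.swap) v := Reach.mono (del_subset D x) h2
    have g2 : ¬ Good D n1 (n1 b.swap) := fun g => hv (Good.of_reach (r.symm hsy) g)
    have g1 : ¬ Good D n1 (n1 b) := fun g =>
      g2 (Good.of_reach ((Reach.dart n1 hb.1).symm hsy) g)
    have e1 := hs b hb.1 hb.2.1 g1
    have e2 := hs b.swap (hsy b hb.1) (fun e => hb.2.2 (by rw [← e]; simp)) g2
    have s := Reach.dart n2 hb.1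
    rw [e1, e2] at s
    exact s.trans ih

theorem sp_turn {D : Finset (V × V)} {n1 n2 : V × V → N} (h : Sys D n1) {x : V × V} (hx : x ∈ D)
    (hv : ¬ Good D n1 (n1 x)) (hs : ∀ b ∈ D, b ≠ x → ¬ Good D n1 (n1 b) → n2 b = n1 b) :
    Reach D n2 (n2 x) (n1 x) := by
  have r := sp_move h.sy (bridge h hx hv) hv hs
  have e := hs x.swap (h.sy x hx) (h.ne_swap hx) fun g => hv (Good.of_reach (Reach.dart n1 hx) g)
  have s := Reach.dart n2 hx
  rw [e] at s
  exact s.trans r

/-- One node `t` is split: `p` of the candidate darts `C` move to the new node `t'`. -/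
theorem split {D : Finset (V × V)} {nd : V × V → N} (h : Sys D nd) (t t' : N)
    (hfresh : ∀ a ∈ D, nd a ≠ t') (C : Finset (V × V)) (hC : ∀ a ∈ C, a ∈ D ∧ nd a = t)
    (p : ℕ) (hp : 1 ≤ p) (hpC : p + 1 ≤ C.card) (hgood : ∀ a ∈ D, Good D nd (nd a)) :
    ∃ P ⊆ C, P.card = p ∧
      ∀ a ∈ D, Good D (fun b => if b ∈ P then t' else nd b) (if a ∈ P then t' else nd a) := by
  obtain ⟨P, hPC, hPp⟩ := exists_subset_card_eq (s := C) (n := p) (by omega)
  obtain ⟨a, ha⟩ : P.Nonempty := card_pos.1 (by omega)
  obtain ⟨c, hc, hcP⟩ := exists_mem_notMem_of_card_lt_card (s := P) (t := C) (by omega)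
  have haC := hC a (hPC ha)
  have hcC := hC c hc
  have htt : t ≠ t' := by rw [← hcC.2]; exact hfresh c hcC.1
  have gt : Good D nd t := by rw [← hcC.2]; exact hgood c hcC.1
  have one : ∀ Q ⊆ C, Good D (sp_nd nd t' Q) t ∨ Good D (sp_nd nd t' Q) t' := fun Q hQ =>
    (sp_walk hfresh (fun b hb => (hC b (hQ hb)).2) htt gt).resolve_right fun q => q.1 rfl
  have fin : ∀ Q ⊆ C, Good D (sp_nd nd t' Q) t → Good D (sp_nd nd t' Q) t' →
      ∀ b ∈ D, Good D (sp_nd nd t' Q) (sp_nd nd t' Q b) := by
    intro Q hQ g g' b hb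
    by_cases q : b ∈ Q
    · have e : sp_nd nd t' Q b = t' := if_pos q
      rwa [e]
    · have e : sp_nd nd t' Q b = nd b := if_neg q
      rw [e]
      exact sp_all (fun b hb => (hC b (hQ hb)).2) g g' (hgood b hb)
  have ea : sp_nd nd t' P a = t' := if_pos ha
  have ec : sp_nd nd t' P c = t := (if_neg hcP).trans hcC.2
  have hac : a ≠ c := fun e => hcP (e ▸ ha)
  have hsys := sp_sys h hfresh fun b hb => (hC b (hPC hb)).2
  have hQ : insert c (P.erase a) ⊆ C := insert_subset hc ((erase_subset a P).trans hPC)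
  have hQp : (insert c (P.erase a)).card = p := by
    rw [card_insert_of_notMem (fun q => hcP (mem_of_mem_erase q)), card_erase_of_mem ha]
    omega
  have ea' : sp_nd nd t' (insert c (P.erase a)) a = t :=
    (if_neg (by simp [hac])).trans haC.2
  have ec' : sp_nd nd t' (insert c (P.erase a)) c = t' := if_pos (mem_insert_self _ _)
  have same : ∀ b, b ≠ a → b ≠ c → sp_nd nd t' (insert c (P.erase a)) b = sp_nd nd t' P b := by
    intro b h1 h2
    simp [sp_nd, h1, h2]
  have both : Reach D (sp_nd nd t' (insert c (P.erase a))) t t' →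
      ∀ b ∈ D, Good D (sp_nd nd t' (insert c (P.erase a)))
        (sp_nd nd t' (insert c (P.erase a)) b) := by
    intro r
    rcases one _ hQ with g | g
    · exact fin _ hQ g (Good.of_reach (r.symm h.sy) g)
    · exact fin _ hQ (Good.of_reach r g) g
  by_cases g : Good D (sp_nd nd t' P) t
  · by_cases g' : Good D (sp_nd nd t' P) t'
    · exact ⟨P, hPC, hPp, fin P hPC g g'⟩
    · refine ⟨_, hQ, hQp, both ?_⟩
      have r := sp_turn (n2 := sp_nd nd t' (insert c (P.erase a))) hsys haC.1 (by rwa [ea])
        fun b _ h1 h2 => same b h1 fun e => h2 (by rwa [e, ec])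
      rwa [ea, ea'] at r
  · have g' := (one P hPC).resolve_left g
    refine ⟨_, hQ, hQp, both ?_⟩
    have r := sp_turn (n2 := sp_nd nd t' (insert c (P.erase a))) hsys hcC.1 (by rwa [ec])
      fun b _ h1 h2 => same b (fun e => h2 (by rwa [e, ea])) h1
    rw [ec, ec'] at r
    exact r.symm h.sy

theorem sp_base {D : Finset (V × V)} {v : V} (h : Good D Prod.fst v) :
    Good D (fun b : V × V => (b.1, false)) (v, false) := by
  obtain ⟨z, hz, ho⟩ := h
  refine ⟨(z, false), ?_, ?_⟩
  · clear ho
    induction hz with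
    | refl => exact Reach.refl _ _ _
    | tail _ hs ih =>
      obtain ⟨b, hb, rfl, rfl⟩ := hs
      exact ih.trans (Reach.dart (fun b : V × V => (b.1, false)) hb)
  · have e : dg D (fun b : V × V => (b.1, false)) (z, false) = dg D Prod.fst z := by
      unfold dg
      congr 1
      exact filter_congr fun a _ => by simp
    rwa [e]

/-- All vertices of `A` are split; `p t` darts of `C` at `t` form the new node `(t, true)`. -/
theorem split_all {D : Finset (V × V)} (h : Sys D Prod.fst) (C : Finset (V × V)) (hC : C ⊆ D)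
    (p : V → ℕ) (A : Finset V) (hp : ∀ t ∈ A, 1 ≤ p t ∧ p t + 1 ≤ deg C t)
    (hgood : ∀ v, Good D Prod.fst v) :
    ∃ P ⊆ C, (∀ a ∈ P, a.1 ∈ A) ∧ (∀ t ∈ A, deg P t = p t) ∧
      ∀ a ∈ D, Good D (fun b => (b.1, decide (b ∈ P))) (a.1, decide (a ∈ P)) := by
  induction A using Finset.induction_on with
  | empty =>
    refine ⟨∅, empty_subset _, by simp, by simp, fun a _ => ?_⟩
    simpa using sp_base (hgood a.1)
  | insert t A ht ih =>
    obtain ⟨P, hPC, hPA, hPd, hPg⟩ := ih fun s hs => hp s (mem_insert_of_mem hs)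
    have hsys : Sys D fun b => (b.1, decide (b ∈ P)) :=
      ⟨h.sy, fun a ha e => h.nl a ha (Prod.ext_iff.1 e).1⟩
    have hnP : ∀ a : V × V, a.1 = t → a ∉ P := fun a e q => ht (e ▸ hPA a q)
    obtain ⟨Q, hQC, hQp, hQg⟩ := split hsys (t, false) (t, true)
      (fun a _ e => by
        have e1 : a.1 = t := congrArg Prod.fst e
        have e2 : decide (a ∈ P) = true := congrArg Prod.snd e
        exact hnP a e1 (of_decide_eq_true e2))
      (C.filter fun a => a.1 = t)
      (fun a ha => by
        rw [mem_filter] at ha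
        exact ⟨hC ha.1, by simp [ha.2, hnP a ha.2]⟩)
      (p t) (hp t (mem_insert_self _ _)).1 (hp t (mem_insert_self _ _)).2 hPg
    have hQt : ∀ a ∈ Q, a.1 = t := fun a ha => (mem_filter.1 (hQC ha)).2
    have e : ∀ b : V × V, (if b ∈ Q then (t, true) else (b.1, decide (b ∈ P))) =
        (b.1, decide (b ∈ P ∪ Q)) := by
      intro b
      split_ifs with q
      · simp [q, hQt b q]
      · simp [q]
    refine ⟨P ∪ Q, union_subset hPC (hQC.trans (filter_subset _ _)), fun a ha => ?_,
      fun s hs => ?_, fun a ha => ?_⟩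
    · rcases mem_union.1 ha with q | q
      · exact mem_insert_of_mem (hPA a q)
      · rw [hQt a q]; exact mem_insert_self _ _
    · rcases mem_insert.1 hs with rfl | hs
      · rw [← hQp]
        unfold deg dg
        congr 1
        ext a
        simp only [mem_filter, mem_union]
        exact ⟨fun q => q.1.resolve_left (hnP a q.2), fun q => ⟨Or.inr q, hQt a q⟩⟩
      · rw [← hPd s hs]
        unfold deg dg
        congr 1
        ext a
        simp only [mem_filter, mem_union]
        refine ⟨fun q => ⟨q.1.resolve_right fun r => ht ?_, q.2⟩, fun q => ⟨Or.inl q.1, q.2⟩⟩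
        rw [← hQt a r, q.2]
        exact hs
    · have g := hQg a ha
      simp only [e] at g
      exact g

end Pool.Agent.P.MP_0ad50f_co.D8
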